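import Pool.Agent.Work.MP_b29d7f_sep.Interface

/-!
# Block JB: few jumps in a window
-/

namespace Pool.Agent.Work.MP_b29d7f_sep

open Finset
open Pool.Agent.Work.MP_b29d7f_nt (IsPOrdering HasSimultaneousOrdering PS vd ld tv vd_comm ld_comm
  vd_nonneg injective_of_ordering)
open Pool.Agent.Work.MP_b29d7f_half (Ord A wv lD K DK wv_le_of_notMem stmt_ORD stmt_VDM mem_A sum_A
  A_mono card_A)

theorem fin_mult {p : ℕ} (hp : p.Prime) {x : ℤ} (hx : x ≠ 0) : FiniteMultiplicity (p : ℤ) x := by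
  rw [Int.finiteMultiplicity_iff]
  exact ⟨by simpa using hp.ne_one, hx⟩

theorem vd_eq_zero {p : ℕ} {x y : ℤ} (h : ¬ (p : ℤ) ∣ x - y) : vd p x y = 0 := by
  unfold vd
  rw [multiplicity_eq_zero.mpr h, Nat.cast_zero]

theorem one_le_vd {p : ℕ} (hp : p.Prime) {x y : ℤ} (hxy : x ≠ y) (h : (p : ℤ) ∣ x - y) :
    1 ≤ vd p x y := by
  unfold vd
  have h1 : 1 ≤ multiplicity (p : ℤ) (x - y) := by
    rw [← (fin_mult hp (sub_ne_zero.mpr hxy)).pow_dvd_iff_le_multiplicity]
    simpa using h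
  exact_mod_cast h1

/-- the ultrametric inequality -/
theorem vd_ultra {p : ℕ} (hp : p.Prime) {s x y : ℤ} (hxy : x ≠ y)
    (h : vd p s y ≤ vd p s x) : vd p s y ≤ vd p x y := by
  unfold vd at h ⊢
  have h' : multiplicity (p : ℤ) (s - y) ≤ multiplicity (p : ℤ) (s - x) := by exact_mod_cast h
  have h1 : (p : ℤ) ^ multiplicity (p : ℤ) (s - y) ∣ s - y := pow_multiplicity_dvd _ _
  have h2 : (p : ℤ) ^ multiplicity (p : ℤ) (s - y) ∣ s - x :=
    (pow_dvd_pow _ h').trans (pow_multiplicity_dvd _ _)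
  have h3 : (p : ℤ) ^ multiplicity (p : ℤ) (s - y) ∣ x - y := by
    have := dvd_sub h1 h2
    have e : s - y - (s - x) = x - y := by ring
    rwa [e] at this
  have h4 := (fin_mult hp (sub_ne_zero.mpr hxy)).pow_dvd_iff_le_multiplicity.mp h3
  exact_mod_cast h4

/-- the valuation is bounded by the logarithm -/
theorem vd_mul_log_le {p : ℕ} (hp : p.Prime) {x y : ℤ} (hxy : x ≠ y) :
    vd p x y * Real.log p ≤ ld x y := by
  unfold vd ld
  have h0 : x - y ≠ 0 := sub_ne_zero.mpr hxy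
  have h1 : (p : ℤ) ^ multiplicity (p : ℤ) (x - y) ∣ x - y := pow_multiplicity_dvd _ _
  have h2 : (p : ℤ) ^ multiplicity (p : ℤ) (x - y) ≤ |x - y| :=
    Int.le_of_dvd (abs_pos.mpr h0) ((dvd_abs _ _).mpr h1)
  have h3 : (p : ℝ) ^ multiplicity (p : ℤ) (x - y) ≤ |((x - y : ℤ) : ℝ)| := by
    exact_mod_cast h2
  have h4 : (0 : ℝ) < (p : ℝ) ^ multiplicity (p : ℤ) (x - y) :=
    pow_pos (by exact_mod_cast hp.pos) _
  have h5 := Real.log_le_log h4 h3
  rwa [Real.log_pow] at h5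

section

variable {S : Set ℤ} {a : ℕ → ℤ}

theorem wv_mono (ho : Ord S a) {p : ℕ} (hp : p.Prime) : Monotone (wv p a) := by
  have h2p := ho.ord 2 Nat.prime_two
  have hinj : Function.Injective a := injective_of_ordering ho.inf Nat.prime_two h2p
  refine monotone_nat_of_le_succ fun n => ?_
  have hn : a (n + 1) ∉ A a n := by
    intro h
    obtain ⟨i, hi, h⟩ := mem_A.mp h
    have := hinj h
    omega
  refine (wv_le_of_notMem ho hp n (h2p.1 (n + 1)) hn).trans ?_
  unfold wv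
  rw [Finset.sum_range_succ]
  linarith [vd_nonneg p (a (n + 1)) (a n)]

theorem ord_inj (ho : Ord S a) : Function.Injective a :=
  injective_of_ordering ho.inf Nat.prime_two (ho.ord 2 Nat.prime_two)

theorem ord_mem (ho : Ord S a) (k : ℕ) : a k ∈ S := (ho.ord 2 Nat.prime_two).1 k

theorem ord_notMem (ho : Ord S a) {n j : ℕ} (h : n ≤ j) : a j ∉ A a n := by
  intro hh
  obtain ⟨i, hi, h'⟩ := mem_A.mp hh
  have := ord_inj ho h'
  omega

/-- case (i): a later element avoids the classes of the window -/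
theorem jb_core1 (ho : Ord S a) {p : ℕ} (hp : p.Prime) {u v j : ℕ} (huv : u ≤ v) (hvj : v ≤ j)
    (hno : ∀ i ∈ Ico u v, ¬ (p : ℤ) ∣ a j - a i) {T : ℝ} (hT0 : 0 ≤ T)
    (hT : ∀ i < u, vd p (a j) (a i) ≤ T) : wv p a v ≤ wv p a u + T := by
  have hinj := ord_inj ho
  have h1 : wv p a v ≤ ∑ i ∈ range v, vd p (a j) (a i) :=
    wv_le_of_notMem ho hp v (ord_mem ho j) (ord_notMem ho hvj)
  have h2 : ∑ i ∈ range v, vd p (a j) (a i) = ∑ i ∈ range u, vd p (a j) (a i) := by
    rw [← Finset.sum_range_add_sum_Ico _ huv, Finset.sum_eq_zero (s := Ico u v), add_zero]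
    intro i hi
    exact vd_eq_zero (hno i hi)
  rw [h2] at h1
  rcases Nat.eq_zero_or_pos u with hu | hu
  · subst hu
    have h3 : 0 ≤ wv p a 0 := by unfold wv; simp
    simp only [Finset.range_zero, Finset.sum_empty] at h1
    linarith
  obtain ⟨t, ht, htmax⟩ := Finset.exists_max_image (range u) (fun i => vd p (a j) (a i))
    ⟨0, Finset.mem_range.mpr hu⟩
  rw [Finset.mem_range] at ht
  have h3 : ∑ i ∈ range u, vd p (a j) (a i) =
      vd p (a j) (a t) + ∑ i ∈ (range u).erase t, vd p (a j) (a i) :=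
    (Finset.add_sum_erase (range u) (fun i => vd p (a j) (a i)) (Finset.mem_range.mpr ht)).symm
  have h4 : ∑ i ∈ (range u).erase t, vd p (a j) (a i) ≤
      ∑ i ∈ (range u).erase t, vd p (a t) (a i) := by
    refine Finset.sum_le_sum fun i hi => ?_
    rw [Finset.mem_erase, Finset.mem_range] at hi
    exact vd_ultra hp (fun h => hi.1 (hinj h).symm) (htmax i (Finset.mem_range.mpr hi.2))
  have h5 : ∑ i ∈ (range u).erase t, vd p (a t) (a i) =
      ∑ y ∈ (A a u).erase (a t), vd p (a t) y := by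
    have e : (A a u).erase (a t) = ((range u).erase t).image a := by
      unfold A
      rw [Finset.image_erase hinj]
    rw [e, Finset.sum_image fun i _ k _ h => hinj h]
  have h6 : ∑ y ∈ (A a u).erase (a t), vd p (a t) y ≤ wv p a u :=
    (stmt_ORD stmt_VDM S a ho).2.2.2.2.1 p hp u (a t) (mem_A.mpr ⟨t, ht, rfl⟩)
  have h7 := hT t ht
  linarith

/-- case (ii): all later elements lie in the classes of the window -/
theorem jb_core2 (ho : Ord S a) {p : ℕ} (hp : p.Prime) {u n M : ℕ} (hvn : u + M ≤ n)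
    (hM : 1 ≤ M)
    (hall : ∀ j, u + M ≤ j → j < 2 * n → ∃ i ∈ Ico u (u + M), (p : ℤ) ∣ a j - a i)
    (hd : ∀ h₁ h₂, h₁ < h₂ → h₂ ≤ M → ¬ (p : ℤ) ∣ a h₂ - a h₁) :
    ∃ h ≤ M, (n : ℝ) / M - 1 ≤
      wv p a (2 * n) - ∑ y ∈ (A a (2 * n)).erase (a h), vd p (a h) y := by
  classical
  have hinj := ord_inj ho
  set R : Finset (ZMod p) := (Ico u (u + M)).image (fun i => ((a i : ℤ) : ZMod p)) with hR
  have hRc : R.card ≤ M := by
    refine Finset.card_image_le.trans ?_
    simp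
  have hdvd : ∀ x y : ℤ, ((x : ZMod p) = (y : ZMod p)) ↔ (p : ℤ) ∣ x - y := by
    intro x y
    rw [← ZMod.intCast_zmod_eq_zero_iff_dvd, Int.cast_sub, sub_eq_zero]
  -- an early element outside the classes
  obtain ⟨h, hhM, hhR⟩ : ∃ h ≤ M, ((a h : ℤ) : ZMod p) ∉ R := by
    by_contra hcon
    push Not at hcon
    have h1 : ((range (M + 1)).image (fun i => ((a i : ℤ) : ZMod p))).card = M + 1 := by
      rw [Finset.card_image_of_injOn, Finset.card_range]
      intro x hx y hy hxy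
      rw [Finset.mem_coe, Finset.mem_range] at hx hy
      have hxy' := (hdvd _ _).mp hxy
      rcases lt_trichotomy x y with hlt | heq | hlt
      · exact absurd ((hdvd _ _).mp hxy.symm) (hd x y hlt (by omega))
      · exact heq
      · exact absurd hxy' (hd y x hlt (by omega))
    have h2 : (range (M + 1)).image (fun i => ((a i : ℤ) : ZMod p)) ⊆ R := by
      intro z hz
      obtain ⟨i, hi, rfl⟩ := Finset.mem_image.mp hz
      exact hcon i (by rw [Finset.mem_range] at hi; omega)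
    have := Finset.card_le_card h2
    omega
  have hlate : ∀ j, u + M ≤ j → j < 2 * n → ((a j : ℤ) : ZMod p) ∈ R := by
    intro j h1 h2
    obtain ⟨i, hi, hi'⟩ := hall j h1 h2
    exact Finset.mem_image.mpr ⟨i, hi, ((hdvd _ _).mpr hi').symm⟩
  have hhlt : h < u + M := by
    by_contra hcon
    exact hhR (hlate h (by omega) (by omega))
  refine ⟨h, hhM, ?_⟩
  -- the early element does not see the late ones
  have hsum : ∑ y ∈ (A a (2 * n)).erase (a h), vd p (a h) y ≤ wv p a (u + M) := by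
    have h1 : ∑ y ∈ (A a (2 * n)).erase (a h), vd p (a h) y =
        ∑ y ∈ (A a (u + M)).erase (a h), vd p (a h) y := by
      symm
      refine Finset.sum_subset (Finset.erase_subset_erase _ (A_mono (by omega))) ?_
      intro y hy hy'
      rw [Finset.mem_erase] at hy hy'
      obtain ⟨j, hj, rfl⟩ := mem_A.mp hy.2
      have hj' : u + M ≤ j := by
        by_contra hcon
        exact hy' ⟨hy.1, mem_A.mpr ⟨j, by omega, rfl⟩⟩
      refine vd_eq_zero fun hdv => hhR ?_
      rw [(hdvd _ _).mpr hdv]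
      exact hlate j hj' hj
    rw [h1]
    exact (stmt_ORD stmt_VDM S a ho).2.2.2.2.1 p hp (u + M) (a h) (mem_A.mpr ⟨h, hhlt, rfl⟩)
  -- a popular class
  have hpig : ∃ r ∈ R, (n : ℝ) / M ≤
      (((Ico (u + M) (2 * n)).filter (fun j => ((a j : ℤ) : ZMod p) = r)).card : ℝ) := by
    by_contra hcon
    push Not at hcon
    have h1 : ∑ r ∈ R, ((Ico (u + M) (2 * n)).filter
        (fun j => ((a j : ℤ) : ZMod p) = r)).card = (Ico (u + M) (2 * n)).card := by
      rw [← Finset.card_eq_sum_card_fiberwise]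
      intro j hj
      rw [Finset.mem_coe, Finset.mem_Ico] at hj
      exact hlate j hj.1 hj.2
    have hRne : R.Nonempty := by
      refine ⟨((a u : ℤ) : ZMod p), Finset.mem_image.mpr ⟨u, ?_, rfl⟩⟩
      rw [Finset.mem_Ico]; omega
    have h2 : ∑ r ∈ R, (((Ico (u + M) (2 * n)).filter
        (fun j => ((a j : ℤ) : ZMod p) = r)).card : ℝ) < ∑ r ∈ R, (n : ℝ) / M :=
      Finset.sum_lt_sum_of_nonempty hRne hcon
    have h3 : ((Ico (u + M) (2 * n)).card : ℝ) < ∑ r ∈ R, (n : ℝ) / M := by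
      rw [← h1]; push_cast; exact h2
    rw [Finset.sum_const, nsmul_eq_mul, Nat.card_Ico] at h3
    have h4 : (n : ℝ) ≤ ((2 * n - (u + M) : ℕ) : ℝ) := by
      exact_mod_cast (by omega : n ≤ 2 * n - (u + M))
    have h5 : (R.card : ℝ) * ((n : ℝ) / M) ≤ M * ((n : ℝ) / M) := by
      refine mul_le_mul_of_nonneg_right (by exact_mod_cast hRc) (by positivity)
    have h6 : (M : ℝ) * ((n : ℝ) / M) = n := by
      have : (M : ℝ) ≠ 0 := by positivity
      field_simp
    linarith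
  obtain ⟨r, _, hr⟩ := hpig
  set F := (Ico (u + M) (2 * n)).filter (fun j => ((a j : ℤ) : ZMod p) = r) with hF
  rcases F.eq_empty_or_nonempty with he | hne
  · rw [he] at hr
    simp only [Finset.card_empty, Nat.cast_zero] at hr
    have h1 := wv_mono ho hp (show u + M ≤ 2 * n by omega)
    linarith
  have hj := F.max'_mem hne
  set j := F.max' hne with hjdef
  rw [hF, Finset.mem_filter, Finset.mem_Ico] at hj
  have h1 : wv p a (u + M) ≤ ∑ i ∈ range (u + M), vd p (a j) (a i) :=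
    wv_le_of_notMem ho hp _ (ord_mem ho j) (ord_notMem ho hj.1.1)
  have h2 : ((F.erase j).card : ℝ) ≤ ∑ i ∈ Ico (u + M) j, vd p (a j) (a i) := by
    have h3 : F.erase j ⊆ Ico (u + M) j := by
      intro i hi
      rw [Finset.mem_erase] at hi
      have h4 := Finset.le_max' F i hi.2
      have h5 := hi.2
      rw [hF, Finset.mem_filter, Finset.mem_Ico] at h5
      rw [Finset.mem_Ico]
      refine ⟨h5.1.1, lt_of_le_of_ne h4 hi.1⟩
    calc ((F.erase j).card : ℝ) = ∑ i ∈ F.erase j, (1 : ℝ) := by simp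
      _ ≤ ∑ i ∈ F.erase j, vd p (a j) (a i) := by
          refine Finset.sum_le_sum fun i hi => ?_
          rw [Finset.mem_erase] at hi
          have h5 := hi.2
          rw [hF, Finset.mem_filter] at h5
          refine one_le_vd hp (fun h => hi.1 (hinj h).symm) ((hdvd _ _).mp ?_)
          rw [h5.2, hj.2]
      _ ≤ ∑ i ∈ Ico (u + M) j, vd p (a j) (a i) :=
          Finset.sum_le_sum_of_subset_of_nonneg h3 fun i _ _ => vd_nonneg _ _ _
  have h3 : wv p a j = ∑ i ∈ range (u + M), vd p (a j) (a i) +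
      ∑ i ∈ Ico (u + M) j, vd p (a j) (a i) := by
    rw [Finset.sum_range_add_sum_Ico _ hj.1.1]
    rfl
  have h4 := wv_mono ho hp (show j ≤ 2 * n by omega)
  have h5 : ((F.erase j).card : ℝ) = F.card - 1 := by
    rw [Finset.card_erase_of_mem (F.max'_mem hne), Nat.cast_sub (Finset.card_pos.mpr hne)]
    simp
  linarith

end

/-- at a large good scale `n` is large and `log x` is at most a constant times `log n` -/
theorem large_n {S : Set ℤ} {a : ℕ → ℤ} {c B : ℝ} {C₂ : ℕ} (hDat : Dat S a c B C₂) (ε : ℝ)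
    (K : ℕ) : ∃ x₁ : ℕ, ∀ x N n : ℕ, x₁ ≤ x → Sc S ε x N n →
      K ≤ n ∧ 1 ≤ x ∧ c * Real.log x ≤ 2 * Real.log n := by
  obtain ⟨x₀, hx₀⟩ := hDat.grow
  have hc := hDat.c_pos
  have ht : Filter.Tendsto (fun x : ℕ => (x : ℝ) ^ c) Filter.atTop Filter.atTop :=
    (tendsto_rpow_atTop hc).comp tendsto_natCast_atTop_atTop
  obtain ⟨x₂, hx₂⟩ := Filter.eventually_atTop.mp (ht.eventually_ge_atTop ((4 * (K + 5) : ℕ) : ℝ))
  refine ⟨max (max x₀ x₂) 1, fun x N n hx hsc => ?_⟩
  have h1 : x₀ ≤ x := (le_max_left _ _).trans ((le_max_left _ _).trans hx)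
  have h2 : x₂ ≤ x := (le_max_right _ _).trans ((le_max_left _ _).trans hx)
  have h3 : 1 ≤ x := (le_max_right _ _).trans hx
  have h4 := hx₀ x h1
  rw [hsc.card] at h4
  have h5 := hx₂ x h2
  have h6 : ((4 * (K + 5) : ℕ) : ℝ) ≤ (N : ℝ) := h5.trans h4
  have h7 : 4 * (K + 5) ≤ N := by exact_mod_cast h6
  have h8 := hsc.high
  have h9 : K + 4 ≤ n := by omega
  refine ⟨by omega, h3, ?_⟩
  rcases Nat.lt_or_ge n 5 with hn | hn
  · have hn4 : n = 4 := by omega
    have hK : K = 0 := by omega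
    subst hn4
    have hN : N < 20 := by omega
    omega
  have h10 : (N : ℝ) ≤ (n : ℝ) ^ 2 := by
    have : N ≤ n ^ 2 := by nlinarith
    exact_mod_cast this
  have hx0 : (0 : ℝ) < x := by exact_mod_cast h3
  have h11 : Real.log ((x : ℝ) ^ c) ≤ Real.log ((n : ℝ) ^ 2) :=
    Real.log_le_log (Real.rpow_pos_of_pos hx0 c) (h4.trans h10)
  rw [Real.log_rpow hx0, Real.log_pow] at h11
  exact_mod_cast h11

/-- eventually in `n` -/
theorem large_log {B : ℝ} (hB : 1 ≤ B) (C₂ : ℕ) : ∃ K : ℕ, ∀ n : ℕ, K ≤ n →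
    Real.log (2 * B * (2 * (n : ℝ) + 2) ^ C₂) ≤ ((C₂ : ℝ) + 1) * Real.log n := by
  have ht : Filter.Tendsto (fun n : ℕ => (n : ℝ)) Filter.atTop Filter.atTop :=
    tendsto_natCast_atTop_atTop
  obtain ⟨K, hK⟩ := Filter.eventually_atTop.mp (ht.eventually_ge_atTop (2 * B * 4 ^ C₂))
  refine ⟨max K 1, fun n hn => ?_⟩
  have h1 := hK n ((le_max_left _ _).trans hn)
  have h2 : 1 ≤ n := (le_max_right _ _).trans hn
  have hn0 : (1 : ℝ) ≤ n := by exact_mod_cast h2
  have h3 : (2 * (n : ℝ) + 2) ^ C₂ ≤ (4 * (n : ℝ)) ^ C₂ :=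
    pow_le_pow_left₀ (by positivity) (by linarith) _
  have h4 : 2 * B * (2 * (n : ℝ) + 2) ^ C₂ ≤ (n : ℝ) ^ (C₂ + 1) := by
    calc 2 * B * (2 * (n : ℝ) + 2) ^ C₂ ≤ 2 * B * (4 * (n : ℝ)) ^ C₂ :=
          mul_le_mul_of_nonneg_left h3 (by linarith)
      _ = (2 * B * 4 ^ C₂) * (n : ℝ) ^ C₂ := by rw [mul_pow]; ring
      _ ≤ n * (n : ℝ) ^ C₂ := mul_le_mul_of_nonneg_right h1 (by positivity)
      _ = (n : ℝ) ^ (C₂ + 1) := by ring
  have h5 := Real.log_le_log (by positivity) h4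
  rw [Real.log_pow] at h5
  exact_mod_cast h5

/-- the distances between the first `2 n` terms -/
theorem ld_size {S : Set ℤ} {a : ℕ → ℤ} {c B : ℝ} {C₂ : ℕ} (hDat : Dat S a c B C₂) {n i j : ℕ}
    (hi : i < 2 * n + 1) (hj : j < 2 * n + 1) :
    ld (a i) (a j) ≤ Real.log (2 * B * (2 * (n : ℝ) + 2) ^ C₂) := by
  have hB := hDat.B_one
  have h1 := hDat.size i
  have h2 := hDat.size j
  have h3 : B * ((i : ℝ) + 2) ^ C₂ ≤ B * (2 * (n : ℝ) + 2) ^ C₂ := by
    refine mul_le_mul_of_nonneg_left (pow_le_pow_left₀ (by positivity) ?_ _) (by linarith)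
    have : (i : ℝ) ≤ 2 * n := by exact_mod_cast (by omega : i ≤ 2 * n)
    linarith
  have h4 : B * ((j : ℝ) + 2) ^ C₂ ≤ B * (2 * (n : ℝ) + 2) ^ C₂ := by
    refine mul_le_mul_of_nonneg_left (pow_le_pow_left₀ (by positivity) ?_ _) (by linarith)
    have : (j : ℝ) ≤ 2 * n := by exact_mod_cast (by omega : j ≤ 2 * n)
    linarith
  unfold ld
  by_cases h : a i - a j = 0
  · rw [h]
    simp only [Int.cast_zero, abs_zero, Real.log_zero]
    refine Real.log_nonneg ?_
    have : (1 : ℝ) ≤ (2 * (n : ℝ) + 2) ^ C₂ := one_le_pow₀ (by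
      have : (0 : ℝ) ≤ n := Nat.cast_nonneg n
      linarith)
    nlinarith
  refine Real.log_le_log (abs_pos.mpr (by exact_mod_cast h)) ?_
  push_cast
  have h5 := abs_sub (a i : ℝ) (a j : ℝ)
  linarith

theorem stmt_JB (hD : Stmt_DEF) : Stmt_JB := by
  intro S a c B C₂ hDat β hβ hβ1
  refine ⟨⌈((C₂ : ℝ) + 1) / β⌉₊, fun M hM => ?_⟩
  have hM0 : (1 : ℝ) ≤ M := by exact_mod_cast hM
  have hc := hDat.c_pos
  have hB := hDat.B_one
  refine ⟨min (1 / 100) ((β * c / (130 * M)) ^ 2), lt_min (by norm_num) (by positivity),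
    fun ε hε hε1 => ?_⟩
  have hε2 : ε ≤ 1 / 100 := hε1.trans (min_le_left _ _)
  have hε3 : Real.sqrt ε ≤ β * c / (130 * M) := by
    rw [Real.sqrt_le_left (by positivity)]
    exact hε1.trans (min_le_right _ _)
  obtain ⟨xD, hxD⟩ := hD S a c B C₂ hDat ε hε hε2
  obtain ⟨K₁, hK₁⟩ := large_log hB C₂
  -- a bound for the first terms
  obtain ⟨D, hD1⟩ : ∃ D : ℕ, ∀ h ≤ M, |a h| ≤ (D : ℤ) := by
    refine ⟨∑ h ∈ range (M + 1), (a h).natAbs, fun h hh => ?_⟩
    rw [Int.abs_eq_natAbs]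
    exact_mod_cast Finset.single_le_sum (f := fun h => (a h).natAbs) (fun _ _ => Nat.zero_le _)
      (Finset.mem_range.mpr (by omega : h < M + 1))
  have htn : Filter.Tendsto (fun n : ℕ => (n : ℝ) ^ β) Filter.atTop Filter.atTop :=
    (tendsto_rpow_atTop hβ).comp tendsto_natCast_atTop_atTop
  obtain ⟨K₂, hK₂⟩ := Filter.eventually_atTop.mp (htn.eventually_ge_atTop (2 * (D : ℝ) + 1))
  have htx : Filter.Tendsto (fun x : ℕ => (x : ℝ) ^ (1 - ε)) Filter.atTop Filter.atTop :=
    (tendsto_rpow_atTop (by linarith)).comp tendsto_natCast_atTop_atTop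
  obtain ⟨K₃, hK₃⟩ := Filter.eventually_atTop.mp (htx.eventually_ge_atTop (2 * (D : ℝ)))
  obtain ⟨xN, hxN⟩ := large_n hDat ε (max (max K₁ K₂) (2 * M + 2))
  refine ⟨max (max xD xN) K₃, fun x N n hx hsc p hp hpn u hun => ?_⟩
  have hxD' : xD ≤ x := (le_max_left _ _).trans ((le_max_left _ _).trans hx)
  have hxN' : xN ≤ x := (le_max_right _ _).trans ((le_max_left _ _).trans hx)
  have hxK : K₃ ≤ x := (le_max_right _ _).trans hx
  obtain ⟨hn, hx1, hlog⟩ := hxN x N n hxN' hsc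
  have hnK₁ : K₁ ≤ n := (le_max_left _ _).trans ((le_max_left _ _).trans hn)
  have hnK₂ : K₂ ≤ n := (le_max_right _ _).trans ((le_max_left _ _).trans hn)
  have hnM : 2 * M + 2 ≤ n := (le_max_right _ _).trans hn
  have hn1 : (1 : ℝ) < n := by exact_mod_cast (by omega : 1 < n)
  have hlogn : 0 < Real.log n := Real.log_pos hn1
  have hpn' : (n : ℝ) ^ β < p := (Nat.floor_lt (by positivity)).mp hpn
  have hlogp : β * Real.log n ≤ Real.log p := by
    have h1 := Real.log_le_log (by positivity) hpn'.le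
    rwa [Real.log_rpow (by linarith)] at h1
  have hlogp0 : 0 < Real.log p := lt_of_lt_of_le (by positivity) hlogp
  by_cases hcase : ∃ j, u + M ≤ j ∧ j < 2 * n ∧ ∀ i ∈ Ico u (u + M), ¬ (p : ℤ) ∣ a j - a i
  · obtain ⟨j, hj1, hj2, hj3⟩ := hcase
    have h1 : wv p a (u + M) ≤ wv p a u + ((C₂ : ℝ) + 1) / β := by
      refine jb_core1 hDat.ord hp (Nat.le_add_right u M) hj1 hj3 (by positivity) fun i hi => ?_
      have hne : a j ≠ a i := by
        intro h
        have := ord_inj hDat.ord h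
        omega
      have h2 := vd_mul_log_le hp hne
      have h3 := ld_size hDat (n := n) (i := j) (j := i) (by omega) (by omega)
      have h4 := hK₁ n hnK₁
      rw [le_div_iff₀ hβ]
      have h5 : vd p (a j) (a i) * (β * Real.log n) ≤ ((C₂ : ℝ) + 1) * Real.log n := by
        calc vd p (a j) (a i) * (β * Real.log n) ≤ vd p (a j) (a i) * Real.log p :=
              mul_le_mul_of_nonneg_left hlogp (vd_nonneg _ _ _)
          _ ≤ _ := h2.trans (h3.trans h4)
      have h6 : vd p (a j) (a i) * β * Real.log n ≤ ((C₂ : ℝ) + 1) * Real.log n := by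
        linarith
      exact le_of_mul_le_mul_right h6 hlogn
    rw [wv_eq_nv, wv_eq_nv] at h1
    have h2 : (nv p a (u + M) : ℝ) ≤ ((nv p a u + ⌈((C₂ : ℝ) + 1) / β⌉₊ : ℕ) : ℝ) := by
      push_cast
      have := Nat.le_ceil (((C₂ : ℝ) + 1) / β)
      linarith
    exact_mod_cast h2
  · exfalso
    push Not at hcase
    have hall : ∀ j, u + M ≤ j → j < 2 * n → ∃ i ∈ Ico u (u + M), (p : ℤ) ∣ a j - a i := by
      intro j h1 h2
      obtain ⟨i, hi, hi'⟩ := hcase j h1 h2
      exact ⟨i, hi, hi'⟩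
    have hd : ∀ h₁ h₂, h₁ < h₂ → h₂ ≤ M → ¬ (p : ℤ) ∣ a h₂ - a h₁ := by
      intro h₁ h₂ h12 h2M hdvd
      have hne : a h₂ - a h₁ ≠ 0 := by
        intro h
        have := ord_inj hDat.ord (sub_eq_zero.mp h)
        omega
      have h1 : (p : ℤ) ≤ |a h₂ - a h₁| :=
        Int.le_of_dvd (abs_pos.mpr hne) ((dvd_abs _ _).mpr hdvd)
      have h2 : |a h₂ - a h₁| ≤ 2 * (D : ℤ) := by
        have := abs_sub (a h₂) (a h₁)
        have := hD1 h₂ h2M
        have := hD1 h₁ (by omega)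
        omega
      have h3 : (p : ℝ) ≤ 2 * (D : ℝ) := by exact_mod_cast h1.trans h2
      have h4 := hK₂ n hnK₂
      linarith
    obtain ⟨h, hhM, hh⟩ := jb_core2 hDat.ord hp hun hM hall hd
    have hz : (|a h| : ℝ) ≤ (x : ℝ) ^ (1 - ε) / 2 := by
      have h1 : (|a h| : ℝ) ≤ D := by exact_mod_cast hD1 h hhM
      have h2 := hK₃ x hxK
      linarith
    have h1 := hxD x N n hxD' hsc (2 * n) (by omega) le_rfl (a h)
      (mem_A.mpr ⟨h, by omega, rfl⟩) hz {p} (by simpa using hp)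
    rw [Finset.sum_singleton] at h1
    have h2 : β * Real.log n * ((n : ℝ) / M - 1) ≤ 30 * Real.sqrt ε * n * Real.log x := by
      have h3 : (0 : ℝ) ≤ (n : ℝ) / M - 1 := by
        rw [sub_nonneg, le_div_iff₀ (by linarith)]
        have : (M : ℝ) ≤ n := by exact_mod_cast (by omega : M ≤ n)
        linarith
      calc β * Real.log n * ((n : ℝ) / M - 1) ≤ Real.log p * ((n : ℝ) / M - 1) :=
            mul_le_mul_of_nonneg_right hlogp h3
        _ ≤ Real.log p * (wv p a (2 * n) - ∑ y ∈ (A a (2 * n)).erase (a h), vd p (a h) y) :=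
            mul_le_mul_of_nonneg_left hh hlogp0.le
        _ ≤ _ := h1
    have h4 : (n : ℝ) / (2 * M) ≤ (n : ℝ) / M - 1 := by
      have h5 : (2 : ℝ) * M ≤ n := by exact_mod_cast (by omega : 2 * M ≤ n)
      have h6 : (n : ℝ) / M - 1 - (n : ℝ) / (2 * M) = ((n : ℝ) - 2 * M) / (2 * M) := by
        field_simp
        ring
      have h7 : 0 ≤ ((n : ℝ) - 2 * M) / (2 * M) := div_nonneg (by linarith) (by positivity)
      linarith
    have h5 : Real.log x ≤ 2 / c * Real.log n := by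
      rw [div_mul_eq_mul_div, le_div_iff₀ hc]
      linarith
    have h6 : β * Real.log n * ((n : ℝ) / (2 * M)) ≤
        30 * (β * c / (130 * M)) * n * (2 / c * Real.log n) := by
      calc β * Real.log n * ((n : ℝ) / (2 * M)) ≤ β * Real.log n * ((n : ℝ) / M - 1) :=
            mul_le_mul_of_nonneg_left h4 (by positivity)
        _ ≤ 30 * Real.sqrt ε * n * Real.log x := h2
        _ ≤ 30 * (β * c / (130 * M)) * n * (2 / c * Real.log n) := by
            have hlx : 0 ≤ Real.log x := Real.log_nonneg (by exact_mod_cast hx1)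
            refine mul_le_mul ?_ h5 hlx (by positivity)
            refine mul_le_mul_of_nonneg_right ?_ (by positivity)
            linarith
    have h7 : 30 * (β * c / (130 * M)) * n * (2 / c * Real.log n) =
        60 / 130 * (β * Real.log n * ((n : ℝ) / M)) := by
      field_simp
      norm_num
    have h8 : β * Real.log n * ((n : ℝ) / (2 * M)) =
        1 / 2 * (β * Real.log n * ((n : ℝ) / M)) := by
      field_simp
    rw [h7, h8] at h6
    have h9 : 0 < β * Real.log n * ((n : ℝ) / M) := by positivity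
    linarith

end Pool.Agent.Work.MP_b29d7f_sep
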