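import Pool.Agent.Work.MP_b29d7f_sep.Interface

/-!
# Block PADIC: F1, F2 and monotonicity of `w_p`
-/

namespace Pool.Agent.Work.MP_b29d7f_sep

open Finset
open Pool.Agent.Work.MP_b29d7f_nt (IsPOrdering HasSimultaneousOrdering PS vd ld tv vd_comm
  vd_nonneg PS_insert injective_of_ordering)
open Pool.Agent.Work.MP_b29d7f_half (Ord A wv lD K DK mem_A sum_A card_A A_mono
  wv_le_of_notMem stmt_VDM)

theorem stmt_PADIC : Stmt_PADIC := by
  classical
  intro S a ho p hp
  have ha := ho.ord p hp
  have hinj : Function.Injective a := injective_of_ordering ho.inf hp ha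
  have hmem : ∀ k, a k ∈ S := ha.1
  have hAS : ∀ n, ∀ y ∈ A a n, y ∈ S := by
    intro n y hy
    obtain ⟨i, _, rfl⟩ := mem_A.mp hy
    exact hmem i
  have hnA : ∀ n, a n ∉ A a n := by
    intro n h
    obtain ⟨i, hi, h⟩ := mem_A.mp h
    have := hinj h
    omega
  have hsucc : ∀ n, A a (n + 1) = insert (a n) (A a n) := by
    intro n
    unfold A
    rw [Finset.range_add_one, Finset.image_insert]
  refine ⟨?_, ?_, ?_⟩
  · intro n s hs hsn
    rw [sum_A _ hinj]
    exact wv_le_of_notMem ho hp n hs hsn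
  · intro m z hz
    have hcard : ((A a (m + 1)).erase z).card = m := by
      rw [Finset.card_erase_of_mem hz, card_A hinj]
      rfl
    have hsub : (((A a (m + 1)).erase z : Finset ℤ) : Set ℤ) ⊆ S := by
      intro y hy
      rw [Finset.mem_coe] at hy
      exact hAS _ y (Finset.mem_of_mem_erase hy)
    have e1 := stmt_VDM S a ho p hp _ hsub
    rw [hcard] at e1
    have e2 : PS (vd p) (A a (m + 1)) =
        PS (vd p) ((A a (m + 1)).erase z) + ∑ y ∈ (A a (m + 1)).erase z, vd p z y := by
      rw [← PS_insert (vd p) (vd_comm p) _ z (Finset.notMem_erase z _), Finset.insert_erase hz]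
    have e3 : PS (vd p) (A a (m + 1)) = PS (vd p) (A a m) + wv p a m := by
      rw [hsucc, PS_insert (vd p) (vd_comm p) _ _ (hnA m), sum_A _ hinj]
      rfl
    linarith
  · refine monotone_nat_of_le_succ fun n => ?_
    have hn : a (n + 1) ∉ A a n := fun h => hnA (n + 1) (A_mono (Nat.le_succ n) h)
    have h1 : wv p a n ≤ wv p a (n + 1) := by
      refine (wv_le_of_notMem ho hp n (hmem (n + 1)) hn).trans ?_
      unfold wv
      rw [Finset.sum_range_succ]
      linarith [vd_nonneg p (a (n + 1)) (a n)]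
    rw [wv_eq_nv, wv_eq_nv] at h1
    exact_mod_cast h1

end Pool.Agent.Work.MP_b29d7f_sep
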