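import Pool.Agent.Work.MP_b29d7f_sep.Interface
import Pool.Agent.Work.MP_b29d7f_nt.Main

/-!
# Block PROD: the product formula for windows and factorials
-/

namespace Pool.Agent.Work.MP_b29d7f_sep

open Finset
open Pool.Agent.Work.MP_b29d7f_nt (IsPOrdering HasSimultaneousOrdering PS vd ld tv)
open Pool.Agent.Work.MP_b29d7f_half (Ord A wv lD K DK)

theorem prod_inj {S : Set ℤ} {a : ℕ → ℤ} (h : Ord S a) {i j : ℕ} (hij : i < j) :
    a j - a i ≠ 0 := by
  obtain ⟨hinj, -⟩ := Pool.Agent.Work.MP_b29d7f_half.stmt_ORD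
    Pool.Agent.Work.MP_b29d7f_half.stmt_VDM S a h
  intro h0
  have := hinj (sub_eq_zero.mp h0)
  omega

theorem stmt_PROD : Stmt_PROD := by
  classical
  intro S a h n
  set P : Finset ℕ := (Finset.range (n + 1) ×ˢ Finset.range (n + 1)).biUnion
    (fun x => (a x.1 - a x.2).natAbs.primeFactors) with hP
  have hpr : ∀ p ∈ P, p.Prime := by
    intro p hp
    rw [hP, Finset.mem_biUnion] at hp
    obtain ⟨x, -, hx⟩ := hp
    exact Nat.prime_of_mem_primeFactors hx
  have key : ∀ i j : ℕ, i < j → j ≤ n →
      ld (a j) (a i) = ∑ p ∈ P, Real.log p * vd p (a j) (a i) := by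
    intro i j hij hj
    have hne := prod_inj h hij
    unfold ld vd
    rw [Pool.Agent.Work.MP_b29d7f_nt.log_eq_sum (a j - a i) hne P hpr]
    · refine Finset.sum_congr rfl fun p _ => ?_
      ring
    · intro p hp hm
      rw [hP, Finset.mem_biUnion]
      refine ⟨(j, i), ?_, ?_⟩
      · simp only [Finset.mem_product, Finset.mem_range]
        omega
      · simp only
        rw [Nat.mem_primeFactors]
        refine ⟨hp, ?_, Int.natAbs_ne_zero.mpr hne⟩
        have hd : (p : ℤ) ∣ a j - a i := by
          by_contra hnd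
          exact hm (multiplicity_eq_zero.mpr hnd)
        exact Int.natCast_dvd.mp hd
  refine ⟨P, hpr, ?_, ?_⟩
  · intro k hk
    unfold lD wv
    rw [Finset.sum_congr rfl fun i hi => key i k (Finset.mem_range.mp hi) hk, Finset.sum_comm]
    refine Finset.sum_congr rfl fun p _ => ?_
    rw [Finset.mul_sum]
  · intro u m hum
    unfold EL EW
    rw [Finset.sum_congr rfl fun j hj => Finset.sum_congr rfl fun i hi =>
      key i j (Finset.mem_Ico.mp hi).2 (by have := (Finset.mem_Ico.mp hj).2; omega)]
    rw [Finset.sum_congr rfl fun j _ => Finset.sum_comm, Finset.sum_comm]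
    refine Finset.sum_congr rfl fun p _ => ?_
    rw [Finset.mul_sum]
    refine Finset.sum_congr rfl fun j _ => ?_
    rw [Finset.mul_sum]

end Pool.Agent.Work.MP_b29d7f_sep
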