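import Pool.Agent.Work.MP_b29d7f_half.Tools
import Pool.Agent.Work.MP_b29d7f_half.B_VDM
import Pool.Agent.Work.MP_b29d7f_half.B_ORD
import Pool.Agent.Work.MP_b29d7f_half.B_KSUM
import Pool.Agent.Work.MP_b29d7f_half.B_CS

/-!
# Gap rule: definitions (note 2574)
-/

namespace Pool.Agent.Work.MP_b29d7f_sep

open Finset
open Pool.Agent.Work.MP_b29d7f_nt (IsPOrdering HasSimultaneousOrdering PS vd ld tv)
open Pool.Agent.Work.MP_b29d7f_half (Ord A wv lD K DK)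

/-- the elements of `S` in `[u, v]` -/
noncomputable def St (S : Set ℤ) (u v : ℤ) : Finset ℤ := by
  classical
  exact (Finset.Icc u v).filter (· ∈ S)

theorem mem_St {S : Set ℤ} {u v s : ℤ} : s ∈ St S u v ↔ (u ≤ s ∧ s ≤ v) ∧ s ∈ S := by
  unfold St
  simp

/-- the number of elements of `S` in `[-x, x]` -/
noncomputable def Nn (S : Set ℤ) (x : ℕ) : ℕ := (St S (-(x : ℤ)) x).card

/-- `S` has at least `x ^ c` elements in `[-x, x]` for all large `x` -/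
def PolyGrowth (S : Set ℤ) : Prop :=
  ∃ c : ℝ, 0 < c ∧ ∃ x₀ : ℕ, ∀ x : ℕ, x₀ ≤ x → (x : ℝ) ^ c ≤ (Nn S x : ℝ)

/-- the distance from `s` to the `b`-th nearest element of `S \ {s}` -/
noncomputable def gap (S : Set ℤ) (b : ℕ) (s : ℤ) : ℕ :=
  sInf {r : ℕ | b ≤ ((St S (s - r) (s + r)).erase s).card}

/-- hypothesis of the proof by contradiction: on geometric average the `b`-th nearest neighbour of
`s` is at distance at least `|s| ^ γ` -/
def Sep (S : Set ℤ) (b : ℕ) (γ : ℝ) (n₀ : ℕ) : Prop :=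
  ∀ u v : ℤ, u ≤ 0 → 0 ≤ v → n₀ ≤ (St S u v).card →
    γ * ∑ s ∈ St S u v, Real.log |(s : ℝ)| ≤ ∑ s ∈ St S u v, Real.log (gap S b s)

/-- the valuation of the `n`-th generalized factorial as a natural number -/
noncomputable def nv (p : ℕ) (a : ℕ → ℤ) (n : ℕ) : ℕ :=
  ∑ i ∈ range n, multiplicity (p : ℤ) (a n - a i)

theorem wv_eq_nv (p : ℕ) (a : ℕ → ℤ) (n : ℕ) : wv p a n = (nv p a n : ℝ) := by
  unfold wv nv vd
  push_cast
  rfl

/-- the `p`-adic energy of the window of indices `[u, u + m]` -/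
noncomputable def EW (p : ℕ) (a : ℕ → ℤ) (u m : ℕ) : ℝ :=
  ∑ j ∈ Ico u (u + m + 1), ∑ i ∈ Ico u j, vd p (a j) (a i)

/-- the logarithmic energy of the window of indices `[u, u + m]` -/
noncomputable def EL (a : ℕ → ℤ) (u m : ℕ) : ℝ :=
  ∑ j ∈ Ico u (u + m + 1), ∑ i ∈ Ico u j, ld (a j) (a i)

/-- weighted sum over all windows of length at most `M` -/
noncomputable def WS (E : ℕ → ℕ → ℝ) (n M : ℕ) : ℝ :=
  ∑ m ∈ Icc 1 M, (1 / (m : ℝ) ^ 3) * ∑ u ∈ range (n - m + 1), E u m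

/-- total weight -/
noncomputable def Q1 (M : ℕ) : ℝ := ∑ m ∈ Icc 1 M, ((m : ℝ) + 1) / (2 * (m : ℝ) ^ 2)

/-- the weight of a pair of indices at distance `d` -/
noncomputable def phi (M d : ℕ) : ℝ := ∑ m ∈ Icc d M, ((m : ℝ) + 1 - d) / (m : ℝ) ^ 3

/-- the standing data: a simultaneous ordering of a set of polynomial growth, and the bound SIZE -/
structure Dat (S : Set ℤ) (a : ℕ → ℤ) (c B : ℝ) (C₂ : ℕ) : Prop where
  ord : Ord S a
  c_pos : 0 < c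
  c_le : c ≤ 1
  grow : ∃ x₀ : ℕ, ∀ x : ℕ, x₀ ≤ x → (x : ℝ) ^ c ≤ (Nn S x : ℝ)
  B_one : 1 ≤ B
  C_one : 1 ≤ C₂
  size : ∀ j : ℕ, (|a j| : ℝ) ≤ B * ((j : ℝ) + 2) ^ C₂

/-- a good scale `x`, with `N = |S ∩ [-x, x]|` and `n = ⌊N / 4⌋` -/
structure Sc (S : Set ℤ) (ε : ℝ) (x N n : ℕ) : Prop where
  card : Nn S x = N
  good : (Nn S ⌊(x : ℝ) ^ (1 - ε)⌋₊ : ℝ) ≤ ε * N
  low : 4 * n ≤ N
  high : N ≤ 4 * n + 3

end Pool.Agent.Work.MP_b29d7f_sep
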