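import Pool.Agent.Work.MP_b29d7f_sep.Interface

/-!
# Gap rule: block MINP
-/

namespace Pool.Agent.Work.MP_b29d7f_sep

open Finset

theorem stmt_MINP : Stmt_MINP := by
  intro om u m E h1 h2
  have hD : 0 ≤ ∑ g ∈ Ico u (u + m), ∑ g' ∈ Ico (g + 1) (u + m),
      (om g : ℝ) * om g' * ((g' : ℝ) - g) := by
    refine sum_nonneg fun g _ => sum_nonneg fun g' hg' => ?_
    have h3 : g + 1 ≤ g' := (mem_Ico.mp hg').1
    have h4 : ((g : ℝ) + 1) ≤ g' := by exact_mod_cast h3
    have h5 : (0 : ℝ) ≤ (om g : ℝ) * om g' := by positivity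
    exact mul_nonneg h5 (by linarith)
  by_cases hg : ∀ g ∈ Ico u (u + m), 2 * u + m < 2 * g + 1 → om g = 0
  · have h3 : ∑ g ∈ Ico u (u + m), (om g : ℝ) * min ((u : ℝ) + m - g) ((g : ℝ) + 1 - u) =
        ∑ g ∈ Ico u (u + m), (om g : ℝ) * ((g : ℝ) + 1 - u) := by
      refine sum_congr rfl fun g hgI => ?_
      by_cases h4 : 2 * u + m < 2 * g + 1
      · rw [hg g hgI h4]
        simp
      · have h5 : (2 * (g : ℝ) + 1) ≤ 2 * u + m := by
          have : 2 * g + 1 ≤ 2 * u + m := by omega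
          exact_mod_cast this
        rw [min_eq_right (by linarith)]
    linarith
  by_cases hf : ∀ g ∈ Ico u (u + m), 2 * g + 1 < 2 * u + m → om g = 0
  · have h3 : ∑ g ∈ Ico u (u + m), (om g : ℝ) * min ((u : ℝ) + m - g) ((g : ℝ) + 1 - u) =
        ∑ g ∈ Ico u (u + m), (om g : ℝ) * ((u : ℝ) + m - g) := by
      refine sum_congr rfl fun g hgI => ?_
      by_cases h4 : 2 * g + 1 < 2 * u + m
      · rw [hf g hgI h4]
        simp
      · have h5 : (2 * (u : ℝ) + m) ≤ 2 * g + 1 := by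
          have : 2 * u + m ≤ 2 * g + 1 := by omega
          exact_mod_cast this
        rw [min_eq_left (by linarith)]
    linarith
  push Not at hg hf
  obtain ⟨g1, hg1, hg1', hg1o⟩ := hg
  obtain ⟨g0, hg0, hg0', hg0o⟩ := hf
  set F := (Ico u (u + m)).filter (fun g => 2 * g + 1 < 2 * u + m) with hFdef
  set G := (Ico u (u + m)).filter (fun g => 2 * u + m < 2 * g + 1) with hGdef
  have hsF : (1 : ℝ) ≤ ∑ g ∈ F, (om g : ℝ) := by
    have h3 : g0 ∈ F := mem_filter.mpr ⟨hg0, hg0'⟩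
    have h4 : (om g0 : ℝ) ≤ ∑ g ∈ F, (om g : ℝ) :=
      single_le_sum (f := fun g => (om g : ℝ)) (fun i _ => Nat.cast_nonneg _) h3
    have h5 : (1 : ℝ) ≤ (om g0 : ℝ) := by
      exact_mod_cast Nat.one_le_iff_ne_zero.mpr hg0o
    linarith
  have hsG : (1 : ℝ) ≤ ∑ g ∈ G, (om g : ℝ) := by
    have h3 : g1 ∈ G := mem_filter.mpr ⟨hg1, hg1'⟩
    have h4 : (om g1 : ℝ) ≤ ∑ g ∈ G, (om g : ℝ) :=
      single_le_sum (f := fun g => (om g : ℝ)) (fun i _ => Nat.cast_nonneg _) h3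
    have h5 : (1 : ℝ) ≤ (om g1 : ℝ) := by
      exact_mod_cast Nat.one_le_iff_ne_zero.mpr hg1o
    linarith
  -- the contributions of the two sides
  set PF := ∑ g ∈ F, (om g : ℝ) * ((2 * (u : ℝ) + m - 1 - 2 * g) / 2) with hPF
  set PG := ∑ g ∈ G, (om g : ℝ) * ((2 * (g : ℝ) + 1 - 2 * u - m) / 2) with hPG
  have hPF0 : 0 ≤ PF := by
    refine sum_nonneg fun g hgF => ?_
    have h3 : 2 * g + 1 < 2 * u + m := (mem_filter.mp hgF).2
    have h4 : (2 * (g : ℝ) + 1) < 2 * u + m := by exact_mod_cast h3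
    exact mul_nonneg (Nat.cast_nonneg _) (by linarith)
  have hPG0 : 0 ≤ PG := by
    refine sum_nonneg fun g hgG => ?_
    have h3 : 2 * u + m < 2 * g + 1 := (mem_filter.mp hgG).2
    have h4 : (2 * (u : ℝ) + m) < 2 * g + 1 := by exact_mod_cast h3
    exact mul_nonneg (Nat.cast_nonneg _) (by linarith)
  have hprod : ∑ g ∈ F, ∑ g' ∈ G, (om g : ℝ) * om g' * ((g' : ℝ) - g) =
      PF * (∑ g ∈ G, (om g : ℝ)) + (∑ g ∈ F, (om g : ℝ)) * PG := by
    rw [hPF, hPG, sum_mul_sum, sum_mul_sum, ← sum_add_distrib]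
    refine sum_congr rfl fun g _ => ?_
    rw [← sum_add_distrib]
    refine sum_congr rfl fun g' _ => ?_
    ring
  have hle : ∑ g ∈ F, ∑ g' ∈ G, (om g : ℝ) * om g' * ((g' : ℝ) - g) ≤
      ∑ g ∈ Ico u (u + m), ∑ g' ∈ Ico (g + 1) (u + m), (om g : ℝ) * om g' * ((g' : ℝ) - g) := by
    calc ∑ g ∈ F, ∑ g' ∈ G, (om g : ℝ) * om g' * ((g' : ℝ) - g)
        ≤ ∑ g ∈ F, ∑ g' ∈ Ico (g + 1) (u + m), (om g : ℝ) * om g' * ((g' : ℝ) - g) := by
          refine sum_le_sum fun g hgF => ?_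
          refine sum_le_sum_of_subset_of_nonneg ?_ ?_
          · intro g' hg'
            have h3 := (mem_filter.mp hgF).2
            have h4 := (mem_filter.mp hg').2
            have h5 := mem_Ico.mp (mem_filter.mp hg').1
            exact mem_Ico.mpr ⟨by omega, h5.2⟩
          · intro g' hg' _
            have h3 : g + 1 ≤ g' := (mem_Ico.mp hg').1
            have h4 : ((g : ℝ) + 1) ≤ g' := by exact_mod_cast h3
            have h5 : (0 : ℝ) ≤ (om g : ℝ) * om g' := by positivity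
            exact mul_nonneg h5 (by linarith)
      _ ≤ ∑ g ∈ Ico u (u + m), ∑ g' ∈ Ico (g + 1) (u + m),
            (om g : ℝ) * om g' * ((g' : ℝ) - g) := by
          refine sum_le_sum_of_subset_of_nonneg (filter_subset _ _) ?_
          intro g _ _
          refine sum_nonneg fun g' hg' => ?_
          have h3 : g + 1 ≤ g' := (mem_Ico.mp hg').1
          have h4 : ((g : ℝ) + 1) ≤ g' := by exact_mod_cast h3
          have h5 : (0 : ℝ) ≤ (om g : ℝ) * om g' := by positivity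
          exact mul_nonneg h5 (by linarith)
  have h3 : PF ≤ PF * (∑ g ∈ G, (om g : ℝ)) := le_mul_of_one_le_right hPF0 hsG
  have h4 : PG ≤ (∑ g ∈ F, (om g : ℝ)) * PG := le_mul_of_one_le_left hPG0 hsF
  have hid : (∑ g ∈ Ico u (u + m), (om g : ℝ) * ((u : ℝ) + m - g) +
      ∑ g ∈ Ico u (u + m), (om g : ℝ) * ((g : ℝ) + 1 - u)) / 2 =
      ∑ g ∈ Ico u (u + m), (om g : ℝ) * min ((u : ℝ) + m - g) ((g : ℝ) + 1 - u) + PF + PG := by
    rw [hPF, hPG, hFdef, hGdef, sum_filter, sum_filter, ← sum_add_distrib, ← sum_add_distrib,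
      ← sum_add_distrib, sum_div]
    refine sum_congr rfl fun g _ => ?_
    by_cases h5 : 2 * g + 1 < 2 * u + m
    · have h6 : ¬ 2 * u + m < 2 * g + 1 := by omega
      have h7 : (2 * (g : ℝ) + 1) < 2 * u + m := by exact_mod_cast h5
      rw [if_pos h5, if_neg h6, min_eq_right (by linarith)]
      ring
    · by_cases h6 : 2 * u + m < 2 * g + 1
      · have h7 : (2 * (u : ℝ) + m) < 2 * g + 1 := by exact_mod_cast h6
        rw [if_neg h5, if_pos h6, min_eq_left (by linarith)]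
        ring
      · have h7 : 2 * g + 1 = 2 * u + m := by omega
        have h8 : (2 * (g : ℝ) + 1) = 2 * u + m := by exact_mod_cast h7
        rw [if_neg h5, if_neg h6, min_eq_left (by linarith)]
        have h9 : (m : ℝ) = 2 * g + 1 - 2 * u := by linarith
        rw [h9]
        ring
  linarith

end Pool.Agent.Work.MP_b29d7f_sep
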