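import Pool.Agent.Work.MP_b29d7f_sep.Interface

/-!
# Block WINDOW: the two bounds for the `p`-adic energy of a window
-/

namespace Pool.Agent.Work.MP_b29d7f_sep

open Finset
open Pool.Agent.Work.MP_b29d7f_nt (IsPOrdering HasSimultaneousOrdering PS vd ld tv vd_comm
  vd_nonneg PS_insert injective_of_ordering)
open Pool.Agent.Work.MP_b29d7f_half (Ord A wv lD K DK mem_A sum_A card_A A_mono)

/-- summation by parts, counting from the left -/
theorem sum_jumps_left (w : ℕ → ℝ) (u m : ℕ) :
    ∑ g ∈ Ico u (u + m), (w (g + 1) - w g) * ((u : ℝ) + m - g) =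
      ∑ j ∈ Ico u (u + m + 1), (w j - w u) := by
  induction m with
  | zero => simp
  | succ m ih =>
    have e : u + (m + 1) = (u + m) + 1 := by ring
    have e2 : ∑ g ∈ Ico u (u + m), (w (g + 1) - w g) * ((u : ℝ) + ((m + 1 : ℕ) : ℝ) - g) =
        ∑ g ∈ Ico u (u + m), (w (g + 1) - w g) * ((u : ℝ) + m - g) +
          ∑ g ∈ Ico u (u + m), (w (g + 1) - w g) := by
      rw [← Finset.sum_add_distrib]
      refine Finset.sum_congr rfl fun g _ => ?_
      push_cast
      ring
    have e3 : ∑ g ∈ Ico u (u + m), (w (g + 1) - w g) = w (u + m) - w u :=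
      Finset.sum_Ico_sub w (Nat.le_add_right u m)
    rw [e, Finset.sum_Ico_succ_top (by omega), Finset.sum_Ico_succ_top (by omega), e2, e3, ih]
    push_cast
    ring

/-- summation by parts, counting from the right -/
theorem sum_jumps_right (w : ℕ → ℝ) (u m : ℕ) :
    ∑ g ∈ Ico u (u + m), (w (g + 1) - w g) * ((g : ℝ) + 1 - u) =
      ∑ i ∈ Ico u (u + m), (w (u + m) - w i) := by
  induction m with
  | zero => simp
  | succ m ih =>
    have e : u + (m + 1) = (u + m) + 1 := by ring
    have e2 : ∑ i ∈ Ico u (u + m), (w (u + m + 1) - w i) =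
        ∑ i ∈ Ico u (u + m), (w (u + m) - w i) + m * (w (u + m + 1) - w (u + m)) := by
      rw [show (m : ℝ) * (w (u + m + 1) - w (u + m)) =
          ∑ i ∈ Ico u (u + m), (w (u + m + 1) - w (u + m)) by
        rw [Finset.sum_const, Nat.card_Ico, nsmul_eq_mul]
        congr 2
        omega]
      rw [← Finset.sum_add_distrib]
      refine Finset.sum_congr rfl fun g _ => ?_
      ring
    rw [e, Finset.sum_Ico_succ_top (by omega), Finset.sum_Ico_succ_top (by omega), e2, ih]
    push_cast
    ring

theorem stmt_WINDOW (h1 : Stmt_PADIC) : Stmt_WINDOW := by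
  classical
  intro S a ho p hp u m
  obtain ⟨hF1, hF2, -⟩ := h1 S a ho p hp
  have ha := ho.ord p hp
  have hinj : Function.Injective a := injective_of_ordering ho.inf hp ha
  have hmem : ∀ k, a k ∈ S := ha.1
  have hnA : ∀ n k, n ≤ k → a k ∉ A a n := by
    intro n k hk h
    obtain ⟨i, hi, h⟩ := mem_A.mp h
    have := hinj h
    omega
  have hL := sum_jumps_left (fun n => (nv p a n : ℝ)) u m
  have hR := sum_jumps_right (fun n => (nv p a n : ℝ)) u m
  refine ⟨?_, ?_⟩
  · rw [hL]
    unfold EW
    refine Finset.sum_le_sum fun j hj => ?_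
    rw [Finset.mem_Ico] at hj
    have e1 : wv p a u ≤ ∑ i ∈ range u, vd p (a j) (a i) := by
      have := hF1 u (a j) (hmem j) (hnA u j hj.1)
      rwa [sum_A _ hinj] at this
    have e2 : wv p a j = ∑ i ∈ range u, vd p (a j) (a i) + ∑ i ∈ Ico u j, vd p (a j) (a i) := by
      unfold wv
      rw [Finset.sum_range_add_sum_Ico _ hj.1]
    have e3 := wv_eq_nv p a j
    have e4 := wv_eq_nv p a u
    rw [← e3, ← e4]
    linarith
  · rw [hR]
    have key : EW p a u m = ∑ i ∈ Ico u (u + m + 1), ∑ j ∈ Ico (i + 1) (u + m + 1),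
        vd p (a j) (a i) := by
      unfold EW
      rw [Finset.sum_sigma', Finset.sum_sigma']
      refine Finset.sum_bij' (fun x _ => ⟨x.2, x.1⟩) (fun x _ => ⟨x.2, x.1⟩) ?_ ?_ ?_ ?_ ?_
      · rintro ⟨x, y⟩ h
        simp only [Finset.mem_sigma, Finset.mem_Ico] at h ⊢
        omega
      · rintro ⟨x, y⟩ h
        simp only [Finset.mem_sigma, Finset.mem_Ico] at h ⊢
        omega
      · rintro ⟨x, y⟩ _
        rfl
      · rintro ⟨x, y⟩ _
        rfl
      · rintro ⟨x, y⟩ _
        rfl
    rw [key, Finset.sum_Ico_succ_top (by omega)]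
    have e0 : ∑ j ∈ Ico (u + m + 1) (u + m + 1), vd p (a j) (a (u + m)) = 0 := by simp
    rw [e0, add_zero]
    refine Finset.sum_le_sum fun i hi => ?_
    rw [Finset.mem_Ico] at hi
    have hiA : a i ∈ A a (u + m + 1) := mem_A.mpr ⟨i, by omega, rfl⟩
    have f1 := hF2 (u + m) (a i) hiA
    have f2 : ∑ y ∈ (A a (u + m + 1)).erase (a i), vd p (a i) y =
        ∑ j ∈ (range (u + m + 1)).erase i, vd p (a i) (a j) := by
      have : (A a (u + m + 1)).erase (a i) = ((range (u + m + 1)).erase i).image a := by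
        rw [Finset.image_erase hinj]
        rfl
      rw [this, Finset.sum_image (fun x _ y _ h => hinj h)]
    have f3 : (range (u + m + 1)).erase i = range i ∪ Ico (i + 1) (u + m + 1) := by
      ext x
      simp only [Finset.mem_erase, Finset.mem_range, Finset.mem_union, Finset.mem_Ico]
      omega
    have f4 : ∑ j ∈ (range (u + m + 1)).erase i, vd p (a i) (a j) =
        wv p a i + ∑ j ∈ Ico (i + 1) (u + m + 1), vd p (a j) (a i) := by
      rw [f3, Finset.sum_union]
      · unfold wv
        congr 1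
        exact Finset.sum_congr rfl fun j _ => vd_comm p _ _
      · rw [Finset.disjoint_left]
        intro x hx hx'
        rw [Finset.mem_range] at hx
        rw [Finset.mem_Ico] at hx'
        omega
    have e3 := wv_eq_nv p a i
    have e4 := wv_eq_nv p a (u + m)
    rw [← e3, ← e4]
    linarith

end Pool.Agent.Work.MP_b29d7f_sep
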