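import Pool.Agent.Work.MP_b29d7f_sep.Interface

/-!
# Block SIZE: polynomial bound for the ordering
-/

namespace Pool.Agent.Work.MP_b29d7f_sep

open Finset
open Pool.Agent.Work.MP_b29d7f_nt (IsPOrdering HasSimultaneousOrdering PS vd ld tv)
open Pool.Agent.Work.MP_b29d7f_half (Ord A wv lD K DK)

/-- energy of a set contained in `[-x, x]` -/
theorem size_PS (X : Finset ℤ) (x : ℕ) (hx : 1 ≤ x) (hX : ∀ y ∈ X, |y| ≤ (x : ℤ)) :
    2 * PS ld X ≤ (X.card : ℝ) ^ 2 * Real.log (2 * x) := by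
  rw [Pool.Agent.Work.MP_b29d7f_half.two_PS ld Pool.Agent.Work.MP_b29d7f_nt.ld_comm X]
  have hxr : (1 : ℝ) ≤ x := by exact_mod_cast hx
  have hlog : 0 ≤ Real.log (2 * x) := Real.log_nonneg (by linarith)
  have h1 : ∀ u ∈ X, ∑ v ∈ X.erase u, ld u v ≤ (X.card : ℝ) * Real.log (2 * x) := by
    intro u hu
    have h2 : ∀ v ∈ X.erase u, ld u v ≤ Real.log (2 * x) := by
      intro v hv
      rw [Finset.mem_erase] at hv
      unfold ld
      have h3 : 0 < |((u - v : ℤ) : ℝ)| := by
        rw [abs_pos]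
        have : u - v ≠ 0 := sub_ne_zero.mpr (Ne.symm hv.1)
        exact_mod_cast this
      refine Real.log_le_log h3 ?_
      have h4 : |u - v| ≤ 2 * (x : ℤ) := by
        have := abs_sub u v
        have a1 := hX u hu
        have a2 := hX v hv.2
        linarith
      exact_mod_cast h4
    calc ∑ v ∈ X.erase u, ld u v ≤ ∑ v ∈ X.erase u, Real.log (2 * x) := Finset.sum_le_sum h2
      _ = ((X.erase u).card : ℝ) * Real.log (2 * x) := by rw [Finset.sum_const, nsmul_eq_mul]
      _ ≤ (X.card : ℝ) * Real.log (2 * x) := by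
        refine mul_le_mul_of_nonneg_right ?_ hlog
        exact_mod_cast Finset.card_le_card (Finset.erase_subset _ _)
  calc ∑ u ∈ X, ∑ v ∈ X.erase u, ld u v ≤ ∑ u ∈ X, (X.card : ℝ) * Real.log (2 * x) :=
        Finset.sum_le_sum h1
    _ = (X.card : ℝ) ^ 2 * Real.log (2 * x) := by
        rw [Finset.sum_const, nsmul_eq_mul]; ring

/-- the factorials of a set with many elements in `[-x, x]` -/
theorem size_lD (h1 : Stmt_ARCHO) (S : Set ℤ) (a : ℕ → ℤ) (hO : Ord S a) (j x : ℕ) (hj : 1 ≤ j)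
    (hx : 1 ≤ x) (hN : 2 * j ≤ Nn S x) : lD a j ≤ 2 * j * Real.log (2 * x) := by
  obtain ⟨-, hmono, hnn, hsum⟩ := h1 S a hO
  obtain ⟨-, -, -, hmin, -, -⟩ :=
    Pool.Agent.Work.MP_b29d7f_half.stmt_ORD Pool.Agent.Work.MP_b29d7f_half.stmt_VDM S a hO
  unfold Nn at hN
  obtain ⟨X, hXs, hXc⟩ := Finset.exists_subset_card_eq hN
  have hXS : (X : Set ℤ) ⊆ S := by
    intro y hy
    exact (mem_St.mp (hXs hy)).2
  have hXx : ∀ y ∈ X, |y| ≤ (x : ℤ) := by
    intro y hy
    have := (mem_St.mp (hXs hy)).1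
    exact abs_le.mpr this
  have hE := size_PS X x hx hXx
  have hM := hmin X hXS
  rw [hXc, hsum] at hM
  have hj0 : (0 : ℝ) < j := by exact_mod_cast hj
  have h2 : (j : ℝ) * lD a j ≤ ∑ k ∈ range (2 * j), lD a k := by
    calc (j : ℝ) * lD a j = ∑ k ∈ Ico j (2 * j), lD a j := by
          rw [Finset.sum_const, Nat.card_Ico, nsmul_eq_mul]
          congr 2
          omega
      _ ≤ ∑ k ∈ Ico j (2 * j), lD a k := by
          refine Finset.sum_le_sum fun k hk => hmono (Finset.mem_Ico.mp hk).1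
      _ ≤ ∑ k ∈ range (2 * j), lD a k := by
          refine Finset.sum_le_sum_of_subset_of_nonneg ?_ fun k _ _ => hnn k
          intro k hk
          rw [Finset.mem_Ico] at hk
          exact Finset.mem_range.mpr hk.2
  rw [hXc] at hE
  push_cast at hE
  have h3 : (j : ℝ) * lD a j ≤ (j : ℝ) * (2 * j * Real.log (2 * x)) := by
    nlinarith
  exact le_of_mul_le_mul_left h3 hj0

theorem stmt_SIZE (h1 : Stmt_ARCHO) : Stmt_SIZE := by
  intro S a hO hP
  obtain ⟨c, hc0, x₀, hgrow⟩ := hP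
  -- we may assume c ≤ 1
  set c' : ℝ := min c 1 with hc'
  have hc'0 : 0 < c' := lt_min hc0 one_pos
  have hgrow' : ∀ x : ℕ, max x₀ 1 ≤ x → (x : ℝ) ^ c' ≤ (Nn S x : ℝ) := by
    intro x hx
    refine le_trans ?_ (hgrow x (le_trans (le_max_left _ _) hx))
    refine Real.rpow_le_rpow_of_exponent_le ?_ (min_le_left _ _)
    exact_mod_cast le_trans (le_max_right _ _) hx
  obtain ⟨k, hk1, hkc⟩ : ∃ k : ℕ, 1 ≤ k ∧ 1 ≤ (k : ℝ) * c' := by
    refine ⟨⌈1 / c'⌉₊ + 1, by omega, ?_⟩
    have h := Nat.le_ceil (1 / c')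
    rw [div_le_iff₀ hc'0] at h
    push_cast
    nlinarith
  obtain ⟨-, hmono, hnn, hsum⟩ := h1 S a hO
  -- constants
  set x₁ : ℕ := max x₀ 1 with hx₁
  have hx₁1 : 1 ≤ x₁ := le_max_right _ _
  set C : ℝ := 2 ^ k * (2 + 2 * (x₁ : ℝ)) with hC
  have hC1 : 1 ≤ C := by
    have a1 : (1 : ℝ) ≤ 2 ^ k := one_le_pow₀ (by norm_num)
    have a2 : (0 : ℝ) ≤ x₁ := Nat.cast_nonneg _
    rw [hC]
    nlinarith
  set B : ℝ := 2 * C ^ 4 + |(a 0 : ℝ)| + |(a 1 : ℝ)| with hB
  have hC4 : 1 ≤ C ^ 4 := one_le_pow₀ hC1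
  have ha0 := abs_nonneg (a 0 : ℝ)
  have ha1 := abs_nonneg (a 1 : ℝ)
  refine ⟨c', B, 4 * k, ⟨hO, hc'0, min_le_right _ _, ⟨x₁, hgrow'⟩, by rw [hB]; linarith, by omega,
    ?_⟩⟩
  intro j
  induction j using Nat.strong_induction_on with
  | _ j ih =>
    have hpow1 : (1 : ℝ) ≤ ((j : ℝ) + 2) ^ (4 * k) := one_le_pow₀ (by
      have : (0 : ℝ) ≤ j := Nat.cast_nonneg _
      linarith)
    rcases Nat.lt_or_ge j 2 with hj | hj
    · have hcase : |(a j : ℝ)| ≤ B := by
        interval_cases j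
        · rw [hB]; linarith
        · rw [hB]; linarith
      calc |(a j : ℝ)| ≤ B * 1 := by rw [mul_one]; exact hcase
        _ ≤ B * ((j : ℝ) + 2) ^ (4 * k) := by
          refine mul_le_mul_of_nonneg_left hpow1 ?_
          rw [hB]; linarith
    · by_contra hcon
      push Not at hcon
      have hjr : (2 : ℝ) ≤ j := by exact_mod_cast hj
      have hBpos : 2 ≤ B := by rw [hB]; linarith
      have hbig : 2 ≤ |(a j : ℝ)| := by nlinarith
      have hpos : 0 < |(a j : ℝ)| / 2 := by linarith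
      have hlog : 0 ≤ Real.log (|(a j : ℝ)| / 2) := Real.log_nonneg (by linarith)
      -- the early elements are far away
      have hfar : ∀ i ∈ range (j / 2 + 1), Real.log (|(a j : ℝ)| / 2) ≤ ld (a j) (a i) := by
        intro i hi
        rw [Finset.mem_range] at hi
        have hi2 : 2 * i ≤ j := by omega
        have hij : i < j := by omega
        have hi' := ih i hij
        have hir : 2 * (i : ℝ) ≤ j := by exact_mod_cast hi2
        have hi0 : (0 : ℝ) ≤ i := Nat.cast_nonneg _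
        have h34 : ((i : ℝ) + 2) ≤ (3 / 4) * ((j : ℝ) + 2) := by linarith
        have h5 : ((i : ℝ) + 2) ^ (4 * k) ≤ (1 / 2) * ((j : ℝ) + 2) ^ (4 * k) := by
          calc ((i : ℝ) + 2) ^ (4 * k) ≤ ((3 / 4) * ((j : ℝ) + 2)) ^ (4 * k) :=
                pow_le_pow_left₀ (by linarith) h34 _
            _ = (3 / 4) ^ (4 * k) * ((j : ℝ) + 2) ^ (4 * k) := by rw [mul_pow]
            _ ≤ (1 / 2) * ((j : ℝ) + 2) ^ (4 * k) := by
              refine mul_le_mul_of_nonneg_right ?_ (by linarith)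
              calc ((3 : ℝ) / 4) ^ (4 * k) ≤ (3 / 4) ^ 4 :=
                    pow_le_pow_of_le_one (by norm_num) (by norm_num) (by omega)
                _ ≤ 1 / 2 := by norm_num
        have h6 : |(a i : ℝ)| ≤ |(a j : ℝ)| / 2 := by
          have : B * ((i : ℝ) + 2) ^ (4 * k) ≤ B * ((1 / 2) * ((j : ℝ) + 2) ^ (4 * k)) :=
            mul_le_mul_of_nonneg_left h5 (by linarith)
          linarith
        unfold ld
        refine Real.log_le_log hpos ?_
        have h7 := abs_sub_abs_le_abs_sub (a j : ℝ) (a i : ℝ)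
        push_cast
        linarith
      have hT : ((j : ℝ) / 2) * Real.log (|(a j : ℝ)| / 2) ≤ lD a j := by
        calc ((j : ℝ) / 2) * Real.log (|(a j : ℝ)| / 2)
            ≤ ((j / 2 + 1 : ℕ) : ℝ) * Real.log (|(a j : ℝ)| / 2) := by
              refine mul_le_mul_of_nonneg_right ?_ hlog
              have : (j : ℝ) ≤ 2 * ((j / 2 + 1 : ℕ) : ℝ) := by
                have : j ≤ 2 * (j / 2 + 1) := by omega
                exact_mod_cast this
              linarith
          _ = ∑ i ∈ range (j / 2 + 1), Real.log (|(a j : ℝ)| / 2) := by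
              rw [Finset.sum_const, Finset.card_range, nsmul_eq_mul]
          _ ≤ ∑ i ∈ range (j / 2 + 1), ld (a j) (a i) := Finset.sum_le_sum hfar
          _ ≤ ∑ i ∈ range j, ld (a j) (a i) := by
              refine Finset.sum_le_sum_of_subset_of_nonneg ?_ fun i _ _ =>
                Pool.Agent.Work.MP_b29d7f_half.ld_nonneg _ _
              intro i hi
              rw [Finset.mem_range] at hi ⊢
              omega
          _ = lD a j := rfl
      -- the upper bound
      have h2j : 1 ≤ 2 * j := by omega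
      set x : ℕ := (2 * j) ^ k * x₁ with hx
      have hx1 : x₁ ≤ x := by
        rw [hx]
        exact Nat.le_mul_of_pos_left _ (Nat.pow_pos (by omega))
      have hxj : ((2 * j : ℕ) : ℝ) ≤ (x : ℝ) ^ c' := by
        have a1 : (1 : ℝ) ≤ ((2 * j : ℕ) : ℝ) := by exact_mod_cast h2j
        have a2 : (((2 * j : ℕ) : ℝ) ^ k) ≤ (x : ℝ) := by
          have : (2 * j) ^ k ≤ x := by
            rw [hx]
            exact Nat.le_mul_of_pos_right _ (by omega)
          exact_mod_cast this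
        calc ((2 * j : ℕ) : ℝ) = ((2 * j : ℕ) : ℝ) ^ (1 : ℝ) := (Real.rpow_one _).symm
          _ ≤ ((2 * j : ℕ) : ℝ) ^ ((k : ℝ) * c') :=
              Real.rpow_le_rpow_of_exponent_le a1 hkc
          _ = (((2 * j : ℕ) : ℝ) ^ k) ^ c' := by
              rw [Real.rpow_mul (by linarith), Real.rpow_natCast]
          _ ≤ (x : ℝ) ^ c' :=
              Real.rpow_le_rpow (by positivity) a2 hc'0.le
      have hNx : 2 * j ≤ Nn S x := by
        have := le_trans hxj (hgrow' x hx1)
        exact_mod_cast this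
      have hup := size_lD h1 S a hO j x (by omega) (by omega) hNx
      have hxr : (1 : ℝ) ≤ x := by exact_mod_cast le_trans hx₁1 hx1
      have h8 : Real.log (|(a j : ℝ)| / 2) ≤ 4 * Real.log (2 * x) := by
        have hj0 : (0 : ℝ) < j := by linarith
        have h9 : ((j : ℝ) / 2) * Real.log (|(a j : ℝ)| / 2) ≤
            ((j : ℝ) / 2) * (4 * Real.log (2 * x)) := by
          linarith
        exact le_of_mul_le_mul_left h9 (by linarith)
      have h10 : |(a j : ℝ)| / 2 ≤ (2 * (x : ℝ)) ^ 4 := by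
        have h11 : 4 * Real.log (2 * (x : ℝ)) = Real.log ((2 * (x : ℝ)) ^ 4) := by
          rw [Real.log_pow]; norm_num
        rw [h11] at h8
        exact (Real.log_le_log_iff hpos (by positivity)).mp h8
      have h12 : 2 * (x : ℝ) ≤ C * ((j : ℝ) + 2) ^ k := by
        have h13 : (x : ℝ) = (2 * (j : ℝ)) ^ k * x₁ := by
          rw [hx]; push_cast; ring
        have h14 : (2 * (j : ℝ)) ^ k ≤ 2 ^ k * ((j : ℝ) + 2) ^ k := by
          rw [mul_pow]
          refine mul_le_mul_of_nonneg_left ?_ (by positivity)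
          exact pow_le_pow_left₀ (by linarith) (by linarith) _
        have h15 : (0 : ℝ) ≤ x₁ := Nat.cast_nonneg _
        have h16 : (0 : ℝ) ≤ 2 ^ k * ((j : ℝ) + 2) ^ k := by positivity
        rw [h13, hC]
        calc 2 * ((2 * (j : ℝ)) ^ k * x₁) = (2 * (j : ℝ)) ^ k * (2 * x₁) := by ring
          _ ≤ (2 ^ k * ((j : ℝ) + 2) ^ k) * (2 * x₁) :=
              mul_le_mul_of_nonneg_right h14 (by linarith)
          _ ≤ (2 ^ k * ((j : ℝ) + 2) ^ k) * (2 + 2 * x₁) :=
              mul_le_mul_of_nonneg_left (by linarith) h16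
          _ = 2 ^ k * (2 + 2 * (x₁ : ℝ)) * ((j : ℝ) + 2) ^ k := by ring
      have h17 : (2 * (x : ℝ)) ^ 4 ≤ C ^ 4 * ((j : ℝ) + 2) ^ (4 * k) := by
        calc (2 * (x : ℝ)) ^ 4 ≤ (C * ((j : ℝ) + 2) ^ k) ^ 4 :=
              pow_le_pow_left₀ (by positivity) h12 _
          _ = C ^ 4 * ((j : ℝ) + 2) ^ (4 * k) := by
              rw [mul_pow, ← pow_mul, mul_comm k 4]
      have h18 : 2 * C ^ 4 * ((j : ℝ) + 2) ^ (4 * k) ≤ B * ((j : ℝ) + 2) ^ (4 * k) := by
        refine mul_le_mul_of_nonneg_right ?_ (by linarith)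
        rw [hB]; linarith
      linarith

end Pool.Agent.Work.MP_b29d7f_sep
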