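import Pool.Agent.Work.MP_b29d7f_sep.Interface

/-!
# Block ARCHO: the archimedean analogues
-/

namespace Pool.Agent.Work.MP_b29d7f_sep

open Finset
open Pool.Agent.Work.MP_b29d7f_nt (IsPOrdering HasSimultaneousOrdering PS vd ld tv ld_comm
  PS_seq PS_insert)
open Pool.Agent.Work.MP_b29d7f_half (Ord A wv lD K DK stmt_VDM stmt_ORD mem_A card_A sum_A)

theorem ARCHO_ld_nonneg (x y : ℤ) : 0 ≤ ld x y := by
  unfold ld
  rw [← Int.cast_abs]
  exact Real.log_intCast_nonneg _

theorem stmt_ARCHO : Stmt_ARCHO := by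
  classical
  intro S a ho
  obtain ⟨hinj, hmem, h3, h4, _, _⟩ := stmt_ORD stmt_VDM S a ho
  have hnA : ∀ n, a n ∉ A a n := by
    intro n h
    obtain ⟨i, hi, h⟩ := mem_A.mp h
    have := hinj h
    omega
  have hsucc : ∀ n, A a (n + 1) = insert (a n) (A a n) := by
    intro n
    unfold A
    rw [Finset.range_add_one, Finset.image_insert]
  have hPS : ∀ n, PS ld (A a (n + 1)) = PS ld (A a n) + lD a n := by
    intro n
    rw [hsucc, PS_insert ld ld_comm _ _ (hnA n), sum_A _ hinj]
    rfl
  refine ⟨?_, ?_, ?_, ?_⟩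
  · intro n z hz
    have hcard : ((A a (n + 1)).erase z).card = n := by
      rw [Finset.card_erase_of_mem hz, card_A hinj]
      rfl
    have hsub : (((A a (n + 1)).erase z : Finset ℤ) : Set ℤ) ⊆ S := by
      intro y hy
      rw [Finset.mem_coe] at hy
      obtain ⟨i, _, rfl⟩ := mem_A.mp (Finset.mem_of_mem_erase hy)
      exact hmem i
    have e1 := h4 _ hsub
    rw [hcard] at e1
    have e2 : PS ld (A a (n + 1)) =
        PS ld ((A a (n + 1)).erase z) + ∑ y ∈ (A a (n + 1)).erase z, ld z y := by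
      rw [← PS_insert ld ld_comm _ z (Finset.notMem_erase z _), Finset.insert_erase hz]
    have e3 := hPS n
    linarith
  · refine monotone_nat_of_le_succ fun n => ?_
    have hn : a (n + 1) ∉ A a n := by
      intro h
      obtain ⟨i, hi, h⟩ := mem_A.mp h
      have := hinj h
      omega
    have e1 := h3 n (a (n + 1)) (hmem _) hn
    rw [sum_A _ hinj] at e1
    have e2 : lD a (n + 1) = ∑ i ∈ range n, ld (a (n + 1)) (a i) + ld (a (n + 1)) (a n) := by
      unfold lD
      rw [Finset.sum_range_succ]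
    rw [e2]
    linarith [ARCHO_ld_nonneg (a (n + 1)) (a n)]
  · intro n
    exact Finset.sum_nonneg fun i _ => ARCHO_ld_nonneg _ _
  · intro n
    exact PS_seq ld ld_comm a hinj n

end Pool.Agent.Work.MP_b29d7f_sep
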