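import Pool.Agent.Work.MP_b29d7f_sep.Interface

/-!
# Block HULL: every initial segment of the ordering is an interval of `S`
-/

namespace Pool.Agent.Work.MP_b29d7f_sep

open Finset
open Pool.Agent.Work.MP_b29d7f_nt (IsPOrdering HasSimultaneousOrdering PS vd ld tv)
open Pool.Agent.Work.MP_b29d7f_half (Ord A wv lD K DK)

theorem hull_ld_lt {x y z : ℤ} (h0 : x ≠ z) (h : |x - z| < |y - z|) : ld x z < ld y z := by
  unfold ld
  have h1 : (0 : ℝ) < ((|x - z| : ℤ) : ℝ) := by
    have : 0 < |x - z| := abs_pos.mpr (sub_ne_zero.mpr h0)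
    exact_mod_cast this
  have h2 : ((|x - z| : ℤ) : ℝ) < ((|y - z| : ℤ) : ℝ) := by exact_mod_cast h
  have h3 := Real.log_lt_log h1 h2
  push_cast at h3 ⊢
  exact h3

theorem stmt_HULL : Stmt_HULL := by
  intro S a ho
  obtain ⟨hinj, hmem, hmin, -, -, -⟩ := Pool.Agent.Work.MP_b29d7f_half.stmt_ORD
    Pool.Agent.Work.MP_b29d7f_half.stmt_VDM S a ho
  have hA : ∀ (n : ℕ) (s : ℤ), s ∈ A a n ↔ ∃ i < n, a i = s := by
    intro n s
    unfold A
    simp only [Finset.mem_image, Finset.mem_range]
  have hsum : ∀ (n : ℕ) (s : ℤ), ∑ y ∈ A a n, ld s y = ∑ i ∈ range n, ld s (a i) := by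
    intro n s
    unfold A
    exact Finset.sum_image fun i _ j _ hij => hinj hij
  have key : ∀ (n : ℕ) (s : ℤ), 0 < n → s ∈ S → s ∉ A a n →
      ¬ ∀ i < n, |s - a i| < |a n - a i| := by
    intro n s hn hs hsn hlt
    have h1 := hmin n s hs hsn
    rw [hsum] at h1
    have h2 : ∑ i ∈ range n, ld s (a i) < ∑ i ∈ range n, ld (a n) (a i) := by
      refine Finset.sum_lt_sum_of_nonempty ⟨0, Finset.mem_range.mpr hn⟩ fun i hi => ?_
      rw [Finset.mem_range] at hi
      refine hull_ld_lt (fun h => hsn ((hA n s).2 ⟨i, hi, h.symm⟩)) (hlt i hi)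
    unfold lD at h1
    exact absurd h1 (not_le.mpr h2)
  intro n
  induction n with
  | zero =>
    intro s _ h
    obtain ⟨i, hi, -⟩ := h
    exact absurd hi (Nat.not_lt_zero i)
  | succ n ih =>
    intro s hs hl hr
    obtain ⟨i, hi, his⟩ := hl
    obtain ⟨j, hj, hsj⟩ := hr
    by_contra hcon
    have hsn : s ∉ A a n := fun h => by
      obtain ⟨k, hk, hks⟩ := (hA n s).1 h
      exact hcon ((hA (n + 1) s).2 ⟨k, by omega, hks⟩)
    have hne : s ≠ a n := fun h => hcon ((hA (n + 1) s).2 ⟨n, by omega, h.symm⟩)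
    rcases Nat.eq_zero_or_pos n with hn | hn
    · subst hn
      have hi0 : i = 0 := by omega
      have hj0 : j = 0 := by omega
      subst hi0
      subst hj0
      exact hne (le_antisymm hsj his)
    by_cases h1 : ∃ i < n, a i ≤ s
    · by_cases h2 : ∃ j < n, s ≤ a j
      · exact hsn (ih s hs h1 h2)
      · -- `s` lies to the right of `A_n`
        have h3 : ∀ k < n, a k < s := fun k hk => by
          by_contra hc
          exact h2 ⟨k, hk, not_lt.mp hc⟩
        have hjn : j = n := by
          by_contra hc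
          exact absurd (h3 j (by omega)) (not_lt.mpr hsj)
        subst hjn
        have h4 : s < a j := lt_of_le_of_ne hsj hne
        refine key j s hn hs hsn fun k hk => ?_
        have h5 := h3 k hk
        rw [abs_of_pos (by omega), abs_of_pos (by omega)]
        omega
    · -- `s` lies to the left of `A_n`
      have h3 : ∀ k < n, s < a k := fun k hk => by
        by_contra hc
        exact h1 ⟨k, hk, not_lt.mp hc⟩
      have hin : i = n := by
        by_contra hc
        exact absurd (h3 i (by omega)) (not_lt.mpr his)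
      subst hin
      have h4 : a i < s := lt_of_le_of_ne his (Ne.symm hne)
      refine key i s hn hs hsn fun k hk => ?_
      have h5 := h3 k hk
      rw [abs_of_neg (by omega), abs_of_neg (by omega)]
      omega

end Pool.Agent.Work.MP_b29d7f_sep
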