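import Pool.Agent.Work.MP_b29d7f_sep.Interface

/-!
# Block COMBA: the trivial bound for the sum over windows
-/

namespace Pool.Agent.Work.MP_b29d7f_sep

open Finset

theorem comba_tel (w : ℕ → ℕ) (K t : ℕ) :
    ∑ u ∈ range K, ((w (u + t + 1) : ℝ) - w (u + t)) = (w (K + t) : ℝ) - w t := by
  induction K with
  | zero => simp
  | succ K ih =>
    rw [sum_range_succ, ih]
    have : K + 1 + t = K + t + 1 := by ring
    rw [this]
    ring

theorem comba_tri (m : ℕ) : ∑ t ∈ range m, ((m : ℝ) - t) = m * (m + 1) / 2 := by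
  induction m with
  | zero => simp
  | succ m ih =>
    rw [sum_range_succ]
    have : ∀ t ∈ range m, ((m + 1 : ℕ) : ℝ) - t = ((m : ℝ) - t) + 1 := by
      intro t _; push_cast; ring
    rw [sum_congr rfl this, sum_add_distrib, ih]
    simp
    ring

theorem stmt_COMBA : Stmt_COMBA := by
  intro w E n M hw hM hMn hE
  unfold WS Q1
  rw [sum_mul]
  refine sum_le_sum (fun m hm => ?_)
  obtain ⟨hm1, hm2⟩ := mem_Icc.mp hm
  have hm0 : (0 : ℝ) < m := by exact_mod_cast hm1
  have key : ∑ u ∈ range (n - m + 1), E u m ≤ m * (m + 1) / 2 * w n := by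
    calc ∑ u ∈ range (n - m + 1), E u m
        ≤ ∑ u ∈ range (n - m + 1), ∑ t ∈ range m,
            ((w (u + t + 1) : ℝ) - w (u + t)) * ((m : ℝ) - t) := by
          refine sum_le_sum (fun u hu => ?_)
          have hu' := mem_range.mp hu
          refine (hE u m hm1 (by omega)).trans (le_of_eq ?_)
          rw [sum_Ico_eq_sum_range]
          have h1 : u + m - u = m := by omega
          rw [h1]
          refine sum_congr rfl (fun t _ => ?_)
          push_cast
          ring
      _ = ∑ t ∈ range m, ((m : ℝ) - t) *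
            ∑ u ∈ range (n - m + 1), ((w (u + t + 1) : ℝ) - w (u + t)) := by
          rw [sum_comm]
          refine sum_congr rfl (fun t _ => ?_)
          rw [mul_sum]
          exact sum_congr rfl (fun u _ => by ring)
      _ ≤ ∑ t ∈ range m, ((m : ℝ) - t) * w n := by
          refine sum_le_sum (fun t ht => ?_)
          have ht' := mem_range.mp ht
          have h2 : (t : ℝ) ≤ m := by exact_mod_cast ht'.le
          refine mul_le_mul_of_nonneg_left ?_ (by linarith)
          rw [comba_tel]
          have h3 : (w (n - m + 1 + t) : ℝ) ≤ w n := by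
            exact_mod_cast hw (by omega)
          have h4 : (0 : ℝ) ≤ w t := by positivity
          linarith
      _ = m * (m + 1) / 2 * w n := by
          rw [← sum_mul, comba_tri]
  calc (1 / (m : ℝ) ^ 3) * ∑ u ∈ range (n - m + 1), E u m
      ≤ (1 / (m : ℝ) ^ 3) * (m * (m + 1) / 2 * w n) :=
        mul_le_mul_of_nonneg_left key (by positivity)
    _ = ((m : ℝ) + 1) / (2 * (m : ℝ) ^ 2) * w n := by
        field_simp

end Pool.Agent.Work.MP_b29d7f_sep
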