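import Pool.Agent.Work.MP_b29d7f_sep.Interface

/-!
# Gap rule: block COMBB
-/

namespace Pool.Agent.Work.MP_b29d7f_sep.CBB

open Finset
open Pool.Agent.Work.MP_b29d7f_sep

theorem smin (m : ℕ) :
    ∑ i ∈ range m, min ((m : ℝ) - i) ((i : ℝ) + 1) ≤ ((m : ℝ) + 1) ^ 2 / 4 := by
  induction m using Nat.strong_induction_on with
  | _ m ih =>
    rcases m with _ | _ | m
    · norm_num
    · norm_num
    · have h := ih m (by omega)
      rw [Finset.sum_range_succ, Finset.sum_range_succ']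
      have e1 : ∀ i ∈ range m, min (((m + 1 + 1 : ℕ) : ℝ) - ((i + 1 : ℕ) : ℝ))
          (((i + 1 : ℕ) : ℝ) + 1) = min ((m : ℝ) - i) ((i : ℝ) + 1) + 1 := by
        intro i _
        rw [← min_add_add_right]
        push_cast
        congr 1
        ring
      rw [Finset.sum_congr rfl e1, Finset.sum_add_distrib]
      have e2 : min (((m + 1 + 1 : ℕ) : ℝ) - ((0 : ℕ) : ℝ)) (((0 : ℕ) : ℝ) + 1) ≤ 1 :=
        (min_le_right _ _).trans (by norm_num)
      have e3 : min (((m + 1 + 1 : ℕ) : ℝ) - ((m + 1 : ℕ) : ℝ)) (((m + 1 : ℕ) : ℝ) + 1) ≤ 1 :=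
        (min_le_left _ _).trans (by push_cast; linarith)
      have e4 : ∑ x ∈ range m, (1 : ℝ) = m := by simp
      rw [e4]
      have key : ∀ A B C x : ℝ, A ≤ (x + 1) ^ 2 / 4 → B ≤ 1 → C ≤ 1 →
          A + x + B + C ≤ (x + 1 + 1 + 1) ^ 2 / 4 := by
        intro A B C x h1 h2 h3
        nlinarith
      refine (key _ _ _ (m : ℝ) h e2 e3).trans (le_of_eq ?_)
      push_cast
      ring

theorem sum_inv_sq (M : ℕ) : ∑ m ∈ Icc 1 M, (1 : ℝ) / (m : ℝ) ^ 2 ≤ 2 := by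
  rcases M with _ | M
  · norm_num
  · have h1 : Icc 1 (M + 1) = insert 1 (Ioc 1 (M + 1)) := by
      ext x; simp only [mem_Icc, mem_insert, mem_Ioc]; omega
    rw [h1, Finset.sum_insert (by simp)]
    have h2 := sum_Ioc_inv_sq_le_sub (α := ℝ) (k := 1) (n := M + 1) one_ne_zero (by omega)
    have h3 : ∑ x ∈ Ioc 1 (M + 1), (1 : ℝ) / (x : ℝ) ^ 2 = ∑ x ∈ Ioc 1 (M + 1), ((x : ℝ) ^ 2)⁻¹ :=
      Finset.sum_congr rfl (fun x _ => one_div _)
    rw [h3]
    have h4 : (0 : ℝ) ≤ ((M + 1 : ℕ) : ℝ)⁻¹ := by positivity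
    have h5 : (((1 : ℕ) : ℝ))⁻¹ = 1 := by norm_num
    rw [h5] at h2
    have h6 : (1 : ℝ) / ((1 : ℕ) : ℝ) ^ 2 = 1 := by norm_num
    rw [h6]
    linarith

theorem coef (M : ℕ) : ∑ m ∈ Icc 1 M, (1 / (m : ℝ) ^ 3) * (((m : ℝ) + 1) ^ 2 / 4) ≤
    Q1 M / 2 + 1 := by
  have h1 : ∀ m ∈ Icc 1 M, (1 / (m : ℝ) ^ 3) * (((m : ℝ) + 1) ^ 2 / 4) ≤
      (((m : ℝ) + 1) / (2 * (m : ℝ) ^ 2)) / 2 + (1 / (m : ℝ) ^ 2) / 2 := by
    intro m hm
    have hm1 : (1 : ℝ) ≤ m := by
      have := (mem_Icc.1 hm).1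
      exact_mod_cast this
    have hm0 : (0 : ℝ) < m := by linarith
    have e1 : (1 / (m : ℝ) ^ 3) * (((m : ℝ) + 1) ^ 2 / 4) =
        (((m : ℝ) + 1) / (2 * (m : ℝ) ^ 2)) / 2 + ((m : ℝ) + 1) / (4 * (m : ℝ) ^ 3) := by
      field_simp
      ring
    have e2 : ((m : ℝ) + 1) / (4 * (m : ℝ) ^ 3) ≤ (1 / (m : ℝ) ^ 2) / 2 := by
      rw [div_div, div_le_div_iff₀ (by positivity) (by positivity)]
      nlinarith [pow_pos hm0 2, pow_pos hm0 3, mul_nonneg (sub_nonneg.2 hm1) (sq_nonneg (m : ℝ))]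
    rw [e1]
    linarith
  calc _ ≤ ∑ m ∈ Icc 1 M, ((((m : ℝ) + 1) / (2 * (m : ℝ) ^ 2)) / 2 + (1 / (m : ℝ) ^ 2) / 2) :=
        Finset.sum_le_sum h1
    _ = Q1 M / 2 + (∑ m ∈ Icc 1 M, (1 : ℝ) / (m : ℝ) ^ 2) / 2 := by
        rw [Finset.sum_add_distrib, ← Finset.sum_div, ← Finset.sum_div]
        rfl
    _ ≤ Q1 M / 2 + 1 := by linarith [sum_inv_sq M]

theorem coef2 (d M : ℕ) (hd : 1 ≤ d) (hdM : d ≤ M) :
    ∑ m ∈ Ioc d M, (1 / (m : ℝ) ^ 3) * (((m - d : ℕ) : ℝ) * d) ≤ 1 := by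
  have hd0 : (0 : ℝ) < d := by exact_mod_cast hd
  have h1 : ∀ m ∈ Ioc d M, (1 / (m : ℝ) ^ 3) * (((m - d : ℕ) : ℝ) * d) ≤ d * ((m : ℝ) ^ 2)⁻¹ := by
    intro m hm
    have hm1 := mem_Ioc.1 hm
    have hm0 : (0 : ℝ) < m := by exact_mod_cast (by omega : 0 < m)
    have e1 : ((m - d : ℕ) : ℝ) ≤ m := by exact_mod_cast Nat.sub_le m d
    calc (1 / (m : ℝ) ^ 3) * (((m - d : ℕ) : ℝ) * d) ≤ (1 / (m : ℝ) ^ 3) * (m * d) := by gcongr
      _ = d * ((m : ℝ) ^ 2)⁻¹ := by field_simp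
  have h2 := sum_Ioc_inv_sq_le_sub (α := ℝ) (k := d) (n := M) (by omega) hdM
  calc _ ≤ ∑ m ∈ Ioc d M, d * ((m : ℝ) ^ 2)⁻¹ := Finset.sum_le_sum h1
    _ = d * ∑ m ∈ Ioc d M, ((m : ℝ) ^ 2)⁻¹ := by rw [Finset.mul_sum]
    _ ≤ d * ((d : ℝ)⁻¹ - (M : ℝ)⁻¹) := by gcongr
    _ ≤ d * (d : ℝ)⁻¹ := by
        gcongr
        have : (0 : ℝ) ≤ (M : ℝ)⁻¹ := by positivity
        linarith
    _ = 1 := by field_simp

theorem main (w : ℕ → ℕ) (o : ℕ → ℝ) (E : ℕ → ℕ → ℝ) (n M J : ℕ) (hw : Monotone w)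
    (ho : ∀ g, o g = (w (g + 1) : ℝ) - w g) (hMn : M ≤ n)
    (hJ : ∀ u, w (u + M) ≤ w u + J)
    (hE : ∀ u m : ℕ, 1 ≤ m → m ≤ M → u + m ≤ n →
      E u m ≤ ∑ i ∈ range m, o (u + i) * min ((m : ℝ) - i) ((i : ℝ) + 1) +
        ∑ i ∈ range m, ∑ d ∈ Ico 1 (m - i), o (u + i) * o (u + i + d) * d) :
    WS E n M ≤ (Q1 M / 2 + 2 + J) * w n := by
  have o0 : ∀ g, 0 ≤ o g := by
    intro g
    rw [ho]
    have := hw (Nat.le_succ g)
    have h2 : (w g : ℝ) ≤ w (g + 1) := by exact_mod_cast this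
    linarith
  have osum : ∀ k i : ℕ, ∑ u ∈ range k, o (u + i) = (w (k + i) : ℝ) - w i := by
    intro k i
    have h1 : ∀ u ∈ range k, o (u + i) = (fun u => (w (u + i) : ℝ)) (u + 1) -
        (fun u => (w (u + i) : ℝ)) u := by
      intro u _
      show o (u + i) = (w (u + 1 + i) : ℝ) - w (u + i)
      rw [ho, show u + i + 1 = u + 1 + i by ring]
    rw [Finset.sum_congr rfl h1]
    exact (Finset.sum_range_sub (fun u => (w (u + i) : ℝ)) k).trans (by simp)
  have wn0 : (0 : ℝ) ≤ w n := Nat.cast_nonneg _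
  set P : ℕ → ℝ := fun d => ∑ g ∈ range n, o g * o (g + d) with hP
  have P0 : ∀ d, 0 ≤ P d := fun d => Finset.sum_nonneg (fun g _ => mul_nonneg (o0 _) (o0 _))
  -- first part
  have hA : ∀ m ∈ Icc 1 M, ∑ u ∈ range (n - m + 1), ∑ i ∈ range m,
      o (u + i) * min ((m : ℝ) - i) ((i : ℝ) + 1) ≤ (((m : ℝ) + 1) ^ 2 / 4) * w n := by
    intro m hm
    have hm1 := mem_Icc.1 hm
    rw [Finset.sum_comm]
    calc ∑ i ∈ range m, ∑ u ∈ range (n - m + 1), o (u + i) * min ((m : ℝ) - i) ((i : ℝ) + 1)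
        = ∑ i ∈ range m, min ((m : ℝ) - i) ((i : ℝ) + 1) * ∑ u ∈ range (n - m + 1), o (u + i) := by
          refine Finset.sum_congr rfl (fun i _ => ?_)
          rw [Finset.mul_sum]
          exact Finset.sum_congr rfl (fun u _ => mul_comm _ _)
      _ ≤ ∑ i ∈ range m, min ((m : ℝ) - i) ((i : ℝ) + 1) * w n := by
          refine Finset.sum_le_sum (fun i hi => ?_)
          have hi1 := mem_range.1 hi
          have c0 : (0 : ℝ) ≤ min ((m : ℝ) - i) ((i : ℝ) + 1) := by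
            refine le_min ?_ (by positivity)
            have : (i : ℝ) ≤ m := by exact_mod_cast hi1.le
            linarith
          refine mul_le_mul_of_nonneg_left ?_ c0
          rw [osum]
          have h2 : w (n - m + 1 + i) ≤ w n := hw (by omega)
          have h3 : (w (n - m + 1 + i) : ℝ) ≤ w n := by exact_mod_cast h2
          have h4 : (0 : ℝ) ≤ w i := Nat.cast_nonneg _
          linarith
      _ = (∑ i ∈ range m, min ((m : ℝ) - i) ((i : ℝ) + 1)) * w n := by rw [Finset.sum_mul]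
      _ ≤ _ := mul_le_mul_of_nonneg_right (smin m) wn0
  -- second part
  have hB : ∀ m ∈ Icc 1 M, ∑ u ∈ range (n - m + 1), ∑ i ∈ range m, ∑ d ∈ Ico 1 (m - i),
      o (u + i) * o (u + i + d) * d ≤ ∑ d ∈ Ico 1 m, (((m - d : ℕ) : ℝ) * d) * P d := by
    intro m hm
    have hm1 := mem_Icc.1 hm
    have e1 : ∀ u ∈ range (n - m + 1), ∑ i ∈ range m, ∑ d ∈ Ico 1 (m - i),
        o (u + i) * o (u + i + d) * d =
        ∑ d ∈ Ico 1 m, ∑ i ∈ range (m - d), o (u + i) * o (u + i + d) * d := by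
      intro u _
      refine Finset.sum_comm' (fun i d => ?_)
      simp only [mem_range, mem_Ico]
      omega
    rw [Finset.sum_congr rfl e1, Finset.sum_comm]
    refine Finset.sum_le_sum (fun d hd => ?_)
    have hd1 := mem_Ico.1 hd
    rw [Finset.sum_comm]
    calc ∑ i ∈ range (m - d), ∑ u ∈ range (n - m + 1), o (u + i) * o (u + i + d) * d
        ≤ ∑ i ∈ range (m - d), P d * d := by
          refine Finset.sum_le_sum (fun i hi => ?_)
          have hi1 := mem_range.1 hi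
          rw [← Finset.sum_mul]
          refine mul_le_mul_of_nonneg_right ?_ (Nat.cast_nonneg _)
          have e2 : ∑ u ∈ range (n - m + 1), o (u + i) * o (u + i + d) =
              ∑ g ∈ Ico i (i + (n - m + 1)), o g * o (g + d) := by
            rw [Finset.sum_Ico_eq_sum_range, Nat.add_sub_cancel_left]
            exact Finset.sum_congr rfl (fun u _ => by rw [add_comm i u])
          rw [e2]
          refine Finset.sum_le_sum_of_subset_of_nonneg ?_
            (fun g _ _ => mul_nonneg (o0 _) (o0 _))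
          intro g hg
          have := mem_Ico.1 hg
          exact mem_range.2 (by omega)
      _ = (((m - d : ℕ) : ℝ) * d) * P d := by
          rw [Finset.sum_const, card_range, nsmul_eq_mul]
          ring
  -- the sum of the P d
  have hP1 : ∑ d ∈ Ico 1 M, P d ≤ J * w n := by
    rw [hP, Finset.sum_comm]
    calc ∑ g ∈ range n, ∑ d ∈ Ico 1 M, o g * o (g + d)
        ≤ ∑ g ∈ range n, o g * J := by
          refine Finset.sum_le_sum (fun g _ => ?_)
          rw [← Finset.mul_sum]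
          refine mul_le_mul_of_nonneg_left ?_ (o0 g)
          have e1 : ∑ d ∈ Ico 1 M, o (g + d) = ∑ i ∈ range (M - 1), o (i + (g + 1)) := by
            rw [Finset.sum_Ico_eq_sum_range]
            exact Finset.sum_congr rfl (fun u _ => by rw [show g + (1 + u) = u + (g + 1) by ring])
          rw [e1, osum]
          have h1 : w (M - 1 + (g + 1)) ≤ w (g + M) ∨ M = 0 := by
            rcases Nat.eq_zero_or_pos M with h | h
            · exact Or.inr h
            · exact Or.inl (hw (by omega))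
          rcases h1 with h1 | h1
          · have h2 := hJ g
            have h3 : w g ≤ w (g + 1) := hw (Nat.le_succ g)
            have h4 : w (M - 1 + (g + 1)) ≤ w (g + 1) + J := by omega
            have h5 : (w (M - 1 + (g + 1)) : ℝ) ≤ w (g + 1) + J := by exact_mod_cast h4
            linarith
          · subst h1
            simp
      _ = (∑ g ∈ range n, o (g + 0)) * J := by simp [Finset.sum_mul]
      _ = ((w n : ℝ) - w 0) * J := by rw [osum]; simp
      _ ≤ J * w n := by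
          have h1 : (0 : ℝ) ≤ w 0 := Nat.cast_nonneg _
          have h2 : (0 : ℝ) ≤ J := Nat.cast_nonneg _
          nlinarith
  -- total
  have hT : WS E n M ≤ ∑ m ∈ Icc 1 M, ((1 / (m : ℝ) ^ 3) * ((((m : ℝ) + 1) ^ 2 / 4) * w n) +
      (1 / (m : ℝ) ^ 3) * ∑ d ∈ Ico 1 m, (((m - d : ℕ) : ℝ) * d) * P d) := by
    unfold WS
    refine Finset.sum_le_sum (fun m hm => ?_)
    have hm1 := mem_Icc.1 hm
    rw [← mul_add]
    refine mul_le_mul_of_nonneg_left ?_ (by positivity)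
    calc ∑ u ∈ range (n - m + 1), E u m
        ≤ ∑ u ∈ range (n - m + 1), (∑ i ∈ range m, o (u + i) * min ((m : ℝ) - i) ((i : ℝ) + 1) +
          ∑ i ∈ range m, ∑ d ∈ Ico 1 (m - i), o (u + i) * o (u + i + d) * d) := by
          refine Finset.sum_le_sum (fun u hu => ?_)
          have hu1 := mem_range.1 hu
          exact hE u m hm1.1 hm1.2 (by omega)
      _ ≤ _ := by
          rw [Finset.sum_add_distrib]
          exact add_le_add (hA m hm) (hB m hm)
  have hS1 : ∑ m ∈ Icc 1 M, (1 / (m : ℝ) ^ 3) * ((((m : ℝ) + 1) ^ 2 / 4) * (w n : ℝ)) ≤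
      (Q1 M / 2 + 1) * (w n : ℝ) := by
    have : ∑ m ∈ Icc 1 M, (1 / (m : ℝ) ^ 3) * ((((m : ℝ) + 1) ^ 2 / 4) * (w n : ℝ)) =
        (∑ m ∈ Icc 1 M, (1 / (m : ℝ) ^ 3) * (((m : ℝ) + 1) ^ 2 / 4)) * (w n : ℝ) := by
      rw [Finset.sum_mul]
      exact Finset.sum_congr rfl (fun m _ => by ring)
    rw [this]
    exact mul_le_mul_of_nonneg_right (coef M) wn0
  have hS2 : ∑ m ∈ Icc 1 M, (1 / (m : ℝ) ^ 3) * ∑ d ∈ Ico 1 m, (((m - d : ℕ) : ℝ) * d) * P d ≤
      (J : ℝ) * (w n : ℝ) := by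
    have e1 : ∑ m ∈ Icc 1 M, (1 / (m : ℝ) ^ 3) * ∑ d ∈ Ico 1 m, (((m - d : ℕ) : ℝ) * d) * P d =
        ∑ d ∈ Ico 1 M, (∑ m ∈ Ioc d M, (1 / (m : ℝ) ^ 3) * (((m - d : ℕ) : ℝ) * d)) * P d := by
      calc _ = ∑ m ∈ Icc 1 M, ∑ d ∈ Ico 1 m,
            (1 / (m : ℝ) ^ 3) * (((m - d : ℕ) : ℝ) * d) * P d := by
            refine Finset.sum_congr rfl (fun m _ => ?_)
            rw [Finset.mul_sum]
            exact Finset.sum_congr rfl (fun d _ => by ring)
        _ = ∑ d ∈ Ico 1 M, ∑ m ∈ Ioc d M, (1 / (m : ℝ) ^ 3) * (((m - d : ℕ) : ℝ) * d) * P d := by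
            refine Finset.sum_comm' (fun m d => ?_)
            simp only [mem_Icc, mem_Ico, mem_Ioc]
            omega
        _ = _ := by
            refine Finset.sum_congr rfl (fun d _ => ?_)
            rw [Finset.sum_mul]
    rw [e1]
    refine le_trans (Finset.sum_le_sum (fun d hd => ?_)) hP1
    have hd1 := mem_Ico.1 hd
    calc _ ≤ 1 * P d := mul_le_mul_of_nonneg_right (coef2 d M hd1.1 hd1.2.le) (P0 d)
      _ = P d := one_mul _
  rw [Finset.sum_add_distrib] at hT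
  calc WS E n M ≤ (Q1 M / 2 + 1) * w n + J * w n := by linarith
    _ ≤ (Q1 M / 2 + 2 + J) * w n := by nlinarith

end Pool.Agent.Work.MP_b29d7f_sep.CBB

namespace Pool.Agent.Work.MP_b29d7f_sep

open Finset

theorem stmt_COMBB (h : Stmt_MINP) : Stmt_COMBB := by
  intro w E n M J hw hM hMn hE1 hE2 hJ
  set w' : ℕ → ℕ := fun k => w (min k n) with hw'
  have hmono : Monotone w' := fun i j hij => hw (min_le_min_right n hij)
  have hwn : w' n = w n := by simp [hw']
  have hJ' : ∀ u, w' (u + M) ≤ w' u + J := by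
    intro u
    show w (min (u + M) n) ≤ w (min u n) + J
    by_cases hu : u + M ≤ n
    · rw [min_eq_left hu, min_eq_left (by omega)]
      exact hJ u hu
    · rw [min_eq_right (by omega)]
      have h1 := hJ (n - M) (by omega)
      rw [Nat.sub_add_cancel hMn] at h1
      have h2 : w (n - M) ≤ w (min u n) := hw (by omega)
      omega
  have key := CBB.main w' (fun g => (w' (g + 1) : ℝ) - w' g) E n M J hmono (fun _ => rfl) hMn hJ' ?_
  · rwa [hwn] at key
  intro u m hm _ hum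
  have hcast : ∀ g, ((w' (g + 1) - w' g : ℕ) : ℝ) = (w' (g + 1) : ℝ) - w' g := by
    intro g
    rw [Nat.cast_sub (hmono (Nat.le_succ g))]
  have hww : ∀ g ∈ Ico u (u + m), (w (g + 1) : ℝ) - w g = (w' (g + 1) : ℝ) - w' g := by
    intro g hg
    have := mem_Ico.1 hg
    show _ = ((w (min (g + 1) n) : ℕ) : ℝ) - (w (min g n) : ℕ)
    rw [min_eq_left (by omega), min_eq_left (by omega)]
  have h1 := hE1 u m hm hum
  have h2 := hE2 u m hm hum
  have h1' : E u m ≤ ∑ g ∈ Ico u (u + m), ((w' (g + 1) - w' g : ℕ) : ℝ) * ((u : ℝ) + m - g) := by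
    refine h1.trans (le_of_eq (Finset.sum_congr rfl (fun g hg => ?_)))
    rw [hcast, hww g hg]
  have h2' : E u m ≤ ∑ g ∈ Ico u (u + m), ((w' (g + 1) - w' g : ℕ) : ℝ) * ((g : ℝ) + 1 - u) := by
    refine h2.trans (le_of_eq (Finset.sum_congr rfl (fun g hg => ?_)))
    rw [hcast, hww g hg]
  have h3 := h (fun g => w' (g + 1) - w' g) u m (E u m) h1' h2'
  refine h3.trans (le_of_eq ?_)
  congr 1
  · rw [Finset.sum_Ico_eq_sum_range, Nat.add_sub_cancel_left]
    refine Finset.sum_congr rfl (fun i _ => ?_)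
    rw [hcast]
    congr 2
    · push_cast; ring
    · push_cast; ring
  · rw [Finset.sum_Ico_eq_sum_range, Nat.add_sub_cancel_left]
    refine Finset.sum_congr rfl (fun i hi => ?_)
    have hi1 := mem_range.1 hi
    have e1 : Ico (u + i + 1) (u + m) = Ico (1 + (u + i)) (m - i + (u + i)) := by
      congr 1 <;> omega
    rw [e1, ← Finset.sum_Ico_add']
    refine Finset.sum_congr rfl (fun d _ => ?_)
    rw [hcast, hcast, show d + (u + i) = u + i + d by ring]
    push_cast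
    ring

end Pool.Agent.Work.MP_b29d7f_sep
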