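import Pool.Agent.Work.MP_b29d7f_sep.Interface

/-!
# Block COR: a bounded number of close neighbours implies the averaged hypothesis
-/

namespace Pool.Agent.Work.MP_b29d7f_sep

open Finset

/-- the gap is attained -/
theorem gap_spec {S : Set ℤ} (hinf : S.Infinite) (b : ℕ) (s : ℤ) :
    b ≤ ((St S (s - gap S b s) (s + gap S b s)).erase s).card := by
  classical
  have hne : {r : ℕ | b ≤ ((St S (s - r) (s + r)).erase s).card}.Nonempty := by
    obtain ⟨Y, hYS, hYc⟩ := hinf.exists_subset_card_eq (b + 1)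
    refine ⟨Y.sup (fun y => (y - s).natAbs), ?_⟩
    rw [Set.mem_ofPred_eq]
    have hsub : Y.erase s ⊆ (St S (s - (Y.sup (fun y => (y - s).natAbs) : ℕ))
        (s + (Y.sup (fun y => (y - s).natAbs) : ℕ))).erase s := by
      refine Finset.erase_subset_erase s ?_
      intro y hy
      rw [mem_St]
      have h1 : (y - s).natAbs ≤ Y.sup (fun y => (y - s).natAbs) :=
        Finset.le_sup (f := fun y => (y - s).natAbs) hy
      refine ⟨?_, hYS hy⟩
      constructor <;> omega
    have h2 := Finset.card_le_card hsub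
    have h3 := Finset.pred_card_le_card_erase (s := Y) (a := s)
    omega
  exact Nat.sInf_mem hne

theorem stmt_COR : Stmt_COR := by
  classical
  intro S γ γ' b hinf hγ' hγ hyp
  obtain ⟨x₁, hx₁⟩ := hyp
  -- the bound for one element
  have hgap : ∀ s ∈ S, (x₁ : ℤ) ≤ |s| → 1 ≤ |s| →
      γ * Real.log |(s : ℝ)| ≤ Real.log (gap S b s) := by
    intro s hs hxs h1
    have hmem := gap_spec hinf b s
    have hs1 : (1 : ℝ) ≤ |(s : ℝ)| := by exact_mod_cast h1
    have hle : |(s : ℝ)| ^ γ ≤ (gap S b s : ℝ) := by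
      by_contra hlt
      rw [not_le] at hlt
      have h2 := hx₁ s hs hxs ((St S (s - gap S b s) (s + gap S b s)).erase s)
        (by
          intro t ht
          rw [Finset.mem_coe, Finset.mem_erase, mem_St] at ht
          exact ht.2.2)
        (by
          intro t ht
          rw [Finset.mem_erase, mem_St] at ht
          refine ⟨ht.1, lt_of_le_of_lt ?_ hlt⟩
          have h3 : |t - s| ≤ (gap S b s : ℤ) := by
            rw [abs_le]; constructor <;> linarith [ht.2.1.1, ht.2.1.2]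
          exact_mod_cast h3)
      omega
    calc γ * Real.log |(s : ℝ)| = Real.log (|(s : ℝ)| ^ γ) :=
          (Real.log_rpow (by linarith) γ).symm
      _ ≤ Real.log (gap S b s) := Real.log_le_log (by positivity) hle
  set x₂ : ℕ := max x₁ 3 with hx₂
  have hx₂3 : 3 ≤ x₂ := le_max_right _ _
  have hx₂1 : x₁ ≤ x₂ := le_max_left _ _
  have hlog3 : (1 : ℝ) ≤ Real.log x₂ := by
    have h3 : Real.exp 1 ≤ (x₂ : ℝ) := by
      have h4 : (3 : ℝ) ≤ (x₂ : ℝ) := by exact_mod_cast hx₂3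
      have h5 := Real.exp_one_lt_d9
      linarith
    calc (1 : ℝ) = Real.log (Real.exp 1) := (Real.log_exp 1).symm
      _ ≤ Real.log x₂ := Real.log_le_log (Real.exp_pos 1) h3
  set R : ℝ := γ' * ((2 * x₂ + 1 : ℕ) : ℝ) * Real.log x₂ / (γ - γ') with hR
  refine ⟨2 * x₂ + 1 + ⌈R⌉₊, ?_⟩
  intro u v hu hv hcard
  set T := St S u v with hT
  set T₁ := T.filter (fun s : ℤ => (x₂ : ℤ) ≤ |s|) with hT₁
  set T₂ := T.filter (fun s : ℤ => ¬ (x₂ : ℤ) ≤ |s|) with hT₂
  have hcards : T₁.card + T₂.card = T.card := Finset.card_filter_add_card_filter_not _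
  have hT₂c : T₂.card ≤ 2 * x₂ + 1 := by
    have h1 : T₂ ⊆ Finset.Icc (-(x₂ : ℤ)) x₂ := by
      intro s hs
      rw [hT₂, Finset.mem_filter] at hs
      have h2 : |s| ≤ (x₂ : ℤ) := by
        have := hs.2
        omega
      rw [Finset.mem_Icc]
      exact abs_le.1 h2
    have h2 := Finset.card_le_card h1
    rw [Int.card_Icc] at h2
    omega
  have hsum2 : ∑ s ∈ T₂, Real.log |(s : ℝ)| ≤ ((2 * x₂ + 1 : ℕ) : ℝ) * Real.log x₂ := by
    calc ∑ s ∈ T₂, Real.log |(s : ℝ)| ≤ ∑ _s ∈ T₂, Real.log x₂ := by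
          refine Finset.sum_le_sum fun s hs => ?_
          rw [hT₂, Finset.mem_filter] at hs
          by_cases h0 : s = 0
          · subst h0
            simp only [Int.cast_zero, abs_zero, Real.log_zero]
            linarith
          · have h2 : |s| ≤ (x₂ : ℤ) := by
              have := hs.2
              omega
            refine Real.log_le_log ?_ (by exact_mod_cast h2)
            rw [abs_pos]
            exact_mod_cast h0
      _ = (T₂.card : ℝ) * Real.log x₂ := by rw [Finset.sum_const, nsmul_eq_mul]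
      _ ≤ ((2 * x₂ + 1 : ℕ) : ℝ) * Real.log x₂ := by
          refine mul_le_mul_of_nonneg_right ?_ (by linarith)
          exact_mod_cast hT₂c
  have hsum1 : (T₁.card : ℝ) ≤ ∑ s ∈ T₁, Real.log |(s : ℝ)| := by
    calc (T₁.card : ℝ) = ∑ _s ∈ T₁, (1 : ℝ) := by rw [Finset.sum_const, nsmul_eq_mul, mul_one]
      _ ≤ ∑ s ∈ T₁, Real.log |(s : ℝ)| := by
          refine Finset.sum_le_sum fun s hs => ?_
          rw [hT₁, Finset.mem_filter] at hs
          refine hlog3.trans (Real.log_le_log ?_ (by exact_mod_cast hs.2))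
          have : (0 : ℕ) < x₂ := by omega
          exact_mod_cast this
  have hγγ : 0 < γ - γ' := by linarith
  have hT₁c : R ≤ (T₁.card : ℝ) := by
    have h1 : ⌈R⌉₊ ≤ T₁.card := by omega
    exact (Nat.le_ceil R).trans (by exact_mod_cast h1)
  have hRmul : γ' * ((2 * x₂ + 1 : ℕ) : ℝ) * Real.log x₂ ≤
      (γ - γ') * ∑ s ∈ T₁, Real.log |(s : ℝ)| := by
    have h1 : γ' * ((2 * x₂ + 1 : ℕ) : ℝ) * Real.log x₂ = (γ - γ') * R := by
      rw [hR]; field_simp
    rw [h1]
    exact mul_le_mul_of_nonneg_left (hT₁c.trans hsum1) hγγ.le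
  have hmain1 : γ * ∑ s ∈ T₁, Real.log |(s : ℝ)| ≤ ∑ s ∈ T₁, Real.log (gap S b s) := by
    rw [Finset.mul_sum]
    refine Finset.sum_le_sum fun s hs => ?_
    rw [hT₁, Finset.mem_filter, hT, mem_St] at hs
    refine hgap s hs.1.2 (le_trans (by exact_mod_cast hx₂1) hs.2) (le_trans ?_ hs.2)
    have : (1 : ℕ) ≤ x₂ := by omega
    exact_mod_cast this
  have hmain2 : 0 ≤ ∑ s ∈ T₂, Real.log (gap S b s) :=
    Finset.sum_nonneg fun s _ => Real.log_natCast_nonneg _
  have hsplit : ∀ f : ℤ → ℝ, ∑ s ∈ T, f s = ∑ s ∈ T₁, f s + ∑ s ∈ T₂, f s := by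
    intro f
    rw [hT₁, hT₂, Finset.sum_filter_add_sum_filter_not]
  rw [hsplit, hsplit]
  have h5 : γ' * ∑ s ∈ T₂, Real.log |(s : ℝ)| ≤
      γ' * (((2 * x₂ + 1 : ℕ) : ℝ) * Real.log x₂) := mul_le_mul_of_nonneg_left hsum2 hγ'.le
  nlinarith [hRmul, hmain1, hmain2, h5]

end Pool.Agent.Work.MP_b29d7f_sep
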