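import Pool.Agent.Work.MP_b29d7f_sep.B_LOW

/-!
# Block DEF: small defect at the early elements
-/

namespace Pool.Agent.Work.MP_b29d7f_sep

open Finset
open Pool.Agent.Work.MP_b29d7f_nt (IsPOrdering HasSimultaneousOrdering PS vd ld tv)
open Pool.Agent.Work.MP_b29d7f_half (Ord A wv lD K DK ld_nonneg card_A mem_A stmt_ORD stmt_VDM)

theorem stmt_DEF (hU : Stmt_UP) : Stmt_DEF := by
  classical
  intro S a c B C₂ hd ε hε hε1
  obtain ⟨hinj, hmem, -, -, -, hdef⟩ := stmt_ORD stmt_VDM S a hd.ord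
  obtain ⟨x₂, hU⟩ := hU S a c B C₂ hd ε hε hε1
  obtain ⟨x₀, hgrow⟩ := hd.grow
  set q := Real.sqrt ε with hq
  have hq0 : 0 < q := Real.sqrt_pos.mpr hε
  have hqq : q * q = ε := Real.mul_self_sqrt hε.le
  have hq1 : q ≤ 1 / 10 := by nlinarith
  obtain ⟨x₁, hx₁⟩ := ev_large ε (max (Real.log 2 / q) (2 * Real.log 2)) (by linarith)
  obtain ⟨x₃, hx₃⟩ := ev_large (1 - c) (3 + 4 * (1 / q)) (by linarith [hd.c_pos])
  refine ⟨max (max x₀ x₁) (max x₂ x₃), fun x N n hx hs k hnk hk z hz hzx P hP => ?_⟩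
  have hx0' : x₀ ≤ x := le_trans (le_trans (le_max_left _ _) (le_max_left _ _)) hx
  have hx1' : x₁ ≤ x := le_trans (le_trans (le_max_right _ _) (le_max_left _ _)) hx
  have hx2' : x₂ ≤ x := le_trans (le_trans (le_max_left _ _) (le_max_right _ _)) hx
  have hx3' : x₃ ≤ x := le_trans (le_trans (le_max_right _ _) (le_max_right _ _)) hx
  obtain ⟨hx1, hxL, -⟩ := hx₁ x hx1'
  obtain ⟨-, -, hxc⟩ := hx₃ x hx3'
  have hxc' : 3 + 4 * (1 / q) ≤ (x : ℝ) ^ c := by
    have : (1 : ℝ) - (1 - c) = c := by ring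
    rwa [this] at hxc
  have hL : Real.log 2 / q ≤ Real.log x := le_trans (le_max_left _ _) hxL
  have hL2 : 2 * Real.log 2 ≤ Real.log x := le_trans (le_max_right _ _) hxL
  have hlog2 : 0 < Real.log 2 := Real.log_pos (by norm_num)
  rw [div_le_iff₀ hq0] at hL
  have hLpos : 0 ≤ Real.log x := by linarith
  have hT : 0 ≤ (1 - ε) * Real.log x - Real.log 2 := by nlinarith
  have hN4 : (4 : ℝ) * n ≤ N := by exact_mod_cast hs.low
  have hN3 : (N : ℝ) ≤ 4 * n + 3 := by exact_mod_cast hs.high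
  have hnq : 1 ≤ q * n := by
    have h1 := hgrow x hx0'
    rw [hs.card] at h1
    have h2 : 1 / q ≤ n := by linarith
    rw [div_le_iff₀ hq0] at h2
    linarith
  have hk2 : (k : ℝ) ≤ 2 * n := by exact_mod_cast hk
  have hkn : (n : ℝ) ≤ k := by exact_mod_cast hnk
  have hn0 : (0 : ℝ) ≤ n := Nat.cast_nonneg _
  have hmem0 := hz
  have h1 := hdef P hP k z hz
  refine le_trans h1 ?_
  have h2 := hU x N n hx2' hs k (by have := hs.low; omega)
  have hXS : (((A a k).erase z : Finset ℤ) : Set ℤ) ⊆ S := by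
    intro y hy
    rw [Finset.mem_coe, Finset.mem_erase] at hy
    obtain ⟨i, -, hi⟩ := mem_A.mp hy.2
    rw [← hi]; exact hmem i
  have h3 := far_sum hs ((A a k).erase z) hXS z hzx hx1 hT
  have hk1 : 1 ≤ k := by
    obtain ⟨i, hi, -⟩ := mem_A.mp hz
    omega
  rw [Finset.card_erase_of_mem hz, card_A hinj, Nat.cast_sub hk1, Nat.cast_one] at h3
  set L := Real.log x with hLd
  -- lower bound for the potential
  have h4 : ((k : ℝ) - 1 - ε * N) * L - (k : ℝ) * (ε * L + q * L) ≤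
      ∑ y ∈ (A a k).erase z, ld z y := by
    refine le_trans ?_ h3
    have h5 : ((k : ℝ) - 1 - ε * N) * (ε * L + Real.log 2) ≤ (k : ℝ) * (ε * L + q * L) := by
      have h6 : (k : ℝ) - 1 - ε * N ≤ k := by
        have : 0 ≤ ε * N := by positivity
        linarith
      calc ((k : ℝ) - 1 - ε * N) * (ε * L + Real.log 2) ≤ k * (ε * L + Real.log 2) :=
            mul_le_mul_of_nonneg_right h6 (by positivity)
        _ ≤ k * (ε * L + q * L) := by
            refine mul_le_mul_of_nonneg_left ?_ (by positivity)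
            linarith
    linarith
  have h7 : lD a k - ∑ y ∈ (A a k).erase z, ld z y ≤
      (3 * q * N + 1 + ε * N + k * ε + k * q) * L := by
    nlinarith
  refine le_trans h7 ?_
  refine mul_le_mul_of_nonneg_right ?_ hLpos
  have h8 : ε * N ≤ q / 10 * (4 * n + 3) := by
    have : ε ≤ q / 10 := by nlinarith
    exact mul_le_mul this hN3 (by positivity) (by positivity)
  have h9 : (k : ℝ) * ε ≤ 2 * n * (q / 10) := by
    have : ε ≤ q / 10 := by nlinarith
    exact mul_le_mul hk2 this hε.le (by positivity)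
  have h10 : (k : ℝ) * q ≤ 2 * n * q := mul_le_mul_of_nonneg_right hk2 hq0.le
  have h11 : 3 * q * N ≤ 3 * q * (4 * n + 3) := mul_le_mul_of_nonneg_left hN3 (by positivity)
  nlinarith

end Pool.Agent.Work.MP_b29d7f_sep
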