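import Pool.Agent.Work.MP_b29d7f_sep.B_JB

/-!
# Block FIN: the final inequality
-/

namespace Pool.Agent.Work.MP_b29d7f_sep

open Finset
open Pool.Agent.Work.MP_b29d7f_nt (IsPOrdering HasSimultaneousOrdering PS vd ld tv vd_comm ld_comm
  vd_nonneg injective_of_ordering)
open Pool.Agent.Work.MP_b29d7f_half (Ord A wv lD K DK ld_nonneg)

theorem log_int_nonneg (s : ℤ) : 0 ≤ Real.log |(s : ℝ)| := by
  by_cases h : s = 0
  · subst h; simp
  · refine Real.log_nonneg ?_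
    have : 1 ≤ |s| := Int.one_le_abs h
    exact_mod_cast this

theorem Sep.mono {S : Set ℤ} {b n₀ : ℕ} {γ γ' : ℝ} (h : Sep S b γ n₀) (hg : γ' ≤ γ) :
    Sep S b γ' n₀ := by
  intro u v hu hv hn
  refine le_trans ?_ (h u v hu hv hn)
  exact mul_le_mul_of_nonneg_right hg (Finset.sum_nonneg fun s _ => log_int_nonneg s)

theorem stmt_FIN (hSIZE : Stmt_SIZE) (hGOOD : Stmt_GOOD) (hUP : Stmt_UP) (hJB : Stmt_JB)
    (hSMALL : Stmt_SMALL) (hSPACE : Stmt_SPACE) (hPAIRS : Stmt_PAIRS) (hNEAR : Stmt_NEAR)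
    (hWEIGHT : Stmt_WEIGHT) (hSUMW : Stmt_SUMW) : Stmt_FIN := by
  intro S a ho hpg b n₀ γ₁ hb hγ₁ hsep₁
  obtain ⟨c, B, C₂, hDat⟩ := hSIZE S a ho hpg
  -- reduce to `γ ≤ 1`
  set γ := min γ₁ 1 with hγdef
  have hsep : Sep S b γ n₀ := hsep₁.mono (min_le_left _ _)
  have hγ : 1 / 2 < γ := lt_min hγ₁ (by norm_num)
  have hγ1 : γ ≤ 1 := min_le_right _ _
  set η := (γ - 1 / 2) / 10 with hη
  have hη0 : 0 < η := by rw [hη]; linarith
  have hη1 : η ≤ 1 / 20 := by rw [hη]; linarith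
  have hγη : γ = 1 / 2 + 10 * η := by rw [hη]; ring
  have hC : (1 : ℝ) ≤ C₂ := by exact_mod_cast hDat.C_one
  set β := η / (8 * C₂) with hβ
  have hβ0 : 0 < β := by positivity
  have h8 : 8 * (C₂ : ℝ) * β = η := by
    rw [hβ]
    field_simp
  have hβ1 : β < 1 := by
    have e1 : 1 * β ≤ 8 * (C₂ : ℝ) * β := mul_le_mul_of_nonneg_right (by linarith) hβ0.le
    linarith
  obtain ⟨J, hJ⟩ := hJB S a c B C₂ hDat β hβ0 hβ1
  obtain ⟨M₀, hM₀⟩ := hWEIGHT.1 ((2 + J) / η + 2 * b / η + 1)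
  set M := max M₀ 1 with hM
  have hM1 : 1 ≤ M := le_max_right _ _
  have hQ := hM₀ M (le_max_left _ _)
  have hJ0 : (0 : ℝ) ≤ J := Nat.cast_nonneg J
  have hb0 : (1 : ℝ) ≤ b := by exact_mod_cast hb
  have hQ0 : 0 < Q1 M := by
    have h1 : 0 ≤ (2 + (J : ℝ)) / η := by positivity
    have h2 : 0 ≤ 2 * (b : ℝ) / η := by positivity
    linarith
  have hQJ : 2 + (J : ℝ) ≤ η * Q1 M := by
    have h2 : 0 ≤ 2 * (b : ℝ) / η := by positivity
    have h3 : (2 + (J : ℝ)) / η ≤ Q1 M := by linarith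
    rw [div_le_iff₀ hη0] at h3
    linarith
  have hQb : 2 * (b : ℝ) ≤ η * Q1 M := by
    have h2 : 0 ≤ (2 + (J : ℝ)) / η := by positivity
    have h3 : 2 * (b : ℝ) / η ≤ Q1 M := by linarith
    rw [div_le_iff₀ hη0] at h3
    linarith
  obtain ⟨ε₀, hε₀, hJ'⟩ := hJ M hM1
  set ε := min ε₀ (min (1 / 100) ((η / 61) ^ 2)) with hεdef
  have hε0 : 0 < ε := lt_min hε₀ (lt_min (by norm_num) (by positivity))
  have hε1 : ε ≤ ε₀ := min_le_left _ _
  have hε2 : ε ≤ 1 / 100 := (min_le_right _ _).trans (min_le_left _ _)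
  have hε3 : ε ≤ (η / 61) ^ 2 := (min_le_right _ _).trans (min_le_right _ _)
  have hs0 : 0 ≤ Real.sqrt ε := Real.sqrt_nonneg ε
  have hs : Real.sqrt ε ≤ η / 61 := by
    rw [Real.sqrt_le_left (by positivity)]
    exact hε3
  have hεη : 7 * ε ≤ η := by
    have e1 : (η / 61) ^ 2 ≤ η / 61 * 1 := by
      rw [pow_two]
      exact mul_le_mul_of_nonneg_left (by linarith) (by positivity)
    linarith
  obtain ⟨x₁, hx₁⟩ := hUP S a c B C₂ hDat ε hε0 hε2
  obtain ⟨x₂, hx₂⟩ := hJ' ε hε0 hε1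
  obtain ⟨x₃, hx₃⟩ := hSMALL S a c B C₂ hDat β hβ0 (by rw [h8]; linarith) ε hε0 hε2
  obtain ⟨x₄, hx₄⟩ := hSPACE S a c B C₂ hDat b n₀ γ hb (by linarith) hsep M ε hε0 hε2
  obtain ⟨x₅, hx₅⟩ := large_n hDat ε (M + 3)
  obtain ⟨x, N, n, hx, hsc⟩ := hGOOD S hpg ε hε0 (by linarith)
    (max (max (max x₁ x₂) (max x₃ x₄)) (max x₅ 2))
  have h1 : x₁ ≤ x := by
    exact (le_max_left _ _).trans ((le_max_left _ _).trans ((le_max_left _ _).trans hx))
  have h2 : x₂ ≤ x := by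
    exact (le_max_right _ _).trans ((le_max_left _ _).trans ((le_max_left _ _).trans hx))
  have h3 : x₃ ≤ x := by
    exact (le_max_left _ _).trans ((le_max_right _ _).trans ((le_max_left _ _).trans hx))
  have h4 : x₄ ≤ x := by
    exact (le_max_right _ _).trans ((le_max_right _ _).trans ((le_max_left _ _).trans hx))
  have h5 : x₅ ≤ x := (le_max_left _ _).trans ((le_max_right _ _).trans hx)
  have h6 : 2 ≤ x := (le_max_right _ _).trans ((le_max_right _ _).trans hx)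
  obtain ⟨hn, _, _⟩ := hx₅ x N n h5 hsc
  have hMn : M ≤ n := by omega
  have hn3 : (3 : ℝ) ≤ n := by exact_mod_cast (by omega : 3 ≤ n)
  have hL : 0 < Real.log x := Real.log_pos (by exact_mod_cast (by omega : 1 < x))
  have hNn : (N : ℝ) ≤ 5 * n := by
    have := hsc.high
    have h7 : (N : ℝ) ≤ 4 * n + 3 := by exact_mod_cast this
    linarith
  set X : ℝ := n * Real.log x with hX
  have hX0 : 0 < X := by positivity
  -- the pieces
  have eUP := hx₁ x N n h1 hsc n (by have := hsc.low; omega)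
  have eSM := hx₃ x N n h3 hsc
  have eSP := hx₄ x N n h4 hsc
  have eSW := hSUMW S a ho n M ⌊(n : ℝ) ^ β⌋₊ J hM1 hMn (hx₂ x N n h2 hsc)
  have ePA := hPAIRS (fun j i => ld (a j) (a i)) n M (fun i j => ld_nonneg _ _) hM1 hMn
  have eWS : WS (fun u m => ∑ j ∈ Ico u (u + m + 1), ∑ i ∈ Ico u j, ld (a j) (a i)) n M =
      WS (EL a) n M := rfl
  rw [eWS] at ePA
  have eNE : ∑ i ∈ Ico M (n - M + 1), (Q1 M - 2 * b) * Real.log (gap S b (a i)) ≤
      ∑ i ∈ Ico M (n - M + 1), ∑ d ∈ Icc 1 M, phi M d * ld (a (i + d)) (a i) :=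
    Finset.sum_le_sum fun i _ => hNEAR S a ho b M i hb
  rw [← Finset.mul_sum] at eNE
  have f1 : lD a n ≤ (1 + η) * X := by
    have e : ((n : ℝ) + 3 * Real.sqrt ε * N) * Real.log x ≤ (1 + η) * X := by
      have e1 : 3 * Real.sqrt ε * N ≤ η * n := by
        calc 3 * Real.sqrt ε * N ≤ 3 * Real.sqrt ε * (5 * n) :=
              mul_le_mul_of_nonneg_left hNn (by positivity)
          _ ≤ 3 * (η / 61) * (5 * n) := by
              refine mul_le_mul_of_nonneg_right ?_ (by positivity)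
              linarith
          _ = 15 / 61 * (η * n) := by ring
          _ ≤ η * n := by
              have : 0 ≤ η * (n : ℝ) := mul_nonneg hη0.le (by linarith)
              linarith
      calc ((n : ℝ) + 3 * Real.sqrt ε * N) * Real.log x ≤ ((n : ℝ) + η * n) * Real.log x :=
            mul_le_mul_of_nonneg_right (by linarith) hL.le
        _ = (1 + η) * X := by rw [hX]; ring
    exact eUP.trans e
  have f2 : ∑ p ∈ (⌊(n : ℝ) ^ β⌋₊).primesLE, Real.log p * wv p a n ≤ 2 * η * X := by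
    refine eSM.trans ?_
    rw [h8, hX]
    have e1 : η + 61 * Real.sqrt ε ≤ 2 * η := by linarith
    calc (n : ℝ) * ((η + 61 * Real.sqrt ε) * Real.log x) =
          (η + 61 * Real.sqrt ε) * (n * Real.log x) := by ring
      _ ≤ 2 * η * (n * Real.log x) := mul_le_mul_of_nonneg_right e1 (by positivity)
  have f3 : (γ - η) * X ≤ ∑ i ∈ Ico M (n - M + 1), Real.log (gap S b (a i)) := by
    refine le_trans ?_ eSP
    have e1 : γ - η ≤ γ * (1 - 7 * ε) := by
      have e2 : γ * (7 * ε) ≤ 1 * η := mul_le_mul hγ1 hεη (by positivity) (by norm_num)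
      linarith
    calc (γ - η) * X ≤ γ * (1 - 7 * ε) * X := mul_le_mul_of_nonneg_right e1 hX0.le
      _ = γ * (1 - 7 * ε) * n * Real.log x := by rw [hX]; ring
  have g1 : WS (EL a) n M ≤ Q1 M * (2 * η * X) + (Q1 M / 2 + η * Q1 M) * ((1 + η) * X) := by
    refine eSW.trans (add_le_add (mul_le_mul_of_nonneg_left f2 hQ0.le) ?_)
    refine mul_le_mul (by linarith) f1 ?_ (by positivity)
    unfold lD
    exact Finset.sum_nonneg fun i _ => ld_nonneg _ _
  have g2 : (1 - η) * Q1 M * ((γ - η) * X) ≤ WS (EL a) n M := by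
    refine le_trans ?_ (eNE.trans ePA)
    have e1 : η * Q1 M ≤ 1 / 20 * Q1 M := mul_le_mul_of_nonneg_right hη1 hQ0.le
    refine mul_le_mul (by linarith) f3 (mul_nonneg (by linarith) hX0.le) (by linarith)
  have g3 : (1 - η) * (γ - η) * (Q1 M * X) ≤
      (2 * η + (1 / 2 + η) * (1 + η)) * (Q1 M * X) := by
    calc (1 - η) * (γ - η) * (Q1 M * X) = (1 - η) * Q1 M * ((γ - η) * X) := by ring
      _ ≤ Q1 M * (2 * η * X) + (Q1 M / 2 + η * Q1 M) * ((1 + η) * X) := g2.trans g1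
      _ = _ := by ring
  have g4 : (1 - η) * (γ - η) ≤ 2 * η + (1 / 2 + η) * (1 + η) :=
    le_of_mul_le_mul_right g3 (mul_pos hQ0 hX0)
  have g5 : (1 - η) * (γ - η) = 1 / 2 + 8 * η + (η / 2 - 9 * η * η) := by
    rw [hγη]
    ring
  have g6 : 2 * η + (1 / 2 + η) * (1 + η) = 1 / 2 + 7 / 2 * η + η * η := by ring
  have g7 : η * η ≤ 1 / 20 * η := mul_le_mul_of_nonneg_right hη1 hη0.le
  rw [g5, g6] at g4
  linarith

end Pool.Agent.Work.MP_b29d7f_sep
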