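import Pool.Agent.Work.MP_b29d7f_sep.Interface

/-!
# GOOD: there are arbitrarily large good scales (note 2574, step 4)
-/

namespace Pool.Agent.Work.MP_b29d7f_sep
namespace GOOD

open Finset

theorem Nn_mono (S : Set ℤ) {x y : ℕ} (h : x ≤ y) : Nn S x ≤ Nn S y := by
  unfold Nn
  refine Finset.card_le_card ?_
  intro s hs
  rw [mem_St] at hs ⊢
  have h' : (x : ℤ) ≤ y := by exact_mod_cast h
  exact ⟨⟨by linarith [hs.1.1], by linarith [hs.1.2]⟩, hs.2⟩

end GOOD

open GOOD in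
theorem stmt_GOOD : Stmt_GOOD := by
  intro S hS ε hε hε1 x₁
  obtain ⟨c, hc, x₀, hx₀⟩ := hS
  have h1ε : 0 < 1 - ε := by linarith
  by_contra hcon
  -- the negation, in usable form
  have hbad : ∀ x : ℕ, x₁ ≤ x → ε * (Nn S x : ℝ) < (Nn S ⌊(x : ℝ) ^ (1 - ε)⌋₊ : ℝ) := by
    intro x hx
    by_contra h
    exact hcon ⟨x, Nn S x, Nn S x / 4, hx, rfl, not_lt.1 h, by omega, by omega⟩
  set θ : ℝ := 1 / (1 - ε) with hθ
  have hθ1 : 1 < θ := by
    rw [hθ, lt_div_iff₀ h1ε]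
    linarith
  set lam : ℝ := Real.log (1 / ε) with hlam
  have hlam0 : 0 < lam := by
    rw [hlam]
    apply Real.log_pos
    rw [lt_div_iff₀ hε]
    linarith
  -- the starting point
  obtain ⟨A, hA1, hA2, hA3⟩ : ∃ A : ℝ, 1 ≤ A ∧ Real.log (2 * ((x₀ : ℝ) + x₁ + 1)) ≤ A ∧
      lam + 1 ≤ c * A * (θ - 1) := by
    refine ⟨max 1 (max (Real.log (2 * ((x₀ : ℝ) + x₁ + 1))) ((lam + 1) / (c * (θ - 1)))),
      le_max_left _ _, (le_max_left _ _).trans (le_max_right _ _), ?_⟩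
    have h := (le_max_right (Real.log (2 * ((x₀ : ℝ) + x₁ + 1)))
      ((lam + 1) / (c * (θ - 1)))).trans (le_max_right 1 _)
    have hpos : 0 < c * (θ - 1) := mul_pos hc (by linarith)
    rw [div_le_iff₀ hpos] at h
    calc lam + 1 ≤ _ := h
      _ = _ := by ring
  set y : ℕ → ℝ := fun k => Real.exp (A * θ ^ k) with hy
  set z : ℕ → ℕ := fun k => ⌊y k⌋₊ with hz
  have hθk : ∀ k : ℕ, 1 + (k : ℝ) * (θ - 1) ≤ θ ^ k := by
    intro k
    have h := one_add_mul_le_pow (a := θ - 1) (by linarith) k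
    have e : (1 : ℝ) + (θ - 1) = θ := by ring
    rw [e] at h
    exact h
  have hyA : ∀ k, Real.exp A ≤ y k := by
    intro k
    apply Real.exp_le_exp.2
    have h := hθk k
    have h2 : (0 : ℝ) ≤ (k : ℝ) * (θ - 1) := mul_nonneg (Nat.cast_nonneg _) (by linarith)
    nlinarith
  have hy2 : ∀ k, (2 : ℝ) ≤ y k := by
    intro k
    refine le_trans ?_ (hyA k)
    have := Real.add_one_le_exp A
    linarith
  have hzy : ∀ k, y k / 2 ≤ (z k : ℝ) := by
    intro k
    have h1 : y k < (z k : ℝ) + 1 := Nat.lt_floor_add_one (y k)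
    have h2 := hy2 k
    linarith
  have hzle : ∀ k, (z k : ℝ) ≤ y k := fun k => Nat.floor_le (by linarith [hy2 k])
  have hzbig : ∀ k, (x₀ : ℝ) + x₁ + 1 ≤ z k := by
    intro k
    refine le_trans ?_ (hzy k)
    have h0 : (0 : ℝ) < 2 * ((x₀ : ℝ) + x₁ + 1) := by positivity
    have h1 : 2 * ((x₀ : ℝ) + x₁ + 1) ≤ Real.exp A := by
      rw [← Real.exp_log h0]
      exact Real.exp_le_exp.2 hA2
    have h2 := hyA k
    linarith
  have hz0 : ∀ k, x₀ ≤ z k := by
    intro k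
    have h := hzbig k
    have : (x₀ : ℝ) ≤ z k := by
      have : (0 : ℝ) ≤ x₁ := Nat.cast_nonneg _
      linarith
    exact_mod_cast this
  have hz1 : ∀ k, x₁ ≤ z k := by
    intro k
    have h := hzbig k
    have : (x₁ : ℝ) ≤ z k := by
      have : (0 : ℝ) ≤ x₀ := Nat.cast_nonneg _
      linarith
    exact_mod_cast this
  have hstep : ∀ k, ⌊((z (k + 1) : ℕ) : ℝ) ^ (1 - ε)⌋₊ ≤ z k := by
    intro k
    apply Nat.floor_le_floor
    calc ((z (k + 1) : ℕ) : ℝ) ^ (1 - ε) ≤ (y (k + 1)) ^ (1 - ε) :=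
          Real.rpow_le_rpow (Nat.cast_nonneg _) (hzle _) h1ε.le
      _ = y k := by
          simp only [hy]
          rw [← Real.exp_mul]
          congr 1
          have : θ * (1 - ε) = 1 := by
            rw [hθ]
            field_simp
          calc A * θ ^ (k + 1) * (1 - ε) = A * θ ^ k * (θ * (1 - ε)) := by ring
            _ = A * θ ^ k := by rw [this, mul_one]
  have hN : ∀ k, (Nn S (z k) : ℝ) ≤ (1 / ε) ^ k * (Nn S (z 0) : ℝ) := by
    intro k
    induction k with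
    | zero => simp
    | succ k ih =>
      have h1 := hbad (z (k + 1)) (hz1 (k + 1))
      have h2 : (Nn S ⌊((z (k + 1) : ℕ) : ℝ) ^ (1 - ε)⌋₊ : ℝ) ≤ (Nn S (z k) : ℝ) := by
        exact_mod_cast Nn_mono S (hstep k)
      have h3 : ε * (Nn S (z (k + 1)) : ℝ) ≤ (1 / ε) ^ k * (Nn S (z 0) : ℝ) := by linarith
      have h4 : (Nn S (z (k + 1)) : ℝ) ≤ ((1 / ε) ^ k * (Nn S (z 0) : ℝ)) / ε := by
        rw [le_div_iff₀ hε]
        linarith
      calc (Nn S (z (k + 1)) : ℝ) ≤ ((1 / ε) ^ k * (Nn S (z 0) : ℝ)) / ε := h4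
        _ = (1 / ε) ^ (k + 1) * (Nn S (z 0) : ℝ) := by
            rw [pow_succ]
            ring
  have hNpos : ∀ k, (y k / 2) ^ c ≤ (Nn S (z k) : ℝ) := by
    intro k
    refine le_trans ?_ (hx₀ (z k) (hz0 k))
    exact Real.rpow_le_rpow (by linarith [hy2 k]) (hzy k) hc.le
  have hC0 : (0 : ℝ) < (Nn S (z 0) : ℝ) :=
    lt_of_lt_of_le (Real.rpow_pos_of_pos (by linarith [hy2 0]) c) (hNpos 0)
  have hfin : ∀ k : ℕ, (k : ℝ) ≤ Real.log (Nn S (z 0) : ℝ) + c * Real.log 2 := by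
    intro k
    have h1 := (hNpos k).trans (hN k)
    have h2 : Real.log ((y k / 2) ^ c) ≤ Real.log ((1 / ε) ^ k * (Nn S (z 0) : ℝ)) :=
      Real.log_le_log (Real.rpow_pos_of_pos (by linarith [hy2 k]) c) h1
    rw [Real.log_rpow (by linarith [hy2 k]), Real.log_mul (by positivity) hC0.ne',
      Real.log_pow, Real.log_div (by linarith [hy2 k]) (by norm_num)] at h2
    have h3 : Real.log (y k) = A * θ ^ k := by simp only [hy, Real.log_exp]
    rw [h3, ← hlam] at h2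
    have h4 := hθk k
    have h5 : c * (A * (1 + (k : ℝ) * (θ - 1))) ≤ c * (A * θ ^ k) := by
      apply mul_le_mul_of_nonneg_left _ hc.le
      exact mul_le_mul_of_nonneg_left h4 (by linarith)
    have h6 : (k : ℝ) * (lam + 1) ≤ (k : ℝ) * (c * A * (θ - 1)) :=
      mul_le_mul_of_nonneg_left hA3 (Nat.cast_nonneg _)
    have h7 : 0 ≤ c * A := mul_nonneg hc.le (by linarith)
    nlinarith
  obtain ⟨k, hk⟩ := exists_nat_gt (Real.log (Nn S (z 0) : ℝ) + c * Real.log 2)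
  exact absurd (hfin k) (not_le.2 hk)

end Pool.Agent.Work.MP_b29d7f_sep
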