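import Pool.Agent.Work.MP_b29d7f_sep.Interface
import Pool.Agent.Work.MP_b29d7f_half.B_HIGH

/-!
# Gap rule: the high prime powers
-/

namespace Pool.Agent.Work.MP_b29d7f_sep

open Finset
open Pool.Agent.Work.MP_b29d7f_nt (IsPOrdering HasSimultaneousOrdering PS vd ld tv)
open Pool.Agent.Work.MP_b29d7f_half (Ord A wv lD K DK high_levels)

/-- `log p` times the valuation is at most the logarithm -/
theorem logmul_vd_le {p : ℕ} (hp : p.Prime) {z y : ℤ} (hne : z ≠ y) :
    Real.log p * vd p z y ≤ ld z y := by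
  have hx : z - y ≠ 0 := sub_ne_zero.mpr hne
  have h1 : (p : ℤ) ^ multiplicity (p : ℤ) (z - y) ∣ z - y := pow_multiplicity_dvd _ _
  have h2 : (p : ℤ) ^ multiplicity (p : ℤ) (z - y) ≤ |z - y| :=
    Int.le_of_dvd (abs_pos.mpr hx) ((dvd_abs _ _).mpr h1)
  have h3 : (p : ℝ) ^ multiplicity (p : ℤ) (z - y) ≤ |((z - y : ℤ) : ℝ)| := by
    rw [← Int.cast_abs]
    exact_mod_cast h2
  have hp0 : (0 : ℝ) < p := by exact_mod_cast hp.pos
  have h4 := Real.log_le_log (by positivity) h3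
  rw [Real.log_pow] at h4
  unfold vd ld
  rw [mul_comm]
  exact h4

theorem stmt_HIGHS : Stmt_HIGHS := by
  classical
  intro Z X ρ R Q T hR hZ hT hld
  have hπ : (Q.primesLE.card : ℝ) ≤ Q := by
    have h1 : Q.primesLE ⊆ Finset.Icc 1 Q := by
      intro p hp
      rw [Nat.mem_primesLE] at hp
      rw [Finset.mem_Icc]
      exact ⟨hp.2.one_lt.le, hp.1⟩
    have h2 := Finset.card_le_card h1
    rw [Nat.card_Icc] at h2
    exact_mod_cast (by omega : Q.primesLE.card ≤ Q)
  have hcomm : ∑ z ∈ Z, ∑ y ∈ X.erase z, ∑ p ∈ Q.primesLE,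
      Real.log p * (vd p z y - (tv p (Nat.log p R) (z - y) : ℝ)) =
      ∑ p ∈ Q.primesLE, ∑ y ∈ X, ∑ z ∈ Z.erase y,
        Real.log p * (vd p z y - (tv p (Nat.log p R) (z - y) : ℝ)) := by
    have h1 : ∑ z ∈ Z, ∑ y ∈ X.erase z, ∑ p ∈ Q.primesLE,
        Real.log p * (vd p z y - (tv p (Nat.log p R) (z - y) : ℝ)) =
        ∑ y ∈ X, ∑ z ∈ Z.erase y, ∑ p ∈ Q.primesLE,
        Real.log p * (vd p z y - (tv p (Nat.log p R) (z - y) : ℝ)) := by
      refine Finset.sum_comm' fun z y => ?_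
      simp only [Finset.mem_erase]
      constructor
      · rintro ⟨h1, h2, h3⟩; exact ⟨⟨h2.symm, h1⟩, h3⟩
      · rintro ⟨⟨h1, h2⟩, h3⟩; exact ⟨h2, h1.symm, h3⟩
    rw [h1, Finset.sum_congr rfl fun y _ => Finset.sum_comm]
    rw [Finset.sum_comm]
  rw [hcomm]
  have hmain : ∀ p ∈ Q.primesLE, ∑ y ∈ X, ∑ z ∈ Z.erase y,
      Real.log p * (vd p z y - (tv p (Nat.log p R) (z - y) : ℝ)) ≤ X.card * T := by
    intro p hpQ
    have hp : p.Prime := (Nat.mem_primesLE.mp hpQ).2
    have hlogp : 0 < Real.log p := Real.log_pos (by exact_mod_cast hp.one_lt)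
    set J := Nat.log p R with hJ
    have hJR : R < p ^ (J + 1) := Nat.lt_pow_succ_log_self hp.one_lt R
    rw [← nsmul_eq_mul]
    refine Finset.sum_le_card_nsmul _ _ _ fun y hy => ?_
    have hsub : ∑ z ∈ Z.erase y, Real.log p * (vd p z y - (tv p J (z - y) : ℝ)) =
        ∑ z ∈ (Z.erase y).filter (fun z => (p : ℤ) ^ (J + 1) ∣ z - y),
          Real.log p * (vd p z y - (tv p J (z - y) : ℝ)) := by
      symm
      refine Finset.sum_subset (Finset.filter_subset _ _) fun z hz hnz => ?_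
      have h1 : ¬ (p : ℤ) ^ (J + 1) ∣ z - y := fun h => hnz (Finset.mem_filter.mpr ⟨hz, h⟩)
      have hzy : z ≠ y := (Finset.mem_erase.mp hz).1
      have h2 := high_levels hp J (z - y).natAbs z y hzy (by rw [Int.abs_eq_natAbs])
      have h3 : ((range (z - y).natAbs).filter fun t => (p : ℤ) ^ (J + 1 + t) ∣ z - y) = ∅ := by
        rw [Finset.eq_empty_iff_forall_notMem]
        intro t ht
        rw [Finset.mem_filter] at ht
        exact h1 ((pow_dvd_pow _ (by omega)).trans ht.2)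
      rw [h3] at h2
      rw [h2]
      simp
    rw [hsub]
    have hcard : ((Z.erase y).filter (fun z => (p : ℤ) ^ (J + 1) ∣ z - y)).card ≤ 1 := by
      rw [Finset.card_le_one]
      intro z hz z' hz'
      rw [Finset.mem_filter, Finset.mem_erase] at hz hz'
      by_contra hne
      have h1 : (p : ℤ) ^ (J + 1) ∣ z - z' := by
        have := dvd_sub hz.2 hz'.2
        simpa using this
      have h2 : (p : ℤ) ^ (J + 1) ≤ |z - z'| :=
        Int.le_of_dvd (abs_pos.mpr (sub_ne_zero.mpr hne)) ((dvd_abs _ _).mpr h1)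
      have h3 := hZ z hz.1.2
      have h4 := hZ z' hz'.1.2
      have h5 : (R : ℤ) < (p : ℤ) ^ (J + 1) := by exact_mod_cast hJR
      rw [abs_le] at h3 h4
      have h6 : |z - z'| ≤ 2 * ρ := by
        rw [abs_le]; constructor <;> omega
      omega
    have hterm : ∀ z ∈ (Z.erase y).filter (fun z => (p : ℤ) ^ (J + 1) ∣ z - y),
        Real.log p * (vd p z y - (tv p J (z - y) : ℝ)) ≤ T := by
      intro z hz
      rw [Finset.mem_filter, Finset.mem_erase] at hz
      obtain ⟨⟨hzy, hzZ⟩, _⟩ := hz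
      have h1 := logmul_vd_le hp hzy
      have h2 := hld z hzZ y hy hzy
      have h3 : 0 ≤ Real.log p * (tv p J (z - y) : ℝ) := by positivity
      rw [mul_sub]
      linarith
    calc ∑ z ∈ (Z.erase y).filter (fun z => (p : ℤ) ^ (J + 1) ∣ z - y),
          Real.log p * (vd p z y - (tv p J (z - y) : ℝ))
        ≤ (((Z.erase y).filter (fun z => (p : ℤ) ^ (J + 1) ∣ z - y)).card : ℝ) * T := by
          rw [← nsmul_eq_mul]
          exact Finset.sum_le_card_nsmul _ _ _ hterm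
      _ ≤ 1 * T := by
          refine mul_le_mul_of_nonneg_right ?_ hT
          exact_mod_cast hcard
      _ = T := one_mul _
  calc ∑ p ∈ Q.primesLE, ∑ y ∈ X, ∑ z ∈ Z.erase y,
        Real.log p * (vd p z y - (tv p (Nat.log p R) (z - y) : ℝ))
      ≤ ∑ p ∈ Q.primesLE, (X.card : ℝ) * T := Finset.sum_le_sum hmain
    _ = Q.primesLE.card * (X.card * T) := by rw [Finset.sum_const, nsmul_eq_mul]
    _ ≤ Q * (X.card * T) := mul_le_mul_of_nonneg_right hπ (by positivity)
    _ = X.card * Q * T := by ring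

end Pool.Agent.Work.MP_b29d7f_sep
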