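import Pool.Agent.Work.MP_b29d7f_sep.Interface

/-!
# Block LOW: lower bound for the potentials at a good scale
-/

namespace Pool.Agent.Work.MP_b29d7f_sep

open Finset
open Pool.Agent.Work.MP_b29d7f_nt (IsPOrdering HasSimultaneousOrdering PS vd ld tv)
open Pool.Agent.Work.MP_b29d7f_half (Ord A wv lD K DK ld_nonneg card_A mem_A stmt_ORD stmt_VDM)

/-- few elements of `S` are small -/
theorem far_count {S : Set ℤ} {ε : ℝ} {x N n : ℕ} (hs : Sc S ε x N n) (X : Finset ℤ)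
    (hX : (X : Set ℤ) ⊆ S) :
    (X.card : ℝ) - ε * N ≤ ((X.filter fun y => ¬ |y| ≤ (⌊(x : ℝ) ^ (1 - ε)⌋₊ : ℤ)).card : ℝ) := by
  have h1 : (X.filter fun y => |y| ≤ (⌊(x : ℝ) ^ (1 - ε)⌋₊ : ℤ)).card ≤
      Nn S ⌊(x : ℝ) ^ (1 - ε)⌋₊ := by
    unfold Nn
    refine Finset.card_le_card fun y hy => ?_
    rw [Finset.mem_filter] at hy
    rw [mem_St]
    exact ⟨abs_le.mp hy.2, hX hy.1⟩
  have h2 := Finset.card_filter_add_card_filter_not (s := X)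
    (fun y => |y| ≤ (⌊(x : ℝ) ^ (1 - ε)⌋₊ : ℤ))
  have h3 : ((X.filter fun y => |y| ≤ (⌊(x : ℝ) ^ (1 - ε)⌋₊ : ℤ)).card : ℝ) +
      ((X.filter fun y => ¬ |y| ≤ (⌊(x : ℝ) ^ (1 - ε)⌋₊ : ℤ)).card : ℝ) = X.card := by
    exact_mod_cast h2
  have h4 : ((X.filter fun y => |y| ≤ (⌊(x : ℝ) ^ (1 - ε)⌋₊ : ℤ)).card : ℝ) ≤ ε * N :=
    le_trans (by exact_mod_cast h1) hs.good
  linarith

/-- lower bound for a potential -/
theorem far_sum {S : Set ℤ} {ε : ℝ} {x N n : ℕ} (hs : Sc S ε x N n) (X : Finset ℤ)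
    (hX : (X : Set ℤ) ⊆ S) (z : ℤ) (hz : (|z| : ℝ) ≤ (x : ℝ) ^ (1 - ε) / 2) (hx : 1 ≤ x)
    (hT : 0 ≤ (1 - ε) * Real.log x - Real.log 2) :
    ((X.card : ℝ) - ε * N) * ((1 - ε) * Real.log x - Real.log 2) ≤ ∑ y ∈ X, ld z y := by
  classical
  set T := (1 - ε) * Real.log x - Real.log 2 with hTd
  have hx0 : (0 : ℝ) < x := by exact_mod_cast hx
  have hpow : (0 : ℝ) < (x : ℝ) ^ (1 - ε) := Real.rpow_pos_of_pos hx0 _
  have h1 : ∀ y ∈ X.filter (fun y => ¬ |y| ≤ (⌊(x : ℝ) ^ (1 - ε)⌋₊ : ℤ)), T ≤ ld z y := by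
    intro y hy
    rw [Finset.mem_filter, not_le] at hy
    have h2 : (x : ℝ) ^ (1 - ε) ≤ (|y| : ℝ) := by
      have h3 : (x : ℝ) ^ (1 - ε) < (⌊(x : ℝ) ^ (1 - ε)⌋₊ : ℝ) + 1 := Nat.lt_floor_add_one _
      have h4 : ((⌊(x : ℝ) ^ (1 - ε)⌋₊ : ℤ) : ℝ) + 1 ≤ ((|y| : ℤ) : ℝ) := by
        exact_mod_cast hy.2
      push_cast at h4
      linarith
    have h5 : (x : ℝ) ^ (1 - ε) / 2 ≤ |(z : ℝ) - y| := by
      have := abs_sub_abs_le_abs_sub (y : ℝ) (z : ℝ)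
      rw [abs_sub_comm (y : ℝ) (z : ℝ)] at this
      linarith
    have h6 : T = Real.log ((x : ℝ) ^ (1 - ε) / 2) := by
      rw [Real.log_div hpow.ne' (by norm_num), Real.log_rpow hx0]
    rw [h6]
    unfold ld
    have h8 : Real.log ((x : ℝ) ^ (1 - ε) / 2) ≤ Real.log |(z : ℝ) - y| :=
      Real.log_le_log (by positivity) h5
    simpa using h8
  calc ((X.card : ℝ) - ε * N) * T
      ≤ ((X.filter fun y => ¬ |y| ≤ (⌊(x : ℝ) ^ (1 - ε)⌋₊ : ℤ)).card : ℝ) * T :=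
        mul_le_mul_of_nonneg_right (far_count hs X hX) hT
    _ = ∑ _y ∈ X.filter (fun y => ¬ |y| ≤ (⌊(x : ℝ) ^ (1 - ε)⌋₊ : ℤ)), T := by
        rw [Finset.sum_const, nsmul_eq_mul]
    _ ≤ ∑ y ∈ X.filter (fun y => ¬ |y| ≤ (⌊(x : ℝ) ^ (1 - ε)⌋₊ : ℤ)), ld z y :=
        Finset.sum_le_sum h1
    _ ≤ ∑ y ∈ X, ld z y :=
        Finset.sum_le_sum_of_subset_of_nonneg (Finset.filter_subset _ _)
          fun y _ _ => ld_nonneg z y

/-- the conditions on `x` which hold for large `x` -/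
theorem ev_large (ε K : ℝ) (hε : ε < 1) :
    ∃ x₁ : ℕ, ∀ x : ℕ, x₁ ≤ x → 1 ≤ x ∧ K ≤ Real.log x ∧ K ≤ (x : ℝ) ^ (1 - ε) := by
  have h1 : Filter.Tendsto (fun x : ℕ => Real.log (x : ℝ)) Filter.atTop Filter.atTop :=
    Real.tendsto_log_atTop.comp tendsto_natCast_atTop_atTop
  have h2 : Filter.Tendsto (fun x : ℕ => (x : ℝ) ^ (1 - ε)) Filter.atTop Filter.atTop :=
    (tendsto_rpow_atTop (by linarith)).comp tendsto_natCast_atTop_atTop
  have h3 := (Filter.eventually_ge_atTop 1).and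
    ((h1.eventually_ge_atTop K).and (h2.eventually_ge_atTop K))
  exact Filter.eventually_atTop.mp h3

theorem stmt_LOW (hA : Stmt_ARCHO) : Stmt_LOW := by
  classical
  intro S a c B C₂ hd ε hε hε1
  obtain ⟨hinj, hmem, -⟩ := stmt_ORD stmt_VDM S a hd.ord
  obtain ⟨hA1, -, hA3, -⟩ := hA S a hd.ord
  obtain ⟨x₁, hx₁⟩ := ev_large ε (max (2 * |(a 0 : ℝ)|) (max (Real.log 2 / ε) (2 * Real.log 2)))
    (by linarith)
  refine ⟨x₁, fun x N n hx hs k hk => ?_⟩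
  obtain ⟨hx1, hxL, hxP⟩ := hx₁ x hx
  have hL : Real.log 2 / ε ≤ Real.log x :=
    le_trans (le_trans (le_max_left _ _) (le_max_right _ _)) hxL
  have hL2 : 2 * Real.log 2 ≤ Real.log x :=
    le_trans (le_trans (le_max_right _ _) (le_max_right _ _)) hxL
  have hP : 2 * |(a 0 : ℝ)| ≤ (x : ℝ) ^ (1 - ε) := le_trans (le_max_left _ _) hxP
  have hlog2 : 0 < Real.log 2 := Real.log_pos (by norm_num)
  rw [div_le_iff₀ hε] at hL
  have hLpos : 0 ≤ Real.log x := by linarith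
  have hT : 0 ≤ (1 - ε) * Real.log x - Real.log 2 := by nlinarith
  have hk' : (k : ℝ) ≤ N := by exact_mod_cast hk
  have hN : (0 : ℝ) ≤ N := Nat.cast_nonneg _
  have hk0 : (0 : ℝ) ≤ k := Nat.cast_nonneg _
  by_cases hneg : (k : ℝ) - ε * N < 0
  · have h1 : (k : ℝ) - 3 * ε * N ≤ 0 := by nlinarith
    exact le_trans (mul_nonpos_of_nonpos_of_nonneg h1 hLpos) (hA3 k)
  push Not at hneg
  have hmem0 : a 0 ∈ A a (k + 1) := mem_A.mpr ⟨0, Nat.succ_pos _, rfl⟩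
  have h1 := hA1 k (a 0) hmem0
  have hXS : (((A a (k + 1)).erase (a 0) : Finset ℤ) : Set ℤ) ⊆ S := by
    intro y hy
    rw [Finset.mem_coe, Finset.mem_erase] at hy
    obtain ⟨i, -, hi⟩ := mem_A.mp hy.2
    rw [← hi]; exact hmem i
  have h2 := far_sum hs ((A a (k + 1)).erase (a 0)) hXS (a 0)
    (by have e : ((|a 0| : ℤ) : ℝ) = |(a 0 : ℝ)| := by push_cast; rfl
        linarith) hx1 hT
  rw [Finset.card_erase_of_mem hmem0, card_A hinj, Nat.add_sub_cancel] at h2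
  refine le_trans ?_ (le_trans h2 h1)
  have h3 : ((k : ℝ) - ε * N) * (ε * Real.log x + Real.log 2) ≤ 2 * ε * N * Real.log x := by
    have h4 : ((k : ℝ) - ε * N) ≤ N := by nlinarith
    calc ((k : ℝ) - ε * N) * (ε * Real.log x + Real.log 2)
        ≤ N * (ε * Real.log x + Real.log 2) :=
          mul_le_mul_of_nonneg_right h4 (by positivity)
      _ ≤ N * (ε * Real.log x + Real.log x * ε) := by gcongr
      _ = 2 * ε * N * Real.log x := by ring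
  nlinarith

end Pool.Agent.Work.MP_b29d7f_sep
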