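import Pool.Agent.Work.MP_b29d7f_sep.Interface

/-!
# Gap rule: block NEAR
-/

namespace Pool.Agent.Work.MP_b29d7f_sep

open Finset
open Pool.Agent.Work.MP_b29d7f_nt
open Pool.Agent.Work.MP_b29d7f_half

theorem stmt_NEAR (hW : Stmt_WEIGHT) : Stmt_NEAR := by
  classical
  intro S a ho b M i hb
  have hinj : Function.Injective a :=
    injective_of_ordering ho.inf Nat.prime_two (ho.ord 2 Nat.prime_two)
  have hmem : ∀ k, a k ∈ S := fun k => (ho.ord 2 Nat.prime_two).1 k
  obtain ⟨hsum, hphi⟩ := hW.2 M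
  set g : ℕ := gap S b (a i) with hg
  have hlog : 0 ≤ Real.log (g : ℝ) := Real.log_natCast_nonneg _
  rcases Nat.eq_zero_or_pos g with h0 | h0
  · have hz : Real.log (g : ℝ) = 0 := by rw [h0]; simp
    rw [hz, mul_zero]
    refine Finset.sum_nonneg fun d hd => ?_
    rw [Finset.mem_Icc] at hd
    exact mul_nonneg (hphi d hd.1).1 (ld_nonneg _ _)
  · -- the near indices
    set D : Finset ℕ := (Icc 1 M).filter (fun d => |a (i + d) - a i| < (g : ℤ)) with hD
    have hcard : D.card ≤ b := by
      have h1 : ¬ b ≤ ((St S (a i - ((g - 1 : ℕ) : ℤ)) (a i + ((g - 1 : ℕ) : ℤ))).erase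
          (a i)).card := by
        have h2 : (g - 1 : ℕ) < gap S b (a i) := by omega
        exact Nat.notMem_of_lt_sInf (s := {r : ℕ | b ≤ ((St S (a i - r) (a i + r)).erase
          (a i)).card}) h2
      have h3 : D.card ≤ ((St S (a i - ((g - 1 : ℕ) : ℤ)) (a i + ((g - 1 : ℕ) : ℤ))).erase
          (a i)).card := by
        refine Finset.card_le_card_of_injOn (fun d => a (i + d)) ?_ ?_
        · intro d hd
          have hd' := hd
          rw [Finset.mem_coe, hD, Finset.mem_filter, Finset.mem_Icc] at hd'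
          obtain ⟨⟨hd1, _⟩, hd3⟩ := hd'
          rw [Finset.mem_coe, Finset.mem_erase, mem_St]
          refine ⟨?_, ⟨?_, ?_⟩, hmem _⟩
          · intro h
            have := hinj h
            omega
          · have := (abs_lt.1 hd3).1
            show a i - ((g - 1 : ℕ) : ℤ) ≤ a (i + d)
            omega
          · have := (abs_lt.1 hd3).2
            show a (i + d) ≤ a i + ((g - 1 : ℕ) : ℤ)
            omega
        · intro d _ d' _ h
          have := hinj h
          omega
      omega
    -- far indices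
    have hfar : ∀ d ∈ (Icc 1 M).filter (fun d => ¬ |a (i + d) - a i| < (g : ℤ)),
        phi M d * Real.log (g : ℝ) ≤ phi M d * ld (a (i + d)) (a i) := by
      intro d hd
      rw [Finset.mem_filter, Finset.mem_Icc] at hd
      refine mul_le_mul_of_nonneg_left ?_ (hphi d hd.1.1).1
      unfold ld
      refine Real.log_le_log (by exact_mod_cast h0) ?_
      have h4 : (g : ℤ) ≤ |a (i + d) - a i| := not_lt.1 hd.2
      have h5 : ((g : ℤ) : ℝ) ≤ ((|a (i + d) - a i| : ℤ) : ℝ) := by exact_mod_cast h4
      rw [Int.cast_abs] at h5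
      simpa using h5
    have hnear : ∀ d ∈ D, 0 ≤ phi M d * ld (a (i + d)) (a i) := by
      intro d hd
      rw [hD, Finset.mem_filter, Finset.mem_Icc] at hd
      exact mul_nonneg (hphi d hd.1.1).1 (ld_nonneg _ _)
    have hD2 : ∑ d ∈ D, phi M d ≤ 2 * b := by
      have h6 : ∑ d ∈ D, phi M d ≤ ∑ d ∈ D, (2 : ℝ) := by
        refine Finset.sum_le_sum fun d hd => ?_
        rw [hD, Finset.mem_filter, Finset.mem_Icc] at hd
        exact (hphi d hd.1.1).2
      rw [Finset.sum_const, nsmul_eq_mul] at h6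
      have h7 : (D.card : ℝ) ≤ b := by exact_mod_cast hcard
      linarith
    have hsplit := Finset.sum_filter_add_sum_filter_not (Icc 1 M)
      (fun d => |a (i + d) - a i| < (g : ℤ)) (fun d => phi M d * ld (a (i + d)) (a i))
    have hsplit2 := Finset.sum_filter_add_sum_filter_not (Icc 1 M)
      (fun d => |a (i + d) - a i| < (g : ℤ)) (fun d => phi M d)
    have h8 : ∑ d ∈ (Icc 1 M).filter (fun d => ¬ |a (i + d) - a i| < (g : ℤ)),
        phi M d * Real.log (g : ℝ) ≤
        ∑ d ∈ (Icc 1 M).filter (fun d => ¬ |a (i + d) - a i| < (g : ℤ)),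
          phi M d * ld (a (i + d)) (a i) := Finset.sum_le_sum hfar
    have h9 : 0 ≤ ∑ d ∈ D, phi M d * ld (a (i + d)) (a i) := Finset.sum_nonneg hnear
    rw [← Finset.sum_mul] at h8
    rw [← hD] at hsplit hsplit2
    have h10 : (Q1 M - 2 * b) * Real.log (g : ℝ) ≤
        (∑ d ∈ (Icc 1 M).filter (fun d => ¬ |a (i + d) - a i| < (g : ℤ)), phi M d) *
          Real.log (g : ℝ) := by
      refine mul_le_mul_of_nonneg_right ?_ hlog
      linarith
    linarith

end Pool.Agent.Work.MP_b29d7f_sep
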