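import Pool.Agent.Work.MP_b29d7f_sep.Interface

/-!
# Block PAIRS: the sum over the windows counts each inner pair with the weight `phi`
-/

namespace Pool.Agent.Work.MP_b29d7f_sep

open Finset

/-- for one window length `m` -/
private lemma pairs_fixed (f : ℕ → ℕ → ℝ) (n M m : ℕ) (hf : ∀ i j, 0 ≤ f j i) (hm : m ≤ M)
    (hn : M ≤ n) :
    ∑ i ∈ Ico M (n - M + 1), ∑ d ∈ Icc 1 m, ∑ _e ∈ range (m - d + 1), f (i + d) i ≤
      ∑ u ∈ range (n - m + 1), ∑ j ∈ Ico u (u + m + 1), ∑ i ∈ Ico u j, f j i := by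
  rw [Finset.sum_sigma', Finset.sum_sigma', Finset.sum_sigma', Finset.sum_sigma']
  set A : Finset ((_ : (_ : ℕ) × ℕ) × ℕ) :=
    ((Ico M (n - M + 1)).sigma fun _ => Icc 1 m).sigma fun x => range (m - x.2 + 1) with hA
  set B : Finset ((_ : (_ : ℕ) × ℕ) × ℕ) :=
    ((range (n - m + 1)).sigma fun u => Ico u (u + m + 1)).sigma fun x => Ico x.1 x.2 with hB
  set e : ((_ : (_ : ℕ) × ℕ) × ℕ) → ((_ : (_ : ℕ) × ℕ) × ℕ) := fun x =>
    ⟨⟨x.1.1 - x.2, x.1.1 + x.1.2⟩, x.1.1⟩ with he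
  have hinj : Set.InjOn e A := by
    rintro ⟨⟨i, d⟩, k⟩ h1 ⟨⟨i', d'⟩, k'⟩ h2 h
    simp only [hA, Finset.coe_sigma, Set.mem_sigma_iff, Finset.mem_coe, mem_Ico, mem_Icc,
      mem_range] at h1 h2
    simp only [he, Sigma.mk.injEq, heq_eq_eq] at h
    simp only [Sigma.mk.injEq, heq_eq_eq]
    refine ⟨⟨?_, ?_⟩, ?_⟩ <;> omega
  have hmap : ∀ x ∈ A, e x ∈ B := by
    rintro ⟨⟨i, d⟩, k⟩ h1
    simp only [hA, Finset.mem_sigma, mem_Ico, mem_Icc, mem_range] at h1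
    simp only [hB, he, Finset.mem_sigma, mem_Ico, mem_range]
    refine ⟨⟨?_, ?_, ?_⟩, ?_, ?_⟩ <;> omega
  calc ∑ x ∈ A, f (x.1.1 + x.1.2) x.1.1 = ∑ x ∈ A, f (e x).1.2 (e x).2 := rfl
    _ = ∑ y ∈ A.image e, f y.1.2 y.2 :=
        (Finset.sum_image (f := fun y : ((_ : (_ : ℕ) × ℕ) × ℕ) => f y.1.2 y.2) hinj).symm
    _ ≤ ∑ y ∈ B, f y.1.2 y.2 := by
        refine Finset.sum_le_sum_of_subset_of_nonneg ?_ fun _ _ _ => hf _ _
        intro y hy
        obtain ⟨x, hx, rfl⟩ := Finset.mem_image.1 hy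
        exact hmap x hx

theorem stmt_PAIRS : Stmt_PAIRS := by
  intro f n M hf hM hn
  have hL : ∑ i ∈ Ico M (n - M + 1), ∑ d ∈ Icc 1 M, phi M d * f (i + d) i =
      ∑ m ∈ Icc 1 M, (1 / (m : ℝ) ^ 3) *
        ∑ i ∈ Ico M (n - M + 1), ∑ d ∈ Icc 1 m, ∑ _e ∈ range (m - d + 1), f (i + d) i := by
    simp only [Finset.mul_sum]
    rw [Finset.sum_comm' (s := Icc 1 M) (t := fun _ => Ico M (n - M + 1))
      (s' := fun _ => Icc 1 M) (t' := Ico M (n - M + 1)) (fun x y => by simp [and_comm])]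
    refine Finset.sum_congr rfl fun i _ => ?_
    rw [Finset.sum_comm' (s := Icc 1 M) (t := fun m => Icc 1 m)
      (s' := fun d => Icc d M) (t' := Icc 1 M) (fun x y => by
        simp only [mem_Icc]; omega)]
    refine Finset.sum_congr rfl fun d hd => ?_
    unfold phi
    rw [Finset.sum_mul]
    refine Finset.sum_congr rfl fun m hm => ?_
    rw [mem_Icc] at hd hm
    rw [← Finset.mul_sum, Finset.sum_const, card_range, nsmul_eq_mul]
    have h1 : ((m - d + 1 : ℕ) : ℝ) = (m : ℝ) + 1 - d := by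
      rw [Nat.cast_add, Nat.cast_sub hm.1]
      push_cast
      ring
    rw [h1]
    ring
  rw [hL]
  unfold WS
  refine Finset.sum_le_sum fun m hm => ?_
  rw [mem_Icc] at hm
  exact mul_le_mul_of_nonneg_left (pairs_fixed f n M m hf hm.2 hn) (by positivity)

end Pool.Agent.Work.MP_b29d7f_sep
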