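import Pool.Agent.Work.MP_b29d7f_sep.Interface

/-!
# Gap rule, block SMALL: the small primes carry little (helper32)
-/

namespace Pool.Agent.Work.MP_b29d7f_sep

open Finset
open Pool.Agent.Work.MP_b29d7f_nt (IsPOrdering HasSimultaneousOrdering PS vd ld tv vd_comm)
open Pool.Agent.Work.MP_b29d7f_half (Ord A wv lD K DK)

namespace SMALL32

lemma K_nonneg (Q R : ℕ) (x y : ℤ) : 0 ≤ K Q R x y := by
  unfold K
  refine Finset.sum_nonneg fun p _ => mul_nonneg (Real.log_natCast_nonneg p) (Nat.cast_nonneg _)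

lemma DK_nonneg (Q R : ℕ) : 0 ≤ DK Q R := by
  unfold DK
  refine Finset.sum_nonneg fun p _ => mul_nonneg (Real.log_natCast_nonneg p) (Nat.cast_nonneg _)

lemma wv_nonneg (p : ℕ) (a : ℕ → ℤ) (n : ℕ) : 0 ≤ wv p a n := by
  rw [wv_eq_nv]
  exact Nat.cast_nonneg _

theorem sum_log_vd_le (Q : ℕ) {x y : ℤ} (h : x ≠ y) :
    ∑ p ∈ Q.primesLE, Real.log p * vd p x y ≤ ld x y := by
  have hpr : ∀ p ∈ Q.primesLE ∪ (x - y).natAbs.primeFactors, p.Prime := by
    intro p hp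
    rw [Finset.mem_union] at hp
    rcases hp with hp | hp
    · exact (Nat.mem_primesLE.mp hp).2
    · exact Nat.prime_of_mem_primeFactors hp
  have hxy : x - y ≠ 0 := sub_ne_zero.mpr h
  have e : ld x y = ∑ p ∈ Q.primesLE ∪ (x - y).natAbs.primeFactors, Real.log p * vd p x y := by
    unfold ld vd
    rw [Pool.Agent.Work.MP_b29d7f_nt.log_eq_sum (x - y) hxy _ hpr]
    · exact Finset.sum_congr rfl fun _ _ => mul_comm _ _
    · intro p hp hm
      rw [Finset.mem_union]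
      right
      rw [Nat.mem_primeFactors]
      refine ⟨hp, ?_, Int.natAbs_ne_zero.mpr hxy⟩
      have h1 : (p : ℤ) ∣ x - y := by
        by_contra hcon
        exact hm (multiplicity_eq_zero.mpr hcon)
      exact Int.natCast_dvd.mp h1
  rw [e]
  refine Finset.sum_le_sum_of_subset_of_nonneg Finset.subset_union_left fun p _ _ =>
    mul_nonneg (Real.log_natCast_nonneg p) ?_
  unfold vd
  exact Nat.cast_nonneg _

theorem core {S : Set ℤ} {a : ℕ → ℤ} (hO : Ord S a) (h3 : Stmt_HIGHS) (n P Q ρ R : ℕ)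
    (E T l : ℝ) (hP : 1 ≤ P) (hPn : P ≤ n) (hR : R = 2 * ρ + 1)
    (hD : ∀ z ∈ A a P, ∑ p ∈ Q.primesLE,
      Real.log p * (wv p a n - ∑ y ∈ (A a n).erase z, vd p z y) ≤ E)
    (hρ : ∀ z ∈ A a P, |z| ≤ (ρ : ℤ)) (hT0 : 0 ≤ T)
    (hT : ∀ z ∈ A a P, ∀ y ∈ A a n, z ≠ y → ld z y ≤ T)
    (hl0 : 0 ≤ l) (hl : ∀ z ∈ A a P, ∀ y ∈ A a P, z ≠ y → ld z y ≤ l) :
    ∑ p ∈ Q.primesLE, Real.log p * wv p a n ≤
      n * (DK Q R / P + l) + DK Q R + 2 * (n * Q * T / P) + 2 * E := by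
  obtain ⟨hinj, hS, -, hO4, hO5, hO6⟩ := Pool.Agent.Work.MP_b29d7f_half.stmt_ORD
    Pool.Agent.Work.MP_b29d7f_half.stmt_VDM S a hO
  set W : ℝ := ∑ p ∈ Q.primesLE, Real.log p * wv p a n with hW
  have hcP : (A a P).card = P := Pool.Agent.Work.MP_b29d7f_half.card_A hinj P
  have hcn : (A a n).card = n := Pool.Agent.Work.MP_b29d7f_half.card_A hinj n
  have hR1 : 1 ≤ R := by omega
  have hPr : (0 : ℝ) < P := by exact_mod_cast hP
  have hnr : (0 : ℝ) < n := by exact_mod_cast (by omega : 0 < n)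
  have hDK0 := DK_nonneg Q R
  have hW0 : 0 ≤ W := Finset.sum_nonneg fun p _ =>
    mul_nonneg (Real.log_natCast_nonneg p) (wv_nonneg p a n)
  -- sum of the defects
  have e1 : (P : ℝ) * W - ∑ z ∈ A a P, ∑ y ∈ (A a n).erase z, ∑ p ∈ Q.primesLE,
      Real.log p * vd p z y ≤ P * E := by
    have h := Finset.sum_le_sum hD
    rw [Finset.sum_const, hcP, nsmul_eq_mul] at h
    refine le_trans (le_of_eq ?_) h
    have : ∀ z ∈ A a P, ∑ p ∈ Q.primesLE,
        Real.log p * (wv p a n - ∑ y ∈ (A a n).erase z, vd p z y) =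
        W - ∑ y ∈ (A a n).erase z, ∑ p ∈ Q.primesLE, Real.log p * vd p z y := by
      intro z _
      rw [Finset.sum_comm, hW, ← Finset.sum_sub_distrib]
      refine Finset.sum_congr rfl fun p _ => ?_
      rw [mul_sub, Finset.mul_sum]
    rw [Finset.sum_congr rfl this, Finset.sum_sub_distrib, Finset.sum_const, hcP, nsmul_eq_mul]
  -- high powers
  have e2 := h3 (A a P) (A a n) ρ R Q T hR hρ hT0 hT
  rw [hcn] at e2
  have e3 : ∑ z ∈ A a P, ∑ y ∈ (A a n).erase z, ∑ p ∈ Q.primesLE,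
      Real.log p * (vd p z y - (tv p (Nat.log p R) (z - y) : ℝ)) =
      ∑ z ∈ A a P, ∑ y ∈ (A a n).erase z, ∑ p ∈ Q.primesLE, Real.log p * vd p z y -
      ∑ z ∈ A a P, ∑ y ∈ (A a n).erase z, K Q R z y := by
    rw [← Finset.sum_sub_distrib]
    refine Finset.sum_congr rfl fun z _ => ?_
    rw [← Finset.sum_sub_distrib]
    refine Finset.sum_congr rfl fun y _ => ?_
    unfold K
    rw [← Finset.sum_sub_distrib]
    refine Finset.sum_congr rfl fun p _ => ?_
    ring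
  have e4 : ∑ z ∈ A a P, ∑ y ∈ (A a n).erase z, K Q R z y ≤
      ∑ z ∈ A a P, ∑ y ∈ A a n, K Q R z y :=
    Finset.sum_le_sum fun z _ => Finset.sum_le_sum_of_subset_of_nonneg (Finset.erase_subset _ _)
      fun y _ _ => K_nonneg Q R z y
  -- Cauchy-Schwarz
  have e5 := Pool.Agent.Work.MP_b29d7f_half.stmt_CS Q R (A a P) (A a n)
  obtain ⟨k1, -⟩ := Pool.Agent.Work.MP_b29d7f_half.stmt_KSUM Q R hR1
  have kZ : ∑ x ∈ A a P, ∑ y ∈ A a P, K Q R x y ≤ (P : ℝ) ^ 2 * (DK Q R / P + l) := by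
    have g1 : ∀ x ∈ A a P, ∑ y ∈ A a P, K Q R x y ≤ DK Q R + P * l := by
      intro x hx
      rw [← Finset.add_sum_erase _ _ hx, Pool.Agent.Work.MP_b29d7f_half.KSUM94.K_self]
      refine add_le_add le_rfl ?_
      have g2 : ∀ y ∈ (A a P).erase x, K Q R x y ≤ l := by
        intro y hy
        have hne : x ≠ y := (Finset.ne_of_mem_erase hy).symm
        refine (Pool.Agent.Work.MP_b29d7f_half.KSUM94.K_le Q R hne).trans ?_
        refine le_trans ?_ (hl x hx y (Finset.mem_of_mem_erase hy) hne)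
        have hxy : x - y ≠ 0 := sub_ne_zero.mpr hne
        exact sum_log_vd_le Q hne
      refine (Finset.sum_le_sum g2).trans ?_
      rw [Finset.sum_const, nsmul_eq_mul]
      refine mul_le_mul_of_nonneg_right ?_ hl0
      have := Finset.card_le_card (Finset.erase_subset x (A a P))
      rw [hcP] at this
      exact_mod_cast this
    refine (Finset.sum_le_sum g1).trans (le_of_eq ?_)
    rw [Finset.sum_const, hcP, nsmul_eq_mul]
    field_simp
  have kX : ∑ x ∈ A a n, ∑ y ∈ A a n, K Q R x y ≤ n * (DK Q R + W) := by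
    refine (k1 (A a n)).trans ?_
    rw [hcn, mul_add]
    refine add_le_add le_rfl ?_
    rw [hW, Finset.mul_sum, Finset.mul_sum]
    refine Finset.sum_le_sum fun p hp => ?_
    have hpp : p.Prime := (Nat.mem_primesLE.mp hp).2
    have h2 : 2 * PS (vd p) (A a n) ≤ n * wv p a n := by
      rw [Pool.Agent.Work.MP_b29d7f_half.two_PS (vd p) (vd_comm p)]
      refine (Finset.sum_le_sum fun z hz => hO5 p hpp n z hz).trans (le_of_eq ?_)
      rw [Finset.sum_const, hcn, nsmul_eq_mul]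
    have h0 : 0 ≤ Real.log p := Real.log_natCast_nonneg p
    nlinarith [mul_le_mul_of_nonneg_left h2 h0]
  set s : ℝ := ∑ z ∈ A a P, ∑ y ∈ A a n, K Q R z y with hs
  have ha0 : 0 ≤ DK Q R / P + l := by positivity
  have e6 : s ≤ P * (n * (DK Q R / P + l) + (DK Q R + W)) / 2 := by
    have h7 : s ^ 2 ≤ (P * (n * (DK Q R / P + l) + (DK Q R + W)) / 2) ^ 2 := by
      refine e5.trans ?_
      have h8 : (∑ x ∈ A a P, ∑ y ∈ A a P, K Q R x y) * ∑ x ∈ A a n, ∑ y ∈ A a n, K Q R x y ≤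
          ((P : ℝ) ^ 2 * (DK Q R / P + l)) * (n * (DK Q R + W)) :=
        mul_le_mul kZ kX (Finset.sum_nonneg fun x _ => Finset.sum_nonneg fun y _ =>
          K_nonneg Q R x y) (by positivity)
      refine h8.trans ?_
      have h9 : (0 : ℝ) ≤ (P : ℝ) ^ 2 * (n * (DK Q R / P + l) - (DK Q R + W)) ^ 2 := by positivity
      nlinarith [h9]
    exact (le_abs_self s).trans (abs_le_of_sq_le_sq h7 (by positivity))
  have e7 : (P : ℝ) * W ≤ P * (n * (DK Q R / P + l) + (DK Q R + W)) / 2 + n * Q * T + P * E := by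
    linarith
  have e8 : W ≤ (n * (DK Q R / P + l) + (DK Q R + W)) / 2 + n * Q * T / P + E := by
    have h10 : W = P * W / P := by field_simp
    rw [h10]
    rw [div_le_iff₀ hPr]
    have h11 : (((n : ℝ) * (DK Q R / P + l) + (DK Q R + P * W / P)) / 2 + n * Q * T / P + E) * P =
      P * (n * (DK Q R / P + l) + (DK Q R + W)) / 2 + n * Q * T + P * E := by
      rw [← h10]
      field_simp
    rw [h11]
    exact e7
  linarith

/-- there are many elements at a good scale -/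
lemma n_large {S : Set ℤ} {a : ℕ → ℤ} {c B : ℝ} {C₂ : ℕ} (hd : Dat S a c B C₂) (n₁ : ℕ) (ε : ℝ) :
    ∃ x₁ : ℕ, ∀ x N n : ℕ, x₁ ≤ x → Sc S ε x N n → n₁ ≤ n := by
  obtain ⟨x₀, hx₀⟩ := hd.grow
  have ht : Filter.Tendsto (fun x : ℕ => (x : ℝ) ^ c) Filter.atTop Filter.atTop :=
    (tendsto_rpow_atTop hd.c_pos).comp tendsto_natCast_atTop_atTop
  obtain ⟨x₂, hx₂⟩ := (ht.eventually_ge_atTop ((4 * n₁ + 3 : ℕ) : ℝ)).exists_forall_of_atTop
  refine ⟨max x₀ x₂, fun x N n hx hs => ?_⟩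
  have h1 := hx₀ x (le_trans (le_max_left _ _) hx)
  have h2 := hx₂ x (le_trans (le_max_right _ _) hx)
  rw [hs.card] at h1
  have h3 : 4 * n₁ + 3 ≤ N := by exact_mod_cast h2.trans h1
  have h4 := hs.high
  omega

lemma Nn_le (S : Set ℤ) (x : ℕ) : Nn S x ≤ 2 * x + 1 := by
  unfold Nn St
  classical
  refine (Finset.card_filter_le _ _).trans ?_
  rw [Int.card_Icc]
  omega

lemma n_le_x {S : Set ℤ} {ε : ℝ} {x N n : ℕ} (hs : Sc S ε x N n) (hx : 1 ≤ x) : n ≤ x := by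
  have h1 := Nn_le S x
  rw [hs.card] at h1
  have h2 := hs.low
  omega

/-- a bound for the elements of an initial segment -/
lemma mem_bound {S : Set ℤ} {a : ℕ → ℤ} {c B : ℝ} {C₂ : ℕ} (hd : Dat S a c B C₂) (P : ℕ) :
    ∀ z ∈ A a P, (|z| : ℝ) ≤ B * ((P : ℝ) + 2) ^ C₂ := by
  intro z hz
  obtain ⟨i, hi, rfl⟩ := Pool.Agent.Work.MP_b29d7f_half.mem_A.mp hz
  refine (hd.size i).trans ?_
  have hB := hd.B_one
  have hi' : (i : ℝ) ≤ P := by exact_mod_cast hi.le
  refine mul_le_mul_of_nonneg_left (pow_le_pow_left₀ (by positivity) (by linarith) _) (by linarith)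

lemma ld_bound {S : Set ℤ} {a : ℕ → ℤ} {c B : ℝ} {C₂ : ℕ} (hd : Dat S a c B C₂) {P n : ℕ}
    (hPn : P ≤ n) : ∀ z ∈ A a P, ∀ y ∈ A a n, z ≠ y →
      ld z y ≤ Real.log (2 * B) + C₂ * Real.log ((n : ℝ) + 2) := by
  intro z hz y hy hne
  have hB := hd.B_one
  have h1 := mem_bound hd n z (Pool.Agent.Work.MP_b29d7f_half.A_mono hPn hz)
  have h2 := mem_bound hd n y hy
  have h3 : |(z : ℝ) - y| ≤ 2 * B * ((n : ℝ) + 2) ^ C₂ := by
    refine (abs_sub _ _).trans ?_
    linarith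
  have h4 : (1 : ℝ) ≤ |(z : ℝ) - y| := by
    have : (1 : ℤ) ≤ |z - y| := Int.one_le_abs (sub_ne_zero.mpr hne)
    exact_mod_cast this
  unfold ld
  rw [Int.cast_sub]
  refine (Real.log_le_log (by linarith) h3).trans (le_of_eq ?_)
  rw [Real.log_mul (by positivity) (by positivity), Real.log_pow]

end SMALL32

open SMALL32 in
/-- SMALL: the small primes carry little -/
theorem stmt_SMALL (h2 : Stmt_DEF) (h3 : Stmt_HIGHS) : Stmt_SMALL := by
  intro S a c B C₂ hd β hβ hβC ε hε hε1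
  have hB := hd.B_one
  have hC1 : (1 : ℝ) ≤ C₂ := by exact_mod_cast hd.C_one
  have hO := hd.ord
  have hsε : 0 < Real.sqrt ε := Real.sqrt_pos.mpr hε
  have hβ8 : β ≤ 1 / 8 := by nlinarith
  -- constants
  set κ : ℝ := Real.log (2 * B) + C₂ * Real.log 3 with hκ
  have hκ0 : 0 ≤ κ := by
    have := Real.log_nonneg (by linarith : (1 : ℝ) ≤ 2 * B)
    have := Real.log_nonneg (by norm_num : (1 : ℝ) ≤ 3)
    positivity
  -- the index must be large
  have ht1 : Filter.Tendsto (fun n : ℕ => (n : ℝ) ^ β) Filter.atTop Filter.atTop :=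
    (tendsto_rpow_atTop hβ).comp tendsto_natCast_atTop_atTop
  obtain ⟨n₁, hn₁⟩ := (ht1.eventually_ge_atTop
    ((8 * C₂ + 16) / Real.sqrt ε + 2)).exists_forall_of_atTop
  obtain ⟨x₂, hx₂⟩ := h2 S a c B C₂ hd ε hε hε1
  obtain ⟨x₃, hx₃⟩ := n_large hd (max n₁ 1) ε
  have ht2 : Filter.Tendsto (fun x : ℕ => Real.log (x : ℝ)) Filter.atTop Filter.atTop :=
    Real.tendsto_log_atTop.comp tendsto_natCast_atTop_atTop
  obtain ⟨x₄, hx₄⟩ := (ht2.eventually_ge_atTop
    (max (2 * κ / Real.sqrt ε) (4 * κ + 8))).exists_forall_of_atTop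
  refine ⟨max (max x₂ x₃) (max x₄ 1), fun x N n hx hs => ?_⟩
  have hxa : x₂ ≤ x := (le_max_left _ _).trans ((le_max_left _ _).trans hx)
  have hxb : x₃ ≤ x := (le_max_right _ _).trans ((le_max_left _ _).trans hx)
  have hxc : x₄ ≤ x := (le_max_left _ _).trans ((le_max_right _ _).trans hx)
  have hx1 : 1 ≤ x := (le_max_right _ _).trans ((le_max_right _ _).trans hx)
  have hnn := hx₃ x N n hxb hs
  have hn1 : 1 ≤ n := (le_max_right _ _).trans hnn
  have hnβ := hn₁ n ((le_max_left _ _).trans hnn)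
  have hL := hx₄ x hxc
  have hL1 : 2 * κ / Real.sqrt ε ≤ Real.log x := (le_max_left _ _).trans hL
  have hL2 : 4 * κ + 8 ≤ Real.log x := (le_max_right _ _).trans hL
  have hnx : n ≤ x := n_le_x hs hx1
  have hnr : (1 : ℝ) ≤ n := by exact_mod_cast hn1
  have hxr : (1 : ℝ) ≤ x := by exact_mod_cast hx1
  have hnxr : (n : ℝ) ≤ x := by exact_mod_cast hnx
  have hlogn : 0 ≤ Real.log n := Real.log_nonneg hnr
  have hlognx : Real.log n ≤ Real.log x := Real.log_le_log (by linarith) hnxr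
  set L : ℝ := Real.log x with hLdef
  set Q : ℕ := ⌊(n : ℝ) ^ β⌋₊ with hQ
  have hQle : (Q : ℝ) ≤ (n : ℝ) ^ β := Nat.floor_le (by positivity)
  have hQge : (8 * C₂ + 16) / Real.sqrt ε ≤ Q := by
    have := Nat.lt_floor_add_one ((n : ℝ) ^ β)
    rw [← hQ] at this
    linarith
  have hQ1r : (1 : ℝ) ≤ Q := by
    have h0 : Real.sqrt ε ≤ 1 := by
      have := Real.sqrt_le_sqrt (by linarith : ε ≤ 1)
      rwa [Real.sqrt_one] at this
    have : (1 : ℝ) ≤ (8 * C₂ + 16) / Real.sqrt ε := by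
      rw [le_div_iff₀ hsε]
      linarith
    linarith
  have hQ1 : 1 ≤ Q := by exact_mod_cast hQ1r
  set P : ℕ := Q ^ 2 with hP
  have hPr : (P : ℝ) ≤ (n : ℝ) ^ (2 * β) := by
    have e : ((n : ℝ) ^ β) ^ 2 = (n : ℝ) ^ (2 * β) := by
      rw [← Real.rpow_natCast, ← Real.rpow_mul (by linarith)]
      congr 1
      push_cast
      ring
    rw [hP, ← e]
    push_cast
    exact pow_le_pow_left₀ (by positivity) hQle 2
  have hP1 : 1 ≤ P := Nat.one_le_pow _ _ hQ1
  have hP1r : (1 : ℝ) ≤ P := by exact_mod_cast hP1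
  have hPn : P ≤ n := by
    have : (P : ℝ) ≤ n := by
      refine hPr.trans ?_
      calc (n : ℝ) ^ (2 * β) ≤ (n : ℝ) ^ (1 : ℝ) :=
            Real.rpow_le_rpow_of_exponent_le hnr (by linarith)
        _ = n := Real.rpow_one _
    exact_mod_cast this
  -- the radius
  set r : ℝ := B * ((P : ℝ) + 2) ^ C₂ with hr
  have hr1 : 1 ≤ r := by
    have : (1 : ℝ) ≤ ((P : ℝ) + 2) ^ C₂ := one_le_pow₀ (by linarith)
    nlinarith
  have hlogr : Real.log (2 * r) ≤ κ + 2 * (C₂ * β) * L := by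
    have h5 : 2 * r ≤ 2 * B * (3 * (P : ℝ)) ^ C₂ := by
      rw [hr]
      have : ((P : ℝ) + 2) ^ C₂ ≤ (3 * (P : ℝ)) ^ C₂ := pow_le_pow_left₀ (by positivity)
        (by linarith) _
      nlinarith
    have h6 := Real.log_le_log (by linarith) h5
    rw [Real.log_mul (x := 2 * B) (by positivity) (by positivity), Real.log_pow,
      Real.log_mul (x := 3) (by norm_num) (by positivity)] at h6
    have h7 : Real.log P ≤ 2 * β * Real.log n := by
      have := Real.log_le_log (by linarith) hPr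
      rwa [Real.log_rpow (by linarith)] at this
    have h8 : Real.log P ≤ 2 * β * L := h7.trans (mul_le_mul_of_nonneg_left hlognx (by positivity))
    have h9 : (C₂ : ℝ) * (Real.log 3 + Real.log P) ≤ C₂ * (Real.log 3 + 2 * β * L) :=
      mul_le_mul_of_nonneg_left (by linarith) (by linarith)
    rw [hκ]
    nlinarith
  have hL0 : 0 ≤ L := by linarith
  have hCβL : (C₂ : ℝ) * β * L ≤ 1 / 8 * L := by
    refine mul_le_mul_of_nonneg_right ?_ hL0
    linarith
  set ρ : ℕ := ⌊r⌋₊ with hρ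
  have hρr : (ρ : ℝ) ≤ r := Nat.floor_le (by linarith)
  have hrx : r ≤ (x : ℝ) ^ (1 - ε) / 2 := by
    have h5 : 2 * r ≤ Real.exp ((1 - ε) * L) := by
      rw [← Real.log_le_iff_le_exp (by linarith)]
      refine hlogr.trans ?_
      nlinarith
    have h6 : (x : ℝ) ^ (1 - ε) = Real.exp ((1 - ε) * L) := by
      rw [Real.rpow_def_of_pos (by linarith), hLdef]
      congr 1
      ring
    rw [h6]
    linarith
  -- the defect
  have hDEF : ∀ z ∈ A a P, ∑ p ∈ Q.primesLE,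
      Real.log p * (wv p a n - ∑ y ∈ (A a n).erase z, vd p z y) ≤
        30 * Real.sqrt ε * n * L := by
    intro z hz
    refine hx₂ x N n hxa hs n le_rfl (by omega) z
      (Pool.Agent.Work.MP_b29d7f_half.A_mono hPn hz) ?_ Q.primesLE
      (fun p hp => (Nat.mem_primesLE.mp hp).2)
    exact (mem_bound hd P z hz).trans hrx
  have hρz : ∀ z ∈ A a P, |z| ≤ (ρ : ℤ) := by
    intro z hz
    have h5 := mem_bound hd P z hz
    have h6 : z.natAbs ≤ ρ := by
      rw [hρ]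
      refine Nat.le_floor ?_
      rw [Nat.cast_natAbs]
      push_cast
      exact h5
    have h7 : |z| = (z.natAbs : ℤ) := (Int.natCast_natAbs z).symm
    rw [h7]
    exact_mod_cast h6
  set T : ℝ := Real.log (2 * B) + C₂ * Real.log ((n : ℝ) + 2) with hT
  have hT0 : 0 ≤ T := by
    have := Real.log_nonneg (by linarith : (1 : ℝ) ≤ 2 * B)
    have := Real.log_nonneg (by linarith : (1 : ℝ) ≤ (n : ℝ) + 2)
    positivity
  have hTle : T ≤ κ + C₂ * L := by
    have h5 : Real.log ((n : ℝ) + 2) ≤ Real.log 3 + Real.log n := by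
      rw [← Real.log_mul (by norm_num) (by linarith)]
      exact Real.log_le_log (by linarith) (by linarith)
    have h6 : (C₂ : ℝ) * Real.log ((n : ℝ) + 2) ≤ C₂ * (Real.log 3 + L) :=
      mul_le_mul_of_nonneg_left (by linarith) (by linarith)
    rw [hT, hκ]
    linarith
  have hl0 : 0 ≤ Real.log (2 * r) := Real.log_nonneg (by linarith)
  have hl : ∀ z ∈ A a P, ∀ y ∈ A a P, z ≠ y → ld z y ≤ Real.log (2 * r) := by
    intro z hz y hy hne
    have h5 := mem_bound hd P z hz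
    have h6 := mem_bound hd P y hy
    have h7 : |(z : ℝ) - y| ≤ 2 * r := by
      refine (abs_sub _ _).trans ?_
      linarith
    have h4 : (1 : ℝ) ≤ |(z : ℝ) - y| := by
      have : (1 : ℤ) ≤ |z - y| := Int.one_le_abs (sub_ne_zero.mpr hne)
      exact_mod_cast this
    unfold ld
    rw [Int.cast_sub]
    exact Real.log_le_log (by linarith) h7
  have hmain := core hO h3 n P Q ρ (2 * ρ + 1) (30 * Real.sqrt ε * n * L) T (Real.log (2 * r))
    hP1 hPn rfl hDEF hρz hT0 (ld_bound hd hPn) hl0 hl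
  refine hmain.trans ?_
  -- the numerical part
  have hR1 : 1 ≤ 2 * ρ + 1 := by omega
  obtain ⟨-, hDK⟩ := Pool.Agent.Work.MP_b29d7f_half.stmt_KSUM Q (2 * ρ + 1) hR1
  have hDK0 := DK_nonneg Q (2 * ρ + 1)
  have hlogR : Real.log ((2 * ρ + 1 : ℕ) : ℝ) ≤ 2 * L := by
    have h5 : ((2 * ρ + 1 : ℕ) : ℝ) ≤ 2 * (2 * r) := by
      push_cast
      linarith
    have h6 := Real.log_le_log (by positivity) h5
    rw [Real.log_mul (by norm_num) (by linarith)] at h6
    have h7 : Real.log 2 ≤ 1 := by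
      have := Real.log_two_lt_d9
      linarith
    linarith
  have hDKQ : DK Q (2 * ρ + 1) ≤ 2 * L * Q := by
    refine hDK.trans ?_
    rw [mul_comm]
    exact mul_le_mul_of_nonneg_right hlogR (by linarith)
  have hQ0 : (0 : ℝ) < Q := by linarith
  have hP2 : (P : ℝ) = (Q : ℝ) ^ 2 := by rw [hP]; push_cast; rfl
  have hPnr : (P : ℝ) ≤ n := by exact_mod_cast hPn
  have t1 : DK Q (2 * ρ + 1) / P ≤ 2 * L / Q := by
    rw [hP2, div_le_div_iff₀ (by positivity) hQ0]
    nlinarith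
  have t2 : DK Q (2 * ρ + 1) ≤ n * (2 * L / Q) := by
    refine hDKQ.trans ?_
    rw [mul_div_assoc', le_div_iff₀ hQ0]
    have : (2 * L) * (Q : ℝ) ^ 2 ≤ (2 * L) * n :=
      mul_le_mul_of_nonneg_left (by rw [← hP2]; exact hPnr) (by linarith)
    nlinarith
  have t3 : 2 * ((n : ℝ) * Q * T / P) ≤ n * (2 * (κ + C₂ * L) / Q) := by
    rw [hP2]
    have e : 2 * ((n : ℝ) * Q * T / (Q : ℝ) ^ 2) = n * (2 * T / Q) := by
      field_simp
    rw [e]
    refine mul_le_mul_of_nonneg_left ?_ (by linarith)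
    refine div_le_div_of_nonneg_right ?_ hQ0.le
    linarith
  have t4 : (4 * L + 2 * (κ + C₂ * L)) / Q ≤ Real.sqrt ε / 2 * L := by
    rw [div_le_iff₀ hQ0]
    have h5 : (8 * C₂ + 16) ≤ Q * Real.sqrt ε := by
      rwa [div_le_iff₀ hsε] at hQge
    have h6 : (8 * (C₂ : ℝ) + 16) * L ≤ Q * Real.sqrt ε * L := mul_le_mul_of_nonneg_right h5 hL0
    have h7 : 0 ≤ (C₂ : ℝ) * L := by positivity
    nlinarith
  have t5 : κ ≤ Real.sqrt ε / 2 * L := by
    rw [div_le_iff₀ hsε] at hL1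
    nlinarith
  have t6 : 2 * L / Q + (κ + 2 * (C₂ * β) * L) + 2 * L / Q + 2 * (κ + C₂ * L) / Q ≤
      (8 * C₂ * β + Real.sqrt ε) * L := by
    have e : 2 * L / Q + (κ + 2 * (C₂ * β) * L) + 2 * L / Q + 2 * (κ + C₂ * L) / Q =
      (4 * L + 2 * (κ + C₂ * L)) / Q + κ + 2 * (C₂ * β) * L := by ring
    rw [e]
    have : 0 ≤ (C₂ : ℝ) * β * L := by positivity
    nlinarith
  have hn0 : (0 : ℝ) ≤ n := by linarith
  calc (n : ℝ) * (DK Q (2 * ρ + 1) / P + Real.log (2 * r)) + DK Q (2 * ρ + 1) +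
      2 * ((n : ℝ) * Q * T / P) + 2 * (30 * Real.sqrt ε * n * L) ≤
      n * (2 * L / Q + (κ + 2 * (C₂ * β) * L)) + n * (2 * L / Q) +
        n * (2 * (κ + C₂ * L) / Q) + 2 * (30 * Real.sqrt ε * n * L) := by
        have := mul_le_mul_of_nonneg_left (add_le_add t1 hlogr) hn0
        linarith
    _ = n * (2 * L / Q + (κ + 2 * (C₂ * β) * L) + 2 * L / Q + 2 * (κ + C₂ * L) / Q) +
        n * (60 * Real.sqrt ε * L) := by ring
    _ ≤ n * ((8 * C₂ * β + Real.sqrt ε) * L) + n * (60 * Real.sqrt ε * L) :=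
        add_le_add (mul_le_mul_of_nonneg_left t6 hn0) le_rfl
    _ = n * ((8 * (C₂ : ℝ) * β + 61 * Real.sqrt ε) * L) := by ring

end Pool.Agent.Work.MP_b29d7f_sep
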