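import Pool.Agent.Work.MP_b29d7f_sep.Interface

/-!
# Gap rule: block SPACE
-/

namespace Pool.Agent.Work.MP_b29d7f_sep

open Finset
open Pool.Agent.Work.MP_b29d7f_half (Ord A stmt_ORD stmt_VDM mem_A card_A sum_A)

/-- the gap is at most the radius of a ball with enough elements -/
theorem gap_le_of_bound {S : Set ℤ} {a : ℕ → ℤ} (hinj : Function.Injective a)
    (hmem : ∀ k, a k ∈ S) {b Rb : ℕ} (hR : ∀ j ≤ b, (a j).natAbs ≤ Rb) (s : ℤ) :
    gap S b s ≤ s.natAbs + Rb := by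
  classical
  refine Nat.sInf_le ?_
  show b ≤ ((St S (s - (s.natAbs + Rb : ℕ)) (s + (s.natAbs + Rb : ℕ))).erase s).card
  have h1 : (A a (b + 1)).erase s ⊆
      (St S (s - (s.natAbs + Rb : ℕ)) (s + (s.natAbs + Rb : ℕ))).erase s := by
    refine Finset.erase_subset_erase s ?_
    intro x hx
    obtain ⟨j, hj, rfl⟩ := mem_A.1 hx
    have := hR j (by omega)
    rw [mem_St]
    refine ⟨?_, hmem j⟩
    omega
  refine le_trans ?_ (Finset.card_le_card h1)
  have h2 := Finset.pred_card_le_card_erase (s := A a (b + 1)) (a := s)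
  rw [card_A hinj] at h2
  simpa using h2

theorem log_gap_nonneg (S : Set ℤ) (b : ℕ) (s : ℤ) : 0 ≤ Real.log (gap S b s) :=
  Real.log_natCast_nonneg _

theorem log_gap_le {S : Set ℤ} {b : ℕ} {s : ℤ} {X : ℝ} (h : (gap S b s : ℝ) ≤ X) (hX : 1 ≤ X) :
    Real.log (gap S b s) ≤ Real.log X := by
  rcases Nat.eq_zero_or_pos (gap S b s) with h0 | h0
  · rw [h0]; simp only [Nat.cast_zero, Real.log_zero]; exact Real.log_nonneg hX
  · exact Real.log_le_log (by exact_mod_cast h0) h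

theorem log_abs_nonneg (s : ℤ) : 0 ≤ Real.log |(s : ℝ)| := by
  have : |(s : ℝ)| = ((s.natAbs : ℕ) : ℝ) := by
    rw [Nat.cast_natAbs, Int.cast_abs]
  rw [this]
  exact Real.log_natCast_nonneg _

/-- the size of `n` at a scale -/
theorem Sc.n_le {S : Set ℤ} {ε : ℝ} {x N n : ℕ} (h : Sc S ε x N n) (hx : 1 ≤ x) : n ≤ x := by
  classical
  have h1 : N ≤ 2 * x + 1 := by
    rw [← h.card]
    unfold Nn
    have h2 : St S (-(x : ℤ)) x ⊆ Finset.Icc (-(x : ℤ)) x := by
      intro y hy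
      rw [mem_St] at hy
      exact Finset.mem_Icc.2 hy.1
    have h3 := Finset.card_le_card h2
    rw [Int.card_Icc] at h3
    omega
  have := h.low
  omega

theorem eventually_large {c : ℝ} (hc : 0 < c) (K : ℝ) :
    ∃ x₁ : ℕ, ∀ x : ℕ, x₁ ≤ x → K ≤ (x : ℝ) ^ c := by
  have h := ((tendsto_rpow_atTop hc).comp tendsto_natCast_atTop_atTop).eventually_ge_atTop K
  obtain ⟨x₁, hx₁⟩ := Filter.eventually_atTop.1 h
  exact ⟨x₁, fun x hx => hx₁ x hx⟩

theorem stmt_SPACE (hH : Stmt_HULL) : Stmt_SPACE := by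
  classical
  intro S a c B C₂ hD b n₀ γ hb hγ hsep M ε hε hε'
  obtain ⟨hinj, hmem, -⟩ := stmt_ORD stmt_VDM S a hD.ord
  obtain ⟨x₀, hgrow⟩ := hD.grow
  -- constants
  obtain ⟨Rb, hRb⟩ : ∃ Rb : ℕ, ∀ j ≤ b, (a j).natAbs ≤ Rb :=
    ⟨∑ j ∈ range (b + 1), (a j).natAbs, fun j hj =>
      Finset.single_le_sum (f := fun j => (a j).natAbs) (fun _ _ => Nat.zero_le _)
        (Finset.mem_range.2 (by omega))⟩
  set K : ℝ := (2 * M + 2 * (a 0).natAbs + 1) * ((C₂ : ℝ) + 1) with hK
  have hK0 : 0 ≤ K := by positivity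
  obtain ⟨n₁, hn₁⟩ : ∃ n₁ : ℕ, K + 3 * ε * γ ≤ 2 * ε * γ * n₁ := by
    obtain ⟨n₁, h⟩ := exists_nat_ge ((K + 3 * ε * γ) / (2 * ε * γ))
    refine ⟨n₁, ?_⟩
    rw [div_le_iff₀ (by positivity)] at h
    linarith
  obtain ⟨x₂, hx₂⟩ := eventually_large hD.c_pos (4 * ((n₁ + n₀ + 1 : ℕ) : ℝ) + 3)
  obtain ⟨x₃, hx₃⟩ := exists_nat_ge (B * 2 ^ C₂ + Rb)
  refine ⟨x₀ + x₂ + x₃ + 2, ?_⟩
  intro x N n hx hS
  have hx2 : 2 ≤ x := by omega
  have hxr : (2 : ℝ) ≤ x := by exact_mod_cast hx2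
  have hx0 : (0 : ℝ) < x := by linarith
  have hlog : 0 < Real.log x := Real.log_pos (by linarith)
  have hnx : n ≤ x := hS.n_le (by omega)
  have hnr : (n : ℝ) ≤ x := by exact_mod_cast hnx
  -- n is large
  have hn : n₁ + n₀ + 1 ≤ n := by
    have h1 := hgrow x (by omega)
    have h2 := hx₂ x (by omega)
    rw [hS.card] at h1
    have h3 : (N : ℝ) ≤ 4 * n + 3 := by exact_mod_cast hS.high
    have h4 : ((n₁ + n₀ + 1 : ℕ) : ℝ) ≤ n := by linarith
    exact_mod_cast h4
  -- the interval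
  have hne : (insert (0 : ℤ) (A a n)).Nonempty := ⟨0, Finset.mem_insert_self _ _⟩
  set u := (insert (0 : ℤ) (A a n)).min' hne with hu
  set v := (insert (0 : ℤ) (A a n)).max' hne with hv
  have hu0 : u ≤ 0 := Finset.min'_le _ _ (Finset.mem_insert_self _ _)
  have hv0 : 0 ≤ v := Finset.le_max' _ _ (Finset.mem_insert_self _ _)
  have hsub : A a n ⊆ St S u v := by
    intro y hy
    rw [mem_St]
    refine ⟨⟨Finset.min'_le _ _ (Finset.mem_insert_of_mem hy),
      Finset.le_max' _ _ (Finset.mem_insert_of_mem hy)⟩, ?_⟩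
    obtain ⟨i, _, rfl⟩ := mem_A.1 hy
    exact hmem i
  have hextra : St S u v \ A a n ⊆ Finset.Icc (-|a 0|) |a 0| := by
    intro s hs
    rw [Finset.mem_sdiff, mem_St] at hs
    obtain ⟨⟨⟨h1, h2⟩, h3⟩, h4⟩ := hs
    rw [Finset.mem_Icc]
    by_contra hcon
    apply h4
    rw [not_and_or, not_le, not_le] at hcon
    rcases hcon with h | h
    · have hs0 : s < 0 := lt_of_lt_of_le h (neg_nonpos.2 (abs_nonneg _))
      have hum : u ∈ insert (0 : ℤ) (A a n) := Finset.min'_mem _ _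
      rcases Finset.mem_insert.1 hum with h5 | h5
      · omega
      · obtain ⟨i, hi, hi'⟩ := mem_A.1 h5
        refine hH S a hD.ord n s h3 ⟨i, hi, by omega⟩ ⟨0, by omega, ?_⟩
        have := neg_abs_le (a 0)
        omega
    · have hs0 : 0 < s := lt_of_le_of_lt (abs_nonneg _) h
      have hvm : v ∈ insert (0 : ℤ) (A a n) := Finset.max'_mem _ _
      rcases Finset.mem_insert.1 hvm with h5 | h5
      · omega
      · obtain ⟨i, hi, hi'⟩ := mem_A.1 h5
        refine hH S a hD.ord n s h3 ⟨0, by omega, ?_⟩ ⟨i, hi, by omega⟩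
        have := le_abs_self (a 0)
        omega
  have hcard : n₀ ≤ (St S u v).card := by
    have := Finset.card_le_card hsub
    rw [card_A hinj] at this
    omega
  have hmain := hsep u v hu0 hv0 hcard
  -- lower bound of the left-hand side
  have hlow : ((n : ℝ) * (1 - 5 * ε) - 3 * ε) * Real.log x ≤ ∑ s ∈ St S u v, Real.log |(s : ℝ)| := by
    set X0 := ⌊(x : ℝ) ^ (1 - ε)⌋₊ with hX0
    have h1 : ∑ s ∈ (A a n).filter (fun s => X0 < s.natAbs), Real.log |(s : ℝ)|
        ≤ ∑ s ∈ St S u v, Real.log |(s : ℝ)| :=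
      Finset.sum_le_sum_of_subset_of_nonneg ((Finset.filter_subset _ _).trans hsub)
        fun s _ _ => log_abs_nonneg s
    refine le_trans ?_ h1
    have h2 : ∀ s ∈ (A a n).filter (fun s => X0 < s.natAbs),
        (1 - ε) * Real.log x ≤ Real.log |(s : ℝ)| := by
      intro s hs
      have hs' := (Finset.mem_filter.1 hs).2
      rw [← Real.log_rpow hx0]
      refine Real.log_le_log (Real.rpow_pos_of_pos hx0 _) ?_
      have h3 := Nat.lt_floor_add_one ((x : ℝ) ^ (1 - ε))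
      have h4 : ((X0 : ℝ) + 1) ≤ (s.natAbs : ℝ) := by exact_mod_cast hs'
      have h5 : |(s : ℝ)| = ((s.natAbs : ℕ) : ℝ) := by rw [Nat.cast_natAbs, Int.cast_abs]
      rw [h5]
      linarith
    have h3 := Finset.card_nsmul_le_sum _ _ _ h2
    rw [nsmul_eq_mul] at h3
    refine le_trans ?_ h3
    have h4 : (n : ℝ) - ε * N ≤ (((A a n).filter (fun s => X0 < s.natAbs)).card : ℝ) := by
      have h5 : ((A a n).filter (fun s => ¬ X0 < s.natAbs)) ⊆ St S (-(X0 : ℤ)) X0 := by
        intro s hs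
        obtain ⟨hs1, hs2⟩ := Finset.mem_filter.1 hs
        rw [mem_St]
        obtain ⟨i, _, rfl⟩ := mem_A.1 hs1
        refine ⟨by omega, hmem i⟩
      have h6 := Finset.card_le_card h5
      have h7 := Finset.card_filter_add_card_filter_not (s := A a n) (fun s => X0 < s.natAbs)
      rw [card_A hinj] at h7
      have h8 : ((St S (-(X0 : ℤ)) X0).card : ℝ) ≤ ε * N := hS.good
      have h9 : (((A a n).filter (fun s => X0 < s.natAbs)).card : ℝ)
          + (((A a n).filter (fun s => ¬ X0 < s.natAbs)).card : ℝ) = n := by exact_mod_cast h7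
      have h10 : (((A a n).filter (fun s => ¬ X0 < s.natAbs)).card : ℝ)
          ≤ ((St S (-(X0 : ℤ)) X0).card : ℝ) := by exact_mod_cast h6
      linarith
    have h5 : (N : ℝ) ≤ 4 * n + 3 := by exact_mod_cast hS.high
    have h6 : (n : ℝ) * (1 - 5 * ε) - 3 * ε ≤ ((n : ℝ) - ε * N) * (1 - ε) := by
      have hn0 : (0 : ℝ) ≤ n := Nat.cast_nonneg n
      have : ε * N ≤ ε * (4 * n + 3) := by gcongr
      nlinarith [mul_nonneg hε.le hn0, mul_nonneg (mul_nonneg hε.le hε.le) hn0, sq_nonneg ε]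
    calc ((n : ℝ) * (1 - 5 * ε) - 3 * ε) * Real.log x
        ≤ (((n : ℝ) - ε * N) * (1 - ε)) * Real.log x := by gcongr
      _ = ((n : ℝ) - ε * N) * ((1 - ε) * Real.log x) := by ring
      _ ≤ _ := by
          refine mul_le_mul_of_nonneg_right h4 ?_
          exact mul_nonneg (by linarith) hlog.le
  -- upper bound of a single gap
  have hgap : ∀ s : ℤ, (s.natAbs : ℝ) ≤ B * ((n : ℝ) + 2) ^ C₂ →
      Real.log (gap S b s) ≤ ((C₂ : ℝ) + 1) * Real.log x := by
    intro s hs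
    have h1 : ((C₂ : ℝ) + 1) * Real.log x = Real.log ((x : ℝ) ^ (C₂ + 1)) := by
      rw [Real.log_pow]; push_cast; ring
    rw [h1]
    have hB := hD.B_one
    have hx3 : B * 2 ^ C₂ + Rb ≤ (x : ℝ) := hx₃.trans (by exact_mod_cast (by omega : x₃ ≤ x))
    refine log_gap_le ?_ (one_le_pow₀ (by linarith))
    have h2 : (gap S b s : ℝ) ≤ (s.natAbs : ℝ) + Rb := by
      exact_mod_cast gap_le_of_bound hinj hmem hRb s
    have h3 : ((n : ℝ) + 2) ^ C₂ ≤ (2 * (x : ℝ)) ^ C₂ := by
      refine pow_le_pow_left₀ (by positivity) ?_ _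
      linarith
    rw [mul_pow] at h3
    have hxc : (1 : ℝ) ≤ (x : ℝ) ^ C₂ := one_le_pow₀ (by linarith)
    calc (gap S b s : ℝ) ≤ B * ((n : ℝ) + 2) ^ C₂ + Rb := by linarith
      _ ≤ B * (2 ^ C₂ * (x : ℝ) ^ C₂) + Rb * (x : ℝ) ^ C₂ := by
          refine add_le_add ?_ ?_
          · gcongr
          · exact le_mul_of_one_le_right (Nat.cast_nonneg _) hxc
      _ = (B * 2 ^ C₂ + Rb) * (x : ℝ) ^ C₂ := by ring
      _ ≤ x * (x : ℝ) ^ C₂ := by gcongr
      _ = (x : ℝ) ^ (C₂ + 1) := by rw [pow_succ]; ring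
  have hsize : ∀ i < n, ((a i).natAbs : ℝ) ≤ B * ((n : ℝ) + 2) ^ C₂ := by
    intro i hi
    have h1 := hD.size i
    have h2 : (((a i).natAbs : ℕ) : ℝ) = |((a i : ℤ) : ℝ)| := by rw [Nat.cast_natAbs, Int.cast_abs]
    rw [h2]
    have h4 : ((i : ℝ) + 2) ^ C₂ ≤ ((n : ℝ) + 2) ^ C₂ := by
      refine pow_le_pow_left₀ (by positivity) ?_ _
      have : (i : ℝ) ≤ n := by exact_mod_cast hi.le
      linarith
    have hB := hD.B_one
    refine le_trans ?_ (mul_le_mul_of_nonneg_left h4 (by linarith))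
    exact h1
  -- upper bound of the right-hand side
  have hup : ∑ s ∈ St S u v, Real.log (gap S b s)
      ≤ ∑ i ∈ Ico M (n - M + 1), Real.log (gap S b (a i)) + K * Real.log x := by
    have h1 : ∑ s ∈ St S u v, Real.log (gap S b s)
        = ∑ s ∈ St S u v \ A a n, Real.log (gap S b s) + ∑ s ∈ A a n, Real.log (gap S b s) :=
      (Finset.sum_sdiff hsub).symm
    have h2 : ∑ s ∈ St S u v \ A a n, Real.log (gap S b s)
        ≤ (2 * (a 0).natAbs + 1) * (((C₂ : ℝ) + 1) * Real.log x) := by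
      have h3 : ∀ s ∈ St S u v \ A a n, Real.log (gap S b s) ≤ ((C₂ : ℝ) + 1) * Real.log x := by
        intro s hs
        have h4 := Finset.mem_Icc.1 (hextra hs)
        rw [Int.abs_eq_natAbs] at h4
        refine hgap s ((?_ : (s.natAbs : ℝ) ≤ ((a 0).natAbs : ℝ)).trans (hsize 0 (by omega)))
        have : s.natAbs ≤ (a 0).natAbs := by omega
        exact_mod_cast this
      have h4 := Finset.sum_le_card_nsmul _ _ _ h3
      rw [nsmul_eq_mul] at h4
      refine h4.trans ?_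
      refine mul_le_mul_of_nonneg_right ?_ (by positivity)
      have h5 := Finset.card_le_card hextra
      rw [Int.card_Icc, Int.abs_eq_natAbs] at h5
      have h6 : (St S u v \ A a n).card ≤ 2 * (a 0).natAbs + 1 := by omega
      exact_mod_cast h6
    have h3 : ∑ s ∈ A a n, Real.log (gap S b s)
        ≤ ∑ i ∈ Ico M (n - M + 1), Real.log (gap S b (a i))
          + 2 * M * (((C₂ : ℝ) + 1) * Real.log x) := by
      rw [sum_A (fun s => Real.log (gap S b s)) hinj]
      have h4 : ∑ i ∈ range n, Real.log (gap S b (a i))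
          ≤ ∑ i ∈ Ico M (n - M + 1) ∪ (range n \ Ico M (n - M + 1)),
              Real.log (gap S b (a i)) := by
        refine Finset.sum_le_sum_of_subset_of_nonneg ?_ fun i _ _ => log_gap_nonneg _ _ _
        intro i hi
        rw [Finset.mem_union, Finset.mem_sdiff]
        by_cases h : i ∈ Ico M (n - M + 1)
        · exact Or.inl h
        · exact Or.inr ⟨hi, h⟩
      rw [Finset.sum_union Finset.disjoint_sdiff] at h4
      refine h4.trans (add_le_add le_rfl ?_)
      have h5 : ∀ i ∈ range n \ Ico M (n - M + 1),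
          Real.log (gap S b (a i)) ≤ ((C₂ : ℝ) + 1) * Real.log x := by
        intro i hi
        exact hgap _ (hsize i (Finset.mem_range.1 (Finset.mem_sdiff.1 hi).1))
      have h6 := Finset.sum_le_card_nsmul _ _ _ h5
      rw [nsmul_eq_mul] at h6
      refine h6.trans (mul_le_mul_of_nonneg_right ?_ (by positivity))
      have h7 : range n \ Ico M (n - M + 1) ⊆ range M ∪ Ico (n - M + 1) n := by
        intro i hi
        simp only [Finset.mem_sdiff, Finset.mem_range, Finset.mem_Ico, Finset.mem_union] at hi ⊢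
        omega
      have h8 := (Finset.card_le_card h7).trans (Finset.card_union_le _ _)
      rw [Finset.card_range, Nat.card_Ico] at h8
      have h9 : (range n \ Ico M (n - M + 1)).card ≤ 2 * M := by omega
      exact_mod_cast h9
    rw [h1, hK]
    linarith
  -- conclusion
  have h1 : γ * (((n : ℝ) * (1 - 5 * ε) - 3 * ε) * Real.log x)
      ≤ ∑ i ∈ Ico M (n - M + 1), Real.log (gap S b (a i)) + K * Real.log x :=
    (mul_le_mul_of_nonneg_left hlow hγ.le).trans (hmain.trans hup)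
  have h2 : (n₁ : ℝ) ≤ n := by exact_mod_cast (by omega : n₁ ≤ n)
  have h3 : K + 3 * ε * γ ≤ 2 * ε * γ * n := hn₁.trans (by gcongr)
  have h4 : (K + 3 * ε * γ) * Real.log x ≤ 2 * ε * γ * n * Real.log x := by gcongr
  have e1 : γ * (1 - 7 * ε) * n * Real.log x = γ * (((n : ℝ) * (1 - 5 * ε) - 3 * ε) * Real.log x)
      + 3 * ε * γ * Real.log x - 2 * ε * γ * n * Real.log x := by ring
  have e2 : (K + 3 * ε * γ) * Real.log x = K * Real.log x + 3 * ε * γ * Real.log x := by ring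
  rw [e1]
  rw [e2] at h4
  linarith

end Pool.Agent.Work.MP_b29d7f_sep
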