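import Pool.Agent.Work.MP_b29d7f_sep.Interface

/-!
# Gap rule: comparison of the window sum with the factorial (block SUMW)
-/

namespace Pool.Agent.Work.MP_b29d7f_sep

open Finset
open Pool.Agent.Work.MP_b29d7f_nt (IsPOrdering HasSimultaneousOrdering PS vd ld tv)
open Pool.Agent.Work.MP_b29d7f_half (Ord A wv lD K DK)

theorem Q1_nonneg (M : ℕ) : 0 ≤ Q1 M := by
  unfold Q1
  exact Finset.sum_nonneg fun m _ => by positivity

theorem WS_eq_sum {P : Finset ℕ} (F : ℕ → ℕ → ℝ) (E : ℕ → ℕ → ℕ → ℝ) (l : ℕ → ℝ) (n M : ℕ)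
    (hM : M ≤ n)
    (h : ∀ u m : ℕ, u + m ≤ n → F u m = ∑ p ∈ P, l p * E p u m) :
    WS F n M = ∑ p ∈ P, l p * WS (E p) n M := by
  unfold WS
  simp_rw [Finset.mul_sum]
  rw [Finset.sum_comm]
  refine Finset.sum_congr rfl fun m hm => ?_
  rw [Finset.sum_comm]
  refine Finset.sum_congr rfl fun u hu => ?_
  have h1 := (Finset.mem_Icc.1 hm).2
  have h2 := Finset.mem_range.1 hu
  rw [h u m (by omega), Finset.mul_sum]
  refine Finset.sum_congr rfl fun p _ => ?_
  ring

theorem stmt_SUMW (h1 : Stmt_WINDOW) (h2 : Stmt_COMBA) (h3 : Stmt_COMBB) (h4 : Stmt_PROD)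
    (h5 : Stmt_PADIC) : Stmt_SUMW := by
  intro S a hord n M Q J hM hMn hJ
  obtain ⟨P, hP, hlD, hEL⟩ := h4 S a hord n
  rw [WS_eq_sum (EL a) (fun p => EW p a) (fun p => Real.log p) n M hMn hEL, hlD n le_rfl]
  have hlog : ∀ p ∈ P, 0 ≤ Real.log (p : ℝ) := fun p hp =>
    Real.log_nonneg (by exact_mod_cast (hP p hp).one_lt.le)
  have hw : ∀ p : ℕ, 0 ≤ wv p a n := fun p => by
    rw [wv_eq_nv]
    positivity
  have hQ1 := Q1_nonneg M
  have hA : ∀ p ∈ P, WS (EW p a) n M ≤ Q1 M * wv p a n := by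
    intro p hp
    rw [wv_eq_nv]
    exact h2 (nv p a) (EW p a) n M ((h5 S a hord p (hP p hp)).2.2) hM hMn
      (fun u m _ _ => (h1 S a hord p (hP p hp) u m).1)
  have hB : ∀ p ∈ P, Q < p → WS (EW p a) n M ≤ (Q1 M / 2 + 2 + J) * wv p a n := by
    intro p hp hQp
    rw [wv_eq_nv]
    exact h3 (nv p a) (EW p a) n M J ((h5 S a hord p (hP p hp)).2.2) hM hMn
      (fun u m _ _ => (h1 S a hord p (hP p hp) u m).1)
      (fun u m _ _ => (h1 S a hord p (hP p hp) u m).2)
      (hJ p (hP p hp) hQp)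
  have hC : 0 ≤ Q1 M / 2 + 2 + (J : ℝ) := by positivity
  rw [← Finset.sum_filter_add_sum_filter_not P (fun p => p ≤ Q)]
  refine add_le_add ?_ ?_
  · rw [Finset.mul_sum]
    calc ∑ p ∈ P.filter (fun p => p ≤ Q), Real.log p * WS (EW p a) n M
        ≤ ∑ p ∈ P.filter (fun p => p ≤ Q), Q1 M * (Real.log p * wv p a n) := by
          refine Finset.sum_le_sum fun p hp => ?_
          have hp' := (Finset.mem_filter.1 hp).1
          have := mul_le_mul_of_nonneg_left (hA p hp') (hlog p hp')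
          linarith
      _ ≤ ∑ p ∈ Q.primesLE, Q1 M * (Real.log p * wv p a n) := by
          refine Finset.sum_le_sum_of_subset_of_nonneg ?_ ?_
          · intro p hp
            rw [Nat.mem_primesLE]
            exact ⟨(Finset.mem_filter.1 hp).2, hP p (Finset.mem_filter.1 hp).1⟩
          · intro p hp _
            rw [Nat.mem_primesLE] at hp
            have : 0 ≤ Real.log (p : ℝ) := Real.log_nonneg (by exact_mod_cast hp.2.one_lt.le)
            exact mul_nonneg hQ1 (mul_nonneg this (hw p))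
  · rw [Finset.mul_sum]
    calc ∑ p ∈ P.filter (fun p => ¬ p ≤ Q), Real.log p * WS (EW p a) n M
        ≤ ∑ p ∈ P.filter (fun p => ¬ p ≤ Q), (Q1 M / 2 + 2 + J) * (Real.log p * wv p a n) := by
          refine Finset.sum_le_sum fun p hp => ?_
          have hp' := (Finset.mem_filter.1 hp).1
          have := mul_le_mul_of_nonneg_left
            (hB p hp' (not_le.1 (Finset.mem_filter.1 hp).2)) (hlog p hp')
          linarith
      _ ≤ ∑ p ∈ P, (Q1 M / 2 + 2 + J) * (Real.log p * wv p a n) := by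
          refine Finset.sum_le_sum_of_subset_of_nonneg (Finset.filter_subset _ _) ?_
          intro p hp _
          exact mul_nonneg hC (mul_nonneg (hlog p hp) (hw p))

end Pool.Agent.Work.MP_b29d7f_sep
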