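import Pool.Agent.Work.MP_b29d7f_sep.Interface
import Pool.Agent.Work.MP_b29d7f_half.B_TOP

/-!
# Block UP: upper bound for the factorials at a good scale
-/

namespace Pool.Agent.Work.MP_b29d7f_sep

open Finset
open Pool.Agent.Work.MP_b29d7f_nt (IsPOrdering HasSimultaneousOrdering PS vd ld tv)
open Pool.Agent.Work.MP_b29d7f_half (Ord A wv lD K DK ld_nonneg card_A mem_A stmt_ORD stmt_VDM
  InWin two_PS_ld_le)

/-- arithmetic sum -/
theorem UP_arith (D : ℝ) (m : ℕ) :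
    ∑ i ∈ range m, (D - i) = m * D - m * ((m : ℝ) - 1) / 2 := by
  induction m with
  | zero => simp
  | succ m ih =>
    rw [Finset.sum_range_succ, ih]
    push_cast
    ring

/-- lower bound for the arithmetic sum -/
theorem UP_floor (D : ℝ) (hD : 0 ≤ D) :
    (D ^ 2 - 1) / 2 ≤ ∑ i ∈ range ⌊D⌋₊, (D - i) := by
  rw [UP_arith]
  have h1 : ((⌊D⌋₊ : ℕ) : ℝ) ≤ D := Nat.floor_le hD
  have h2 : D < ((⌊D⌋₊ : ℕ) : ℝ) + 1 := Nat.lt_floor_add_one D
  have h0 : (0 : ℝ) ≤ ((⌊D⌋₊ : ℕ) : ℝ) := Nat.cast_nonneg _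
  nlinarith

theorem stmt_UP (hA : Stmt_ARCHO) (hL : Stmt_LOW) : Stmt_UP := by
  classical
  intro S a c B C₂ hd ε hε hε1
  obtain ⟨x₁, hlow⟩ := hL S a c B C₂ hd ε hε hε1
  obtain ⟨hinj, hmem, -, hmin, -, -⟩ := stmt_ORD stmt_VDM S a hd.ord
  obtain ⟨-, hmono, -, hPS⟩ := hA S a hd.ord
  obtain ⟨x₀, hgrow⟩ := hd.grow
  -- large `x`
  have hev : ∃ x₂ : ℕ, ∀ x : ℕ, x₂ ≤ x →
      1 ≤ x ∧ 2 / ε ≤ Real.log (x : ℝ) ∧ 1 / ε ≤ (x : ℝ) ^ c := by
    have h1 : Filter.Tendsto (fun x : ℕ => Real.log (x : ℝ)) Filter.atTop Filter.atTop :=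
      Real.tendsto_log_atTop.comp tendsto_natCast_atTop_atTop
    have h2 : Filter.Tendsto (fun x : ℕ => (x : ℝ) ^ c) Filter.atTop Filter.atTop :=
      (tendsto_rpow_atTop hd.c_pos).comp tendsto_natCast_atTop_atTop
    have h3 := (Filter.eventually_ge_atTop 1).and
      ((h1.eventually_ge_atTop (2 / ε)).and (h2.eventually_ge_atTop (1 / ε)))
    exact Filter.eventually_atTop.mp h3
  obtain ⟨x₂, hx₂⟩ := hev
  refine ⟨max x₁ (max x₀ x₂), fun x N n hx hs k hk => ?_⟩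
  have hxx₁ : x₁ ≤ x := le_trans (le_max_left _ _) hx
  have hxx₀ : x₀ ≤ x := le_trans (le_trans (le_max_left _ _) (le_max_right _ _)) hx
  have hxx₂ : x₂ ≤ x := le_trans (le_trans (le_max_right _ _) (le_max_right _ _)) hx
  obtain ⟨hx1, hlogx, hxc⟩ := hx₂ x hxx₂
  have hN1 : 1 / ε ≤ (N : ℝ) := by
    have := hgrow x hxx₀
    rw [hs.card] at this
    exact le_trans hxc this
  set L := Real.log (x : ℝ) with hLdef
  have hx0 : (1 : ℝ) ≤ x := by exact_mod_cast hx1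
  have hLpos : 0 < L := lt_of_lt_of_le (by positivity) hlogx
  have hNε : 1 ≤ ε * N := by
    rw [div_le_iff₀ hε] at hN1
    linarith
  have hNone : (1 : ℝ) ≤ N := by
    have : (0 : ℝ) ≤ N := Nat.cast_nonneg _
    nlinarith
  have hLε : 2 ≤ ε * L := by
    rw [div_le_iff₀ hε] at hlogx
    linarith
  by_contra hcon
  push Not at hcon
  set D : ℝ := 3 * Real.sqrt ε * N with hDdef
  have hsq : Real.sqrt ε ^ 2 = ε := Real.sq_sqrt hε.le
  have hs0 : 0 ≤ Real.sqrt ε := Real.sqrt_nonneg _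
  have hs1 : Real.sqrt ε ≤ 1 / 10 := by
    rw [show (1 / 10 : ℝ) = Real.sqrt (1 / 100) by
      rw [show (1 / 100 : ℝ) = (1 / 10) ^ 2 by norm_num, Real.sqrt_sq (by norm_num)]]
    exact Real.sqrt_le_sqrt hε1
  have hD0 : 0 ≤ D := by positivity
  have hD2 : D ^ 2 = 9 * ε * (N : ℝ) ^ 2 := by
    rw [hDdef, mul_pow, mul_pow, hsq]; ring
  have hDN : D ≤ 3 / 10 * N := by
    rw [hDdef]
    have hNn : (0 : ℝ) ≤ N := Nat.cast_nonneg _
    nlinarith
  set m := ⌊D⌋₊ with hmdef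
  have hmD : (m : ℝ) ≤ D := Nat.floor_le hD0
  have hkm : k + m ≤ N := by
    have h1 : (2 : ℝ) * k ≤ N := by exact_mod_cast hk
    have h2 : ((k + m : ℕ) : ℝ) ≤ (N : ℝ) := by push_cast; linarith
    exact_mod_cast h2
  -- the function `f`
  set f : ℕ → ℝ := fun j => lD a j - ((j : ℝ) - 3 * ε * N) * L with hf
  have hf0 : ∀ j ∈ range N, 0 ≤ f j := by
    intro j hj
    have := hlow x N n hxx₁ hs j (Finset.mem_range.mp hj).le
    simp only [hf]
    linarith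
  have hf1 : ∀ j ∈ Ico k (k + m), ((k : ℝ) + D - j) * L ≤ f j := by
    intro j hj
    rw [Finset.mem_Ico] at hj
    have h1 : lD a k ≤ lD a j := hmono hj.1
    simp only [hf]
    have h2 : 0 ≤ 3 * ε * N * L := by positivity
    nlinarith
  have hsub : Ico k (k + m) ⊆ range N := by
    intro j hj
    rw [Finset.mem_Ico] at hj
    rw [Finset.mem_range]
    omega
  have h1 : (D ^ 2 - 1) / 2 * L ≤ ∑ j ∈ range N, f j := by
    calc (D ^ 2 - 1) / 2 * L ≤ (∑ i ∈ range m, (D - i)) * L :=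
          mul_le_mul_of_nonneg_right (UP_floor D hD0) hLpos.le
      _ = ∑ j ∈ Ico k (k + m), ((k : ℝ) + D - j) * L := by
          rw [Finset.sum_Ico_eq_sum_range, Nat.add_sub_cancel_left, Finset.sum_mul]
          refine Finset.sum_congr rfl fun i _ => ?_
          push_cast
          ring
      _ ≤ ∑ j ∈ Ico k (k + m), f j := Finset.sum_le_sum hf1
      _ ≤ ∑ j ∈ range N, f j :=
          Finset.sum_le_sum_of_subset_of_nonneg hsub fun j hj _ => hf0 j hj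
  have h2 : ∑ j ∈ range N, f j =
      PS ld (A a N) - ((N : ℝ) * ((N : ℝ) - 1) / 2 - 3 * ε * N * N) * L := by
    rw [hPS N]
    simp only [hf, Finset.sum_sub_distrib]
    congr 1
    rw [← Finset.sum_mul, Finset.sum_sub_distrib, Finset.sum_const, Finset.card_range,
      nsmul_eq_mul]
    congr 1
    have h3 := UP_arith 0 N
    simp only [zero_sub, Finset.sum_neg_distrib, mul_zero] at h3
    linarith
  -- upper bound for the energy
  have h3 : 2 * PS ld (A a N) ≤ (N : ℝ) * ((N : ℝ) - 1) * (L + Real.log 3) := by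
    have hXS : ((St S (-(x : ℤ)) x : Finset ℤ) : Set ℤ) ⊆ S := by
      intro y hy
      rw [Finset.mem_coe, mem_St] at hy
      exact hy.2
    have h4 := hmin _ hXS
    have hcard : (St S (-(x : ℤ)) x).card = N := hs.card
    have hwin : InWin (St S (-(x : ℤ)) x) (2 * x + 1) := by
      refine ⟨-(x : ℤ), fun y hy => ?_⟩
      rw [mem_St] at hy
      push_cast
      constructor
      · exact hy.1.1
      · have := hy.1.2
        omega
    have h5 := two_PS_ld_le hwin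
    rw [hcard] at h4 h5
    have h6 : Real.log ((2 * x + 1 : ℕ) : ℝ) ≤ L + Real.log 3 := by
      rw [hLdef, ← Real.log_mul (by linarith) (by norm_num)]
      refine Real.log_le_log (by positivity) ?_
      push_cast
      linarith
    have h7 : 0 ≤ (N : ℝ) * ((N : ℝ) - 1) := mul_nonneg (by linarith) (by linarith)
    have h8 := mul_le_mul_of_nonneg_left h6 h7
    linarith
  have hlog3 : Real.log 3 ≤ 2 := by
    have := Real.log_le_sub_one_of_pos (show (0 : ℝ) < 3 by norm_num)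
    linarith
  rw [h2, hD2] at h1
  have hlog30 : 0 ≤ Real.log 3 := Real.log_nonneg (by norm_num)
  -- (9 ε N² - 1) L ≤ N (N-1) log 3 + 6 ε N² L
  have h9 : (9 * ε * (N : ℝ) ^ 2 - 1) * L ≤
      (N : ℝ) * ((N : ℝ) - 1) * Real.log 3 + 6 * ε * (N : ℝ) ^ 2 * L := by
    nlinarith
  have h10 : 1 ≤ ε * (N : ℝ) ^ 2 := by nlinarith
  have h11 : (N : ℝ) * ((N : ℝ) - 1) * Real.log 3 ≤ (N : ℝ) ^ 2 * 2 := by
    have : (N : ℝ) * ((N : ℝ) - 1) ≤ (N : ℝ) ^ 2 := by nlinarith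
    have h12 : 0 ≤ (N : ℝ) * ((N : ℝ) - 1) := mul_nonneg (by linarith) (by linarith)
    calc (N : ℝ) * ((N : ℝ) - 1) * Real.log 3 ≤ (N : ℝ) * ((N : ℝ) - 1) * 2 :=
          mul_le_mul_of_nonneg_left hlog3 h12
      _ ≤ (N : ℝ) ^ 2 * 2 := by linarith
  have h13 : 4 * (N : ℝ) ^ 2 ≤ 2 * ε * (N : ℝ) ^ 2 * L := by nlinarith [sq_nonneg (N : ℝ)]
  have h14 : L ≤ ε * (N : ℝ) ^ 2 * L := by nlinarith
  have h15 : 0 < (N : ℝ) ^ 2 := by positivity
  nlinarith

end Pool.Agent.Work.MP_b29d7f_sep
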