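import Pool.Agent.Work.MP_b29d7f_sep.Interface

/-! Block WEIGHT (helper70). -/

namespace Pool.Agent.Work.MP_b29d7f_sep

open Finset

theorem Q1_succ (M : ℕ) : Q1 (M + 1) = Q1 M + (((M : ℝ) + 1) + 1) / (2 * ((M : ℝ) + 1) ^ 2) := by
  unfold Q1
  rw [Finset.sum_Icc_succ_top (by omega)]
  push_cast
  rfl

theorem half_harm_le_Q1 (M : ℕ) :
    (1 / 2 : ℝ) * ∑ i ∈ range M, (1 / ((i : ℝ) + 1)) ≤ Q1 M := by
  induction M with
  | zero => simp [Q1]
  | succ M ih =>
    rw [Q1_succ, Finset.sum_range_succ, mul_add]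
    apply add_le_add ih
    have h : (0 : ℝ) < (M : ℝ) + 1 := by positivity
    have h1 : (1 / 2 : ℝ) * (1 / ((M : ℝ) + 1)) = ((M : ℝ) + 1) / (2 * ((M : ℝ) + 1) ^ 2) := by
      field_simp
    rw [h1]
    apply div_le_div_of_nonneg_right _ (by positivity)
    linarith

theorem sum_const_sub (t : ℝ) (n : ℕ) :
    ∑ d ∈ Icc 1 n, (t - (d : ℝ)) = n * t - n * (n + 1) / 2 := by
  induction n with
  | zero => simp
  | succ n ih =>
    rw [Finset.sum_Icc_succ_top (by omega), ih]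
    push_cast
    ring

theorem sum_sq_succ_le (M : ℕ) :
    ∑ m ∈ Icc 1 (M + 1), (1 : ℝ) / (m : ℝ) ^ 2 ≤ 2 - 1 / ((M : ℝ) + 1) := by
  induction M with
  | zero => norm_num
  | succ M ih =>
    rw [Finset.sum_Icc_succ_top (by omega)]
    have h : (1 : ℝ) / (((M + 1 + 1 : ℕ)) : ℝ) ^ 2 ≤ 1 / ((M : ℝ) + 1) - 1 / (((M + 1 : ℕ) : ℝ) + 1) := by
      push_cast
      have h0 : (0 : ℝ) < (M : ℝ) + 1 := by positivity
      have h1 : (1 : ℝ) / ((M : ℝ) + 1) - 1 / ((M : ℝ) + 1 + 1) =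
          1 / (((M : ℝ) + 1) * ((M : ℝ) + 1 + 1)) := by
        field_simp
        ring
      rw [h1]
      apply one_div_le_one_div_of_le (by positivity)
      nlinarith
    linarith

theorem sum_sq_le (M : ℕ) : ∑ m ∈ Icc 1 M, (1 : ℝ) / (m : ℝ) ^ 2 ≤ 2 := by
  cases M with
  | zero => simp
  | succ M =>
    have h := sum_sq_succ_le M
    have h4 : (0 : ℝ) < 1 / ((M : ℝ) + 1) := by positivity
    linarith

theorem sum_phi (M : ℕ) : ∑ d ∈ Icc 1 M, phi M d = Q1 M := by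
  unfold phi Q1
  rw [Finset.sum_comm' (s := Icc 1 M) (t := fun d => Icc d M) (t' := Icc 1 M) (s' := fun m => Icc 1 m)
    (by intro x y; simp only [Finset.mem_Icc]; omega)]
  apply Finset.sum_congr rfl
  intro m hm
  rw [Finset.mem_Icc] at hm
  have hm0 : (0 : ℝ) < m := by exact_mod_cast hm.1
  rw [← Finset.sum_div, sum_const_sub]
  field_simp
  ring

theorem stmt_WEIGHT : Stmt_WEIGHT := by
  refine ⟨?_, fun M => ⟨sum_phi M, ?_⟩⟩
  · intro X
    have h := (Real.tendsto_sum_range_one_div_nat_succ_atTop).eventually_ge_atTop (2 * X)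
    rw [Filter.eventually_atTop] at h
    obtain ⟨M₀, hM₀⟩ := h
    refine ⟨M₀, fun M hM => ?_⟩
    have h1 := hM₀ M hM
    have h2 := half_harm_le_Q1 M
    linarith
  · intro d hd
    unfold phi
    constructor
    · apply Finset.sum_nonneg
      intro m hm
      rw [Finset.mem_Icc] at hm
      have h1 : (d : ℝ) ≤ m := by exact_mod_cast hm.1
      apply div_nonneg (by linarith) (by positivity)
    · have h1 : ∑ m ∈ Icc d M, ((m : ℝ) + 1 - d) / (m : ℝ) ^ 3 ≤ ∑ m ∈ Icc d M, (1 : ℝ) / (m : ℝ) ^ 2 := by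
        apply Finset.sum_le_sum
        intro m hm
        rw [Finset.mem_Icc] at hm
        have hm1 : (1 : ℝ) ≤ m := by exact_mod_cast le_trans hd hm.1
        have hd1 : (1 : ℝ) ≤ d := by exact_mod_cast hd
        have h2 : (1 : ℝ) / (m : ℝ) ^ 2 = (m : ℝ) / (m : ℝ) ^ 3 := by
          field_simp
        rw [h2]
        apply div_le_div_of_nonneg_right _ (by positivity)
        linarith
      have h2 : ∑ m ∈ Icc d M, (1 : ℝ) / (m : ℝ) ^ 2 ≤ ∑ m ∈ Icc 1 M, (1 : ℝ) / (m : ℝ) ^ 2 := by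
        apply Finset.sum_le_sum_of_subset_of_nonneg
        · exact Finset.Icc_subset_Icc_left hd
        · intro m _ _
          positivity
      have h3 := sum_sq_le M
      linarith

end Pool.Agent.Work.MP_b29d7f_sep
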