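import Pool.Agent.Work.MP_b29d7f_sep.B_PADIC
import Pool.Agent.Work.MP_b29d7f_sep.B_ARCHO
import Pool.Agent.Work.MP_b29d7f_sep.B_HULL
import Pool.Agent.Work.MP_b29d7f_sep.B_WINDOW
import Pool.Agent.Work.MP_b29d7f_sep.B_COMBA
import Pool.Agent.Work.MP_b29d7f_sep.B_MINP
import Pool.Agent.Work.MP_b29d7f_sep.B_COMBB
import Pool.Agent.Work.MP_b29d7f_sep.B_WEIGHT
import Pool.Agent.Work.MP_b29d7f_sep.B_PAIRS
import Pool.Agent.Work.MP_b29d7f_sep.B_NEAR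
import Pool.Agent.Work.MP_b29d7f_sep.B_SIZE
import Pool.Agent.Work.MP_b29d7f_sep.B_GOOD
import Pool.Agent.Work.MP_b29d7f_sep.B_LOW
import Pool.Agent.Work.MP_b29d7f_sep.B_UP
import Pool.Agent.Work.MP_b29d7f_sep.B_DEF
import Pool.Agent.Work.MP_b29d7f_sep.B_JB
import Pool.Agent.Work.MP_b29d7f_sep.B_HIGHS
import Pool.Agent.Work.MP_b29d7f_sep.B_SMALL
import Pool.Agent.Work.MP_b29d7f_sep.B_SPACE
import Pool.Agent.Work.MP_b29d7f_sep.B_PROD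
import Pool.Agent.Work.MP_b29d7f_sep.B_SUMW
import Pool.Agent.Work.MP_b29d7f_sep.B_FIN
import Pool.Agent.Work.MP_b29d7f_sep.B_COR

/-!
# Gap rule: assembly
-/

namespace Pool.Agent.Work.MP_b29d7f_sep

open Pool.Agent.Work.MP_b29d7f_nt (HasSimultaneousOrdering)

theorem PolyGrowth.infinite {S : Set ℤ} (h : PolyGrowth S) : S.Infinite := by
  obtain ⟨c, hc, x₀, hx₀⟩ := h
  intro hfin
  have ht : Filter.Tendsto (fun x : ℕ => (x : ℝ) ^ c) Filter.atTop Filter.atTop :=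
    (tendsto_rpow_atTop hc).comp tendsto_natCast_atTop_atTop
  obtain ⟨x₂, hx₂⟩ := Filter.eventually_atTop.mp
    (ht.eventually_ge_atTop ((hfin.toFinset.card : ℝ) + 1))
  have h1 := hx₀ (max x₀ x₂) (le_max_left _ _)
  have h2 := hx₂ (max x₀ x₂) (le_max_right _ _)
  have h3 : Nn S (max x₀ x₂) ≤ hfin.toFinset.card := by
    unfold Nn
    refine Finset.card_le_card fun s hs => ?_
    rw [Set.Finite.mem_toFinset]
    exact (mem_St.mp hs).2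
  have h4 : (Nn S (max x₀ x₂) : ℝ) ≤ hfin.toFinset.card := by exact_mod_cast h3
  linarith

theorem gap_rule {S : Set ℤ} (hS : PolyGrowth S) {b n₀ : ℕ} {γ : ℝ} (hb : 1 ≤ b)
    (hγ : 1 / 2 < γ) (hsep : Sep S b γ n₀) : ¬ HasSimultaneousOrdering S := by
  rintro ⟨a, ha⟩
  have hP : Stmt_PADIC := stmt_PADIC
  have hAR : Stmt_ARCHO := stmt_ARCHO
  have hLOW : Stmt_LOW := stmt_LOW hAR
  have hUP : Stmt_UP := stmt_UP hAR hLOW
  have hDEF : Stmt_DEF := stmt_DEF hUP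
  have hW : Stmt_WEIGHT := stmt_WEIGHT
  exact stmt_FIN (stmt_SIZE hAR) stmt_GOOD hUP (stmt_JB hDEF)
    (stmt_SMALL hDEF stmt_HIGHS) (stmt_SPACE stmt_HULL) stmt_PAIRS (stmt_NEAR hW) hW
    (stmt_SUMW (stmt_WINDOW hP) stmt_COMBA (stmt_COMBB stmt_MINP) stmt_PROD hP)
    S a ⟨hS.infinite, ha⟩ hS b n₀ γ hb hγ hsep

/-- all but finitely many `s ∈ S` have at most `b` other elements of `S` at distance less than
`|s| ^ γ` -/
def FewNear (S : Set ℤ) (γ : ℝ) (b : ℕ) : Prop :=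
  ∃ x₁ : ℕ, ∀ s ∈ S, (x₁ : ℤ) ≤ |s| →
    {t : ℤ | t ∈ S ∧ t ≠ s ∧ (|t - s| : ℝ) < (|s| : ℝ) ^ γ}.ncard ≤ b

theorem few_near {S : Set ℤ} (hS : PolyGrowth S) {b : ℕ} {γ : ℝ} (hγ : 1 / 2 < γ)
    (h : FewNear S γ b) : ¬ HasSimultaneousOrdering S := by
  obtain ⟨x₁, hx₁⟩ := h
  have key : ∃ x₁ : ℕ, ∀ s ∈ S, (x₁ : ℤ) ≤ |s| →
      ∀ X : Finset ℤ, (X : Set ℤ) ⊆ S → (∀ t ∈ X, t ≠ s ∧ (|t - s| : ℝ) < (|s| : ℝ) ^ γ) →
        X.card < b + 1 := by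
    refine ⟨x₁, fun s hs hsx X hXS hX => ?_⟩
    have hfin : {t : ℤ | t ∈ S ∧ t ≠ s ∧ (|t - s| : ℝ) < (|s| : ℝ) ^ γ}.Finite := by
      obtain ⟨D, hD⟩ := exists_nat_gt ((|s| : ℝ) ^ γ)
      refine (Set.finite_Icc (s - D) (s + D)).subset ?_
      rintro t ⟨_, _, ht⟩
      have h1 : (|t - s| : ℝ) < D := ht.trans hD
      have h2 : |t - s| < (D : ℤ) := by exact_mod_cast h1
      rw [abs_lt] at h2
      rw [Set.mem_Icc]
      constructor <;> linarith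
    have h1 : (X : Set ℤ) ⊆ {t : ℤ | t ∈ S ∧ t ≠ s ∧ (|t - s| : ℝ) < (|s| : ℝ) ^ γ} :=
      fun t ht => ⟨hXS ht, (hX t ht).1, (hX t ht).2⟩
    have h2 := Set.ncard_le_ncard h1 hfin
    rw [Set.ncard_coe_finset] at h2
    have h3 := hx₁ s hs hsx
    omega
  obtain ⟨n₀, hn₀⟩ := stmt_COR S γ ((1 / 2 + γ) / 2) (b + 1) hS.infinite (by linarith)
    (by linarith) key
  exact gap_rule hS (by omega) (by linarith : 1 / 2 < (1 / 2 + γ) / 2) hn₀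

end Pool.Agent.Work.MP_b29d7f_sep
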