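import Pool.Agent.Work.MP_b29d7f_sep.Defs

/-!
# Gap rule: statements of the blocks

Paper proof: note 2574.  Every block is a closed proposition `Stmt_X`; a block is done when a file
`B_X.lean` proves `theorem stmt_X : Stmt_X` (possibly from other `Stmt_Y` as hypotheses, as listed in
the table `sep_blocks`).
-/

namespace Pool.Agent.Work.MP_b29d7f_sep

open Finset
open Pool.Agent.Work.MP_b29d7f_nt (IsPOrdering HasSimultaneousOrdering PS vd ld tv)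
open Pool.Agent.Work.MP_b29d7f_half (Ord A wv lD K DK)

/-- PADIC: F1, F2 and monotonicity of `w_p` -/
def Stmt_PADIC : Prop := ∀ (S : Set ℤ) (a : ℕ → ℤ), Ord S a → ∀ p : ℕ, p.Prime →
  (∀ (n : ℕ) (s : ℤ), s ∈ S → s ∉ A a n → wv p a n ≤ ∑ y ∈ A a n, vd p s y) ∧
  (∀ n : ℕ, ∀ z ∈ A a (n + 1), ∑ y ∈ (A a (n + 1)).erase z, vd p z y ≤ wv p a n) ∧
  Monotone (nv p a)

/-- ARCHO: the archimedean analogues -/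
def Stmt_ARCHO : Prop := ∀ (S : Set ℤ) (a : ℕ → ℤ), Ord S a →
  (∀ n : ℕ, ∀ z ∈ A a (n + 1), ∑ y ∈ (A a (n + 1)).erase z, ld z y ≤ lD a n) ∧
  Monotone (lD a) ∧ (∀ n : ℕ, 0 ≤ lD a n) ∧
  (∀ n : ℕ, PS ld (A a n) = ∑ k ∈ range n, lD a k)

/-- HULL: every initial segment of the ordering is an interval of `S` -/
def Stmt_HULL : Prop := ∀ (S : Set ℤ) (a : ℕ → ℤ), Ord S a → ∀ n : ℕ, ∀ s ∈ S,
  (∃ i < n, a i ≤ s) → (∃ j < n, s ≤ a j) → s ∈ A a n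

/-- WINDOW: the two bounds for the `p`-adic energy of a window -/
def Stmt_WINDOW : Prop := ∀ (S : Set ℤ) (a : ℕ → ℤ), Ord S a → ∀ p : ℕ, p.Prime →
  ∀ u m : ℕ,
    EW p a u m ≤ ∑ g ∈ Ico u (u + m), ((nv p a (g + 1) : ℝ) - nv p a g) * ((u : ℝ) + m - g) ∧
    EW p a u m ≤ ∑ g ∈ Ico u (u + m), ((nv p a (g + 1) : ℝ) - nv p a g) * ((g : ℝ) + 1 - u)

/-- COMBA: the trivial bound for the sum over windows -/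
def Stmt_COMBA : Prop := ∀ (w : ℕ → ℕ) (E : ℕ → ℕ → ℝ) (n M : ℕ), Monotone w → 1 ≤ M → M ≤ n →
  (∀ u m : ℕ, 1 ≤ m → u + m ≤ n →
    E u m ≤ ∑ g ∈ Ico u (u + m), ((w (g + 1) : ℝ) - w g) * ((u : ℝ) + m - g)) →
  WS E n M ≤ Q1 M * w n

/-- MINP: the minimum of two sums -/
def Stmt_MINP : Prop := ∀ (om : ℕ → ℕ) (u m : ℕ) (E : ℝ),
  E ≤ ∑ g ∈ Ico u (u + m), (om g : ℝ) * ((u : ℝ) + m - g) →
  E ≤ ∑ g ∈ Ico u (u + m), (om g : ℝ) * ((g : ℝ) + 1 - u) →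
  E ≤ ∑ g ∈ Ico u (u + m), (om g : ℝ) * min ((u : ℝ) + m - g) ((g : ℝ) + 1 - u) +
    ∑ g ∈ Ico u (u + m), ∑ g' ∈ Ico (g + 1) (u + m), (om g : ℝ) * om g' * ((g' : ℝ) - g)

/-- COMBB: half of the trivial bound when there are few jumps in each window -/
def Stmt_COMBB : Prop := ∀ (w : ℕ → ℕ) (E : ℕ → ℕ → ℝ) (n M J : ℕ), Monotone w → 1 ≤ M → M ≤ n →
  (∀ u m : ℕ, 1 ≤ m → u + m ≤ n →
    E u m ≤ ∑ g ∈ Ico u (u + m), ((w (g + 1) : ℝ) - w g) * ((u : ℝ) + m - g)) →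
  (∀ u m : ℕ, 1 ≤ m → u + m ≤ n →
    E u m ≤ ∑ g ∈ Ico u (u + m), ((w (g + 1) : ℝ) - w g) * ((g : ℝ) + 1 - u)) →
  (∀ u : ℕ, u + M ≤ n → w (u + M) ≤ w u + J) →
  WS E n M ≤ (Q1 M / 2 + 2 + J) * w n

/-- WEIGHT: the weights -/
def Stmt_WEIGHT : Prop :=
  (∀ X : ℝ, ∃ M₀ : ℕ, ∀ M : ℕ, M₀ ≤ M → X ≤ Q1 M) ∧
  ∀ M : ℕ, ∑ d ∈ Icc 1 M, phi M d = Q1 M ∧ ∀ d : ℕ, 1 ≤ d → 0 ≤ phi M d ∧ phi M d ≤ 2

/-- PAIRS: lower bound for the sum over the windows of a nonnegative function of pairs -/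
def Stmt_PAIRS : Prop := ∀ (f : ℕ → ℕ → ℝ) (n M : ℕ), (∀ i j, 0 ≤ f j i) → 1 ≤ M → M ≤ n →
  ∑ i ∈ Ico M (n - M + 1), ∑ d ∈ Icc 1 M, phi M d * f (i + d) i ≤
    WS (fun u m => ∑ j ∈ Ico u (u + m + 1), ∑ i ∈ Ico u j, f j i) n M

/-- NEAR: at most `b - 1` elements are closer to `a i` than `gap S b (a i)` -/
def Stmt_NEAR : Prop := ∀ (S : Set ℤ) (a : ℕ → ℤ), Ord S a → ∀ b M i : ℕ, 1 ≤ b →
  (Q1 M - 2 * b) * Real.log (gap S b (a i)) ≤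
    ∑ d ∈ Icc 1 M, phi M d * ld (a (i + d)) (a i)

/-- SIZE: polynomial bound for the ordering -/
def Stmt_SIZE : Prop := ∀ (S : Set ℤ) (a : ℕ → ℤ), Ord S a → PolyGrowth S →
  ∃ (c B : ℝ) (C₂ : ℕ), Dat S a c B C₂

/-- GOOD: there are arbitrarily large good scales -/
def Stmt_GOOD : Prop := ∀ S : Set ℤ, PolyGrowth S → ∀ ε : ℝ, 0 < ε → ε < 1 → ∀ x₁ : ℕ,
  ∃ x N n : ℕ, x₁ ≤ x ∧ Sc S ε x N n

/-- LOW: lower bound for the factorials at a good scale -/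
def Stmt_LOW : Prop := ∀ (S : Set ℤ) (a : ℕ → ℤ) (c B : ℝ) (C₂ : ℕ), Dat S a c B C₂ →
  ∀ ε : ℝ, 0 < ε → ε ≤ 1 / 100 → ∃ x₁ : ℕ, ∀ x N n : ℕ, x₁ ≤ x → Sc S ε x N n →
    ∀ k : ℕ, k ≤ N → ((k : ℝ) - 3 * ε * N) * Real.log x ≤ lD a k

/-- UP: upper bound for the factorials at a good scale -/
def Stmt_UP : Prop := ∀ (S : Set ℤ) (a : ℕ → ℤ) (c B : ℝ) (C₂ : ℕ), Dat S a c B C₂ →
  ∀ ε : ℝ, 0 < ε → ε ≤ 1 / 100 → ∃ x₁ : ℕ, ∀ x N n : ℕ, x₁ ≤ x → Sc S ε x N n →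
    ∀ k : ℕ, 2 * k ≤ N → lD a k ≤ ((k : ℝ) + 3 * Real.sqrt ε * N) * Real.log x

/-- DEF: small defect at the early elements -/
def Stmt_DEF : Prop := ∀ (S : Set ℤ) (a : ℕ → ℤ) (c B : ℝ) (C₂ : ℕ), Dat S a c B C₂ →
  ∀ ε : ℝ, 0 < ε → ε ≤ 1 / 100 → ∃ x₁ : ℕ, ∀ x N n : ℕ, x₁ ≤ x → Sc S ε x N n →
    ∀ k : ℕ, n ≤ k → k ≤ 2 * n → ∀ z ∈ A a k, (|z| : ℝ) ≤ (x : ℝ) ^ (1 - ε) / 2 →
      ∀ P : Finset ℕ, (∀ p ∈ P, p.Prime) →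
        ∑ p ∈ P, Real.log p * (wv p a k - ∑ y ∈ (A a k).erase z, vd p z y) ≤
          30 * Real.sqrt ε * n * Real.log x

/-- JB: few jumps in a window for the primes which are not small -/
def Stmt_JB : Prop := ∀ (S : Set ℤ) (a : ℕ → ℤ) (c B : ℝ) (C₂ : ℕ), Dat S a c B C₂ →
  ∀ β : ℝ, 0 < β → β < 1 → ∃ J : ℕ, ∀ M : ℕ, 1 ≤ M → ∃ ε₀ : ℝ, 0 < ε₀ ∧
    ∀ ε : ℝ, 0 < ε → ε ≤ ε₀ → ∃ x₁ : ℕ, ∀ x N n : ℕ, x₁ ≤ x → Sc S ε x N n →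
      ∀ p : ℕ, p.Prime → ⌊(n : ℝ) ^ β⌋₊ < p → ∀ u : ℕ, u + M ≤ n →
        nv p a (u + M) ≤ nv p a u + J

/-- HIGHS: the high prime powers -/
def Stmt_HIGHS : Prop := ∀ (Z X : Finset ℤ) (ρ R Q : ℕ) (T : ℝ), R = 2 * ρ + 1 →
  (∀ z ∈ Z, |z| ≤ (ρ : ℤ)) → 0 ≤ T → (∀ z ∈ Z, ∀ y ∈ X, z ≠ y → ld z y ≤ T) →
  ∑ z ∈ Z, ∑ y ∈ X.erase z, ∑ p ∈ Q.primesLE,
      Real.log p * (vd p z y - (tv p (Nat.log p R) (z - y) : ℝ)) ≤ X.card * Q * T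

/-- SMALL: the small primes carry little -/
def Stmt_SMALL : Prop := ∀ (S : Set ℤ) (a : ℕ → ℤ) (c B : ℝ) (C₂ : ℕ), Dat S a c B C₂ →
  ∀ β : ℝ, 0 < β → 8 * (C₂ : ℝ) * β ≤ 1 → ∀ ε : ℝ, 0 < ε → ε ≤ 1 / 100 →
    ∃ x₁ : ℕ, ∀ x N n : ℕ, x₁ ≤ x → Sc S ε x N n →
      ∑ p ∈ (⌊(n : ℝ) ^ β⌋₊).primesLE, Real.log p * wv p a n ≤
        n * ((8 * (C₂ : ℝ) * β + 61 * Real.sqrt ε) * Real.log x)

/-- SPACE: the hypothesis on the gaps along the ordering -/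
def Stmt_SPACE : Prop := ∀ (S : Set ℤ) (a : ℕ → ℤ) (c B : ℝ) (C₂ : ℕ), Dat S a c B C₂ →
  ∀ (b n₀ : ℕ) (γ : ℝ), 1 ≤ b → 0 < γ → Sep S b γ n₀ → ∀ M : ℕ, ∀ ε : ℝ, 0 < ε → ε ≤ 1 / 100 →
    ∃ x₁ : ℕ, ∀ x N n : ℕ, x₁ ≤ x → Sc S ε x N n →
      γ * (1 - 7 * ε) * n * Real.log x ≤
        ∑ i ∈ Ico M (n - M + 1), Real.log (gap S b (a i))

/-- PROD: the product formula for windows and factorials up to the index `n` -/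
def Stmt_PROD : Prop := ∀ (S : Set ℤ) (a : ℕ → ℤ), Ord S a → ∀ n : ℕ,
  ∃ P : Finset ℕ, (∀ p ∈ P, p.Prime) ∧
    (∀ k : ℕ, k ≤ n → lD a k = ∑ p ∈ P, Real.log p * wv p a k) ∧
    (∀ u m : ℕ, u + m ≤ n → EL a u m = ∑ p ∈ P, Real.log p * EW p a u m)

/-- SUMW: comparison of the window sum with the factorial -/
def Stmt_SUMW : Prop := ∀ (S : Set ℤ) (a : ℕ → ℤ), Ord S a → ∀ n M Q J : ℕ, 1 ≤ M → M ≤ n →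
  (∀ p : ℕ, p.Prime → Q < p → ∀ u : ℕ, u + M ≤ n → nv p a (u + M) ≤ nv p a u + J) →
  WS (EL a) n M ≤ Q1 M * (∑ p ∈ Q.primesLE, Real.log p * wv p a n) +
    (Q1 M / 2 + 2 + J) * lD a n

/-- FIN: contradiction -/
def Stmt_FIN : Prop := ∀ (S : Set ℤ) (a : ℕ → ℤ), Ord S a → PolyGrowth S →
  ∀ (b n₀ : ℕ) (γ : ℝ), 1 ≤ b → 1 / 2 < γ → ¬ Sep S b γ n₀

/-- COR: bounded number of close neighbours implies the averaged hypothesis -/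
def Stmt_COR : Prop := ∀ (S : Set ℤ) (γ γ' : ℝ) (b : ℕ), S.Infinite → 0 < γ' → γ' < γ →
  (∃ x₁ : ℕ, ∀ s ∈ S, (x₁ : ℤ) ≤ |s| →
    ∀ X : Finset ℤ, (X : Set ℤ) ⊆ S → (∀ t ∈ X, t ≠ s ∧ (|t - s| : ℝ) < (|s| : ℝ) ^ γ) →
      X.card < b) →
  ∃ n₀ : ℕ, Sep S b γ' n₀

end Pool.Agent.Work.MP_b29d7f_sep
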