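import Pool.Agent.Work.MP_b29d7f_sep.Final
import Pool.Agent.Work.MP_b29d7f_half.Sharp

/-!
# Gap rule: sharpness
-/

namespace Pool.Agent.Work.MP_b29d7f_sep

open Pool.Agent.Work.MP_b29d7f_nt (HasSimultaneousOrdering)

theorem squares_growth : PolyGrowth {x : ℤ | ∃ n : ℤ, x = n ^ 2} := by
  refine ⟨1 / 2, by norm_num, 0, fun x _ => ?_⟩
  refine (Pool.Agent.Work.MP_b29d7f_half.squares_sharp.2.1 x).trans ?_
  have h1 : ({x : ℤ | ∃ n : ℤ, x = n ^ 2} ∩ Set.Ico (0 : ℤ) (0 + x)) ⊆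
      ((St {x : ℤ | ∃ n : ℤ, x = n ^ 2} (-(x : ℤ)) x : Finset ℤ) : Set ℤ) := by
    rintro s ⟨hs, hs'⟩
    rw [Set.mem_Ico] at hs'
    rw [Finset.mem_coe, mem_St]
    refine ⟨⟨?_, ?_⟩, hs⟩
    · have : (0 : ℤ) ≤ x := Int.natCast_nonneg x
      linarith [hs'.1]
    · linarith [hs'.2]
  have h2 := Set.ncard_le_ncard h1 (Finset.finite_toSet _)
  rw [Set.ncard_coe_finset] at h2
  unfold Nn
  exact_mod_cast h2

theorem squares_few : FewNear {x : ℤ | ∃ n : ℤ, x = n ^ 2} (1 / 2) 0 := by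
  refine ⟨0, ?_⟩
  rintro s ⟨n, rfl⟩ _
  rw [Nat.le_zero, Set.ncard_eq_zero (Set.Finite.subset Set.finite_empty ?_)]
  all_goals
    first
    | rw [Set.eq_empty_iff_forall_notMem]
    | rw [Set.subset_empty_iff, Set.eq_empty_iff_forall_notMem]
    rintro t ⟨⟨m, rfl⟩, hne, hlt⟩
    have h1 : ((|n ^ 2| : ℤ) : ℝ) ^ (1 / 2 : ℝ) = (|n| : ℝ) := by
      rw [← Real.sqrt_eq_rpow]
      push_cast
      rw [abs_pow, sq_abs, Real.sqrt_sq_eq_abs]
    have h2 : ((|m ^ 2 - n ^ 2| : ℤ) : ℝ) < (|n| : ℝ) := by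
      rw [← h1]
      exact_mod_cast hlt
    have h3 : |m ^ 2 - n ^ 2| < |n| := by exact_mod_cast h2
    have h4 : m ^ 2 - n ^ 2 = (|m| - |n|) * (|m| + |n|) := by
      have e1 := sq_abs m
      have e2 := sq_abs n
      linear_combination (-1 : ℤ) * e1 + e2
    have h5 : |m| - |n| ≠ 0 := by
      intro h
      rw [h, zero_mul] at h4
      exact hne (by linarith)
    have h6 : 1 ≤ |(|m| - |n|)| := Int.one_le_abs h5
    have h7 : 0 ≤ |m| := abs_nonneg m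
    have h8 : 0 ≤ |n| := abs_nonneg n
    rw [h4, abs_mul, abs_of_nonneg (by linarith : 0 ≤ |m| + |n|)] at h3
    nlinarith

theorem squares_sharp_sep :
    PolyGrowth {x : ℤ | ∃ n : ℤ, x = n ^ 2} ∧
    FewNear {x : ℤ | ∃ n : ℤ, x = n ^ 2} (1 / 2) 0 ∧
    HasSimultaneousOrdering {x : ℤ | ∃ n : ℤ, x = n ^ 2} :=
  ⟨squares_growth, squares_few, Pool.Agent.Work.MP_b29d7f_half.squares_sharp.1⟩

end Pool.Agent.Work.MP_b29d7f_sep
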